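import Pool.Agent.Lib.H37N.CDefs
import Pool.Agent.Lib.H37N.T6b
import Pool.Agent.Lib.H37N.T8

/-!
# H37N P06 (M): flat corrections at a place

Let `w0 = Li v0 ∈ D`, `G = Li ∘ Gh ∘ PlM` near `w0`: smooth near `w0`, `G w0 = w0`, and `G w - w = Li (Gh v) - Li v = O(|Gh v - v|) =
O(|v - v0|^(R+2)) = O(|w - w0|^(R+2))`, `v = PlM w` (`Li`, `PlM` are locally Lipschitz). `flat_corr` (T6b) gives `ψ ∈ Small R ε`, supported in a
small compact neighbourhood of `w0` inside `D ∩ Li '' O`, equal to `G` near `w0`; `ψ` is a bijection (T8), so it maps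
the support ball into itself: `Adm D ψ`. (T6 should give the support in a closed ball `C` with `ψ '' C ⊆ C`; since `ψ` is
injective and `= id` off `C`, this is automatic.)
-/

open Set Filter Topology Asymptotics
open scoped ContDiff

namespace Pool.Agent.Lib.H37N

variable {g : Pt → Pt} {s : Fr} {Z : Set Pt} {b a : ℝ} {k l : ℕ} {r : ℝ} {D B : Set Pt}
  {Li : Pt → Pt}

theorem Place.flat (hp : Place g s Z b a k l r D B Li) {v0 : Pt}
    (hv0 : v0 ∈ Metric.ball ((a, 0) : Pt) r) {R : ℕ} {Gh : Pt → Pt} {O1 : Set Pt}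
    (hO1 : IsOpen O1) (hv1 : v0 ∈ O1) (hG : ContDiffOn ℝ ∞ Gh O1)
    (hG1 : (fun v => Gh v - v) =O[𝓝 v0] fun v => ‖v - v0‖ ^ (R + 2)) {ε : ℝ} (hε : 0 < ε)
    {O : Set Pt} (hO : O ∈ 𝓝 v0) :
    ∃ ψ : Pt → Pt, Small R ε ψ ∧ Adm D ψ ∧
      (∀ᶠ v in 𝓝 v0, PlM g s l (ψ (Li v)) = Gh v) ∧
      ∀ v ∈ Metric.ball ((a, 0) : Pt) r, v ∉ O → PlM g s l (ψ (Li v)) = v := by
  have hball : IsOpen (Metric.ball ((a, 0) : Pt) r) := Metric.isOpen_ball
  have hw0 : Li v0 ∈ D := hp.Li_mem v0 hv0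
  have hPw0 : PlM g s l (Li v0) = v0 := hp.Pl_Li v0 hv0
  obtain ⟨C, -, hDC, hCK, -⟩ := hp.compD
  have hK : Li v0 ∈ interior K0 :=
    interior_maximal (hDC.trans hCK) hp.openD hw0
  -- Gh fixes v0
  have hfix : Gh v0 = v0 := by
    obtain ⟨c, hc⟩ := hG1.bound
    have h1 := hc.self_of_nhds
    simp only [sub_self, norm_zero] at h1
    rw [zero_pow (by omega), norm_zero, mul_zero] at h1
    exact sub_eq_zero.1 (norm_eq_zero.1 (le_antisymm h1 (norm_nonneg _)))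
  have hPlat : ∀ w ∈ D, ContDiffAt ℝ ∞ (PlM g s l) w := fun w hw =>
    hp.smPl.contDiffAt (hp.openD.mem_nhds hw)
  have hLiat : ∀ v ∈ Metric.ball ((a, 0) : Pt) r, ContDiffAt ℝ ∞ Li v := fun v hv =>
    hp.smLi.contDiffAt (hball.mem_nhds hv)
  have hPc : Tendsto (PlM g s l) (𝓝 (Li v0)) (𝓝 v0) := by
    have h1 := (hPlat _ hw0).continuousAt.tendsto
    rwa [hPw0] at h1
  have hLc : Tendsto Li (𝓝 v0) (𝓝 (Li v0)) := (hLiat v0 hv0).continuousAt.tendsto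
  have hGc : Tendsto Gh (𝓝 v0) (𝓝 v0) := by
    have h1 := (hG.contDiffAt (hO1.mem_nhds hv1)).continuousAt.tendsto
    rwa [hfix] at h1
  have hDn : ∀ᶠ w in 𝓝 (Li v0), w ∈ D := hp.openD.mem_nhds hw0
  have hGs : ∀ᶠ w in 𝓝 (Li v0), ContDiffAt ℝ ∞ (fun w => Li (Gh (PlM g s l w))) w := by
    have h1 : ∀ᶠ w in 𝓝 (Li v0), PlM g s l w ∈ O1 := hPc.eventually (hO1.mem_nhds hv1)
    have h2 : ∀ᶠ w in 𝓝 (Li v0), Gh (PlM g s l w) ∈ Metric.ball ((a, 0) : Pt) r :=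
      (hGc.comp hPc).eventually (hball.mem_nhds hv0)
    filter_upwards [hDn, h1, h2] with w h3 h4 h5
    exact (hLiat _ h5).comp w ((hG.contDiffAt (hO1.mem_nhds h4)).comp w (hPlat w h3))
  have hbig : (fun w => Li (Gh (PlM g s l w)) - w) =O[𝓝 (Li v0)]
      fun w => ‖w - Li v0‖ ^ (R + 2) := by
    obtain ⟨K, T, hT, hKT⟩ := ((hLiat v0 hv0).of_le (by simp : (1 : WithTop ℕ∞) ≤ ∞)).exists_lipschitzOnWith
    have h1 : (fun w => Li (Gh (PlM g s l w)) - w) =O[𝓝 (Li v0)]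
        fun w => Gh (PlM g s l w) - PlM g s l w := by
      refine IsBigO.of_bound K ?_
      filter_upwards [hDn, hPc.eventually hT, (hGc.comp hPc).eventually hT] with w h2 h3 h4
      have h5 : w = Li (PlM g s l w) := (hp.Li_Pl w h2).symm
      have h6 := hKT.dist_le_mul _ h4 _ h3
      rw [dist_eq_norm, dist_eq_norm] at h6
      calc ‖Li (Gh (PlM g s l w)) - w‖ = ‖Li (Gh (PlM g s l w)) - Li (PlM g s l w)‖ := by
            rw [← h5]
        _ ≤ _ := h6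
    have h2 : (fun w => Gh (PlM g s l w) - PlM g s l w) =O[𝓝 (Li v0)]
        fun w => ‖PlM g s l w - v0‖ ^ (R + 2) := hG1.comp_tendsto hPc
    have h3 : (fun w => PlM g s l w - v0) =O[𝓝 (Li v0)] fun w => w - Li v0 := by
      have h4 := ((hPlat _ hw0).differentiableAt (by simp)).hasFDerivAt.isBigO_sub
      rwa [hPw0] at h4
    exact (h1.trans h2).trans (h3.norm_norm.pow (R + 2))
  have hB : {w | w ∈ D ∧ PlM g s l w ∈ O} ∈ 𝓝 (Li v0) :=
    Filter.inter_mem (hp.openD.mem_nhds hw0) (hPc hO)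
  obtain ⟨ψ, hψ, hψB, hψG⟩ := flat_corr (R + 1) (ε := min ε (1 / 2)) (lt_min hε (by norm_num)) hK
    hGs hbig hB
  have hinj : Function.Injective ψ :=
    t8_inj (hψ.mono (R' := 1) (ε' := 1 / 2) (by omega) (min_le_right _ _))
  refine ⟨ψ, hψ.mono (Nat.le_succ R) (min_le_left _ _), ⟨?_, ?_⟩, ?_, ?_⟩
  · intro w hw
    exact hψB w fun h => hw h.1
  · intro w hw
    by_contra hc
    have h1 : ψ (ψ w) = ψ w := hψB _ fun h => hc h.1
    exact hc ((hinj h1).symm ▸ hw)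
  · have h1 : ∀ᶠ v in 𝓝 v0, ψ (Li v) = Li (Gh (PlM g s l (Li v))) := hLc.eventually hψG
    have h2 : ∀ᶠ v in 𝓝 v0, v ∈ Metric.ball ((a, 0) : Pt) r := hball.mem_nhds hv0
    have h3 : ∀ᶠ v in 𝓝 v0, Gh v ∈ Metric.ball ((a, 0) : Pt) r :=
      hGc.eventually (hball.mem_nhds hv0)
    filter_upwards [h1, h2, h3] with v h4 h5 h6
    rw [h4, hp.Pl_Li v h5, hp.Pl_Li _ h6]
  · intro v hv hvO
    have h1 : ψ (Li v) = Li v := hψB _ fun h => by
      have h2 : PlM g s l (Li v) ∈ O := h.2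
      rw [hp.Pl_Li v hv] at h2
      exact hvO h2
    rw [h1, hp.Pl_Li v hv]


end Pool.Agent.Lib.H37N
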