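import Pool.Agent.Lib.H37N.CDefs
import Pool.Agent.Lib.H37N.T3
import Pool.Agent.Lib.H37N.T7

/-!
# H37N P05 (M/L): smooth families of perturbations at a place are small

`ψ_p(w) = Li (Ψ (p, PlM w))` for `w ∈ D`, `= w` off `D`. `Ψ_p = id` off the closed ball `C1` of radius `r/2`, so `ψ_p = id` off the
compact set `Li '' C1 ⊆ D`, and `Ψ_p` maps the ball of radius `r` into itself for small `p` (uniformly close to the
identity on `C1`). `ψ` is smooth in `(p,w)` for `p` near `0`. Smallness of all derivatives up to the order `R`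
for `p → 0`: the derivatives of `(p,w) ↦ ψ_p w - w` in `w` are continuous, vanish for `p = 0`, compact support
(tube lemma), i.e. `small_family` (T7): `F : P × Pt → Pt` smooth on `O × Pt`, `O` a neighbourhood of `0`, `F(0,w) = w`,
`F(p,w) = w` off a compact set implies `Small R ε (F p)` for `p` near `0`. (If the tool T7 is stated for global
families, multiply with a cut-off in `p`: `F(χ(p) p, w)`.)
-/

open Set Filter Topology Asymptotics
open scoped ContDiff

namespace Pool.Agent.Lib.H37N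

variable {g : Pt → Pt} {s : Fr} {Z : Set Pt} {b a : ℝ} {k l : ℕ} {r : ℝ} {D B : Set Pt}
  {Li : Pt → Pt}

theorem Place.family (hp : Place g s Z b a k l r D B Li) {P : Type} [NormedAddCommGroup P]
    [NormedSpace ℝ P] [FiniteDimensional ℝ P] (Ψ : P × Pt → Pt) (hΨ : ContDiff ℝ ∞ Ψ)
    (h0 : ∀ v, Ψ (0, v) = v)
    (hsupp : ∀ p v, v ∉ Metric.closedBall ((a, 0) : Pt) (r / 2) → Ψ (p, v) = v) (R : ℕ) {ε : ℝ}
    (hε : 0 < ε) :
    ∀ᶠ p in 𝓝 (0 : P), ∃ ψ : Pt → Pt, Small R ε ψ ∧ Adm D ψ ∧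
      ∀ v ∈ Metric.ball ((a, 0) : Pt) r, PlM g s l (ψ (Li v)) = Ψ (p, v) := by
  classical
  have hr := hp.r_pos
  set C1 : Set Pt := Metric.closedBall ((a, 0) : Pt) (r / 2) with hC1
  set B1 : Set Pt := Metric.ball ((a, 0) : Pt) r with hB1
  have hC1c : IsCompact C1 := isCompact_closedBall _ _
  have hC1B : C1 ⊆ B1 := Metric.closedBall_subset_ball (by linarith)
  have hB1o : IsOpen B1 := Metric.isOpen_ball
  -- the family maps the ball into itself for small parameters
  have h1 : ∀ᶠ p in 𝓝 (0 : P), ∀ v ∈ C1, Ψ (p, v) ∈ B1 := by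
    apply hC1c.eventually_forall_of_forall_eventually
    intro v hv
    have h2 : Ψ (0, v) ∈ B1 := by rw [h0]; exact hC1B hv
    have h3 : Tendsto Ψ (𝓝 ((0 : P), v)) (𝓝 (Ψ (0, v))) := hΨ.continuous.tendsto _
    exact h3.eventually (hB1o.mem_nhds h2)
  obtain ⟨ρ, hρ, hρ1⟩ := Metric.eventually_nhds_iff_ball.1 h1
  obtain ⟨χ, hχ, -, hχt, hχ01, hχ1⟩ := exists_cutoff (E := P) (isCompact_singleton (x := (0 : P)))
    (Metric.isOpen_ball (x := (0 : P)) (ε := ρ)) (singleton_subset_iff.2 (Metric.mem_ball_self hρ))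
  rw [nhdsSet_singleton] at hχ1
  have hball : ∀ p : P, χ p • p ∈ Metric.ball (0 : P) ρ := by
    intro p
    by_cases hpb : p ∈ Metric.ball (0 : P) ρ
    · rw [mem_ball_zero_iff] at hpb ⊢
      rw [norm_smul, Real.norm_of_nonneg (hχ01 p).1]
      calc χ p * ‖p‖ ≤ 1 * ‖p‖ := mul_le_mul_of_nonneg_right (hχ01 p).2 (norm_nonneg _)
        _ = ‖p‖ := one_mul _
        _ < ρ := hpb
    · have : χ p = 0 := by
        by_contra hne
        exact hpb (hχt (subset_tsupport _ hne))
      rw [this, zero_smul]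
      exact Metric.mem_ball_self hρ
  set Φ : P × Pt → Pt := fun q => Ψ (χ q.1 • q.1, q.2) with hΦ
  have hΦs : ContDiff ℝ ∞ Φ := by
    apply hΨ.comp
    exact ((hχ.comp contDiff_fst).smul contDiff_fst).prodMk contDiff_snd
  have hΦB : ∀ p v, v ∈ B1 → Φ (p, v) ∈ B1 := by
    intro p v hv
    by_cases hvC : v ∈ C1
    · exact hρ1 _ (hball p) v hvC
    · show Ψ (χ p • p, v) ∈ B1
      rw [hsupp _ v hvC]
      exact hv
  have hΦ0 : ∀ v, Φ (0, v) = v := by
    intro v
    show Ψ (χ 0 • (0 : P), v) = v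
    rw [smul_zero, h0]
  have hΦid : ∀ p v, v ∉ C1 → Φ (p, v) = v := fun p v hv => hsupp _ v hv
  -- the compact set
  set K : Set Pt := Li '' C1 with hK
  have hKc : IsCompact K := hC1c.image_of_continuousOn (hp.smLi.continuousOn.mono hC1B)
  have hKD : K ⊆ D := by
    rintro w ⟨v, hv, rfl⟩
    exact hp.Li_mem v (hC1B hv)
  have hnK : ∀ w ∈ D, w ∉ K → PlM g s l w ∉ C1 := by
    intro w hw hwK hC
    exact hwK ⟨_, hC, hp.Li_Pl w hw⟩
  set F : P × Pt → Pt := fun q => if q.2 ∈ D then Li (Φ (q.1, PlM g s l q.2)) else q.2 with hF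
  have hFid : ∀ p w, w ∉ K → F (p, w) = w := by
    intro p w hw
    by_cases hwD : w ∈ D
    · show (if w ∈ D then Li (Φ (p, PlM g s l w)) else w) = w
      rw [if_pos hwD, hΦid p _ (hnK w hwD hw), hp.Li_Pl w hwD]
    · show (if w ∈ D then Li (Φ (p, PlM g s l w)) else w) = w
      rw [if_neg hwD]
  have hFs : ContDiff ℝ ∞ F := by
    rw [contDiff_iff_contDiffAt]
    rintro ⟨p, w⟩
    by_cases hwD : w ∈ D
    · have hO : IsOpen ((univ : Set P) ×ˢ D) := isOpen_univ.prod hp.openD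
      have hmem : ((p, w) : P × Pt) ∈ (univ : Set P) ×ˢ D := ⟨mem_univ _, hwD⟩
      have hG : ContDiffOn ℝ ∞ (fun q : P × Pt => Li (Φ (q.1, PlM g s l q.2)))
          ((univ : Set P) ×ˢ D) := by
        apply hp.smLi.comp (t := B1)
        · apply hΦs.comp_contDiffOn
          exact contDiff_fst.contDiffOn.prodMk
            (hp.smPl.comp contDiff_snd.contDiffOn (fun q hq => hq.2))
        · intro q hq
          exact hΦB _ _ (hp.Pl_mem _ hq.2)
      refine (hG.contDiffAt (hO.mem_nhds hmem)).congr_of_eventuallyEq ?_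
      filter_upwards [hO.mem_nhds hmem] with q hq
      exact if_pos hq.2
    · have hwK : w ∉ K := fun h => hwD (hKD h)
      have hO : IsOpen ((univ : Set P) ×ˢ Kᶜ) := isOpen_univ.prod hKc.isClosed.isOpen_compl
      have hmem : ((p, w) : P × Pt) ∈ (univ : Set P) ×ˢ Kᶜ := ⟨mem_univ _, hwK⟩
      refine (contDiff_snd.contDiffAt (x := (p, w))).congr_of_eventuallyEq ?_
      filter_upwards [hO.mem_nhds hmem] with q hq
      exact hFid q.1 q.2 hq.2
  have hF0 : ∀ w, F (0, w) = w := by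
    intro w
    by_cases hwD : w ∈ D
    · show (if w ∈ D then Li (Φ (0, PlM g s l w)) else w) = w
      rw [if_pos hwD, hΦ0, hp.Li_Pl w hwD]
    · show (if w ∈ D then Li (Φ (0, PlM g s l w)) else w) = w
      rw [if_neg hwD]
  obtain ⟨C, hCc, hDC, hCK, -⟩ := hp.compD
  have hsm := small_family hFs (0 : P) hF0 hKc ((hKD.trans hDC).trans hCK) hFid R hε
  filter_upwards [hsm, hχ1] with p hps hpχ
  refine ⟨fun z => F (p, z), hps, ⟨?_, ?_⟩, ?_⟩
  · intro w hw
    exact hFid p w (fun h => hw (hKD h))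
  · intro w hw
    show (if w ∈ D then Li (Φ (p, PlM g s l w)) else w) ∈ D
    rw [if_pos hw]
    exact hp.Li_mem _ (hΦB _ _ (hp.Pl_mem w hw))
  · intro v hv
    have hD := hp.Li_mem v hv
    have hχp : χ p = 1 := by simpa using hpχ
    show PlM g s l (if Li v ∈ D then Li (Φ (p, PlM g s l (Li v))) else Li v) = Ψ (p, v)
    rw [if_pos hD, hp.Pl_Li v hv, hp.Pl_Li _ (hΦB p v hv)]
    show Ψ (χ p • p, v) = Ψ (p, v)
    rw [hχp, one_smul]

end Pool.Agent.Lib.H37N
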