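import Pool.Agent.Lib.H37N.C01
import Pool.Agent.Lib.H37N.A112
import Pool.Agent.Lib.H37N.B19

/-!
# H37N P02 (M): local regularity of the maps of a tangency datum

`Near g`: `g` is smooth with positive Jacobian at the points of an open set containing `V_P ∪ V_Q ∪ F`; `κQ` on `Bx`, `cP` on the
open set `κP '' Bx` (its Jacobian is `1 / jac κP > 0`). Chain rule (`jac` of a composition is the product).
Statement in the form: there is an open neighbourhood on which the map is `C^∞` and its Jacobian is positive.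
-/

open Set Filter Topology Asymptotics
open scoped ContDiff

namespace Pool.Agent.Lib.H37N

theorem p02_sub {Z : Set Pt} (h : Z ⊆ interior FF) : VO ∪ Z ⊆ Om :=
  union_subset_union subset_rfl h

theorem p02_shift (b : ℝ) : ContDiff ℝ ∞ (fun v : Pt => ((v.1, b + v.2) : Pt)) :=
  contDiff_fst.prodMk (contDiff_const.add contDiff_snd)

theorem p02_jshift (b : ℝ) (v : Pt) : jac (fun v : Pt => ((v.1, b + v.2) : Pt)) v = 1 := by
  have h : HasFDerivAt (fun v : Pt => ((v.1, b + v.2) : Pt)) (ContinuousLinearMap.id ℝ Pt) v := by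
    have e : (fun v : Pt => ((v.1, b + v.2) : Pt)) = fun v : Pt => v + (0, b) := by
      funext v
      ext
      · simp
      · simp [add_comm]
    rw [e]
    exact (hasFDerivAt_id v).add_const _
  unfold jac
  rw [h.fderiv]
  simp

theorem p02_in {g : Pt → Pt} {s : Fr} {Z : Set Pt} {m : ℕ} {b a : ℝ} {k l : ℕ}
    (hN : Near g) (hs : IsFr g s) (ht : TD g s Z m b a k l) {i : ℕ} (hi : i ≤ k) :
    (∀ᶠ v in 𝓝 (0 : Pt), ContDiffAt ℝ ∞ (InM g s b i) v ∧ InM g s b i v ∈ VO ∪ Z) ∧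
      0 < jac (InM g s b i) 0 := by
  have hc := hs.chart Sy.Q
  have hsm : ContDiff ℝ ∞ (fun v : Pt => s.κ Sy.Q (v.1, b + v.2)) := hc.smooth.comp (p02_shift b)
  have hpath : ∀ j < i, g^[j] (s.κ Sy.Q ((0 : Pt).1, b + (0 : Pt).2)) ∈ Om := fun j hj =>
    p02_sub ht.subZ (ht.path1 j (hj.le.trans hi))
  have h1 := hN.iter_Om i hpath
  have hcont : ContinuousAt (fun v : Pt => s.κ Sy.Q (v.1, b + v.2)) 0 := hsm.continuous.continuousAt
  have h2 : ∀ᶠ v in 𝓝 (0 : Pt), ContDiffAt ℝ ∞ (InM g s b i) v := by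
    filter_upwards [hcont.eventually h1] with v hv
    exact ContDiffAt.comp v hv.1 hsm.contDiffAt
  refine ⟨?_, ?_⟩
  · have hmem : ∀ᶠ v in 𝓝 (0 : Pt), InM g s b i v ∈ VO ∪ Z :=
      h2.self_of_nhds.continuousAt.eventually_mem
        ((isOpen_VO.union ht.openZ).mem_nhds (ht.path1 i hi))
    exact h2.and hmem
  · have e : InM g s b i = g^[i] ∘ (s.κ Sy.Q ∘ fun v : Pt => ((v.1, b + v.2) : Pt)) := rfl
    have d1 : DifferentiableAt ℝ (g^[i]) ((s.κ Sy.Q ∘ fun v : Pt => ((v.1, b + v.2) : Pt)) 0) :=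
      h1.self_of_nhds.1.differentiableAt (by simp)
    have d2 : DifferentiableAt ℝ (s.κ Sy.Q ∘ fun v : Pt => ((v.1, b + v.2) : Pt)) 0 :=
      hsm.contDiffAt.differentiableAt (by simp)
    rw [e, jac_comp d1 d2, jac_comp (hc.smooth.contDiffAt.differentiableAt (by simp))
      ((p02_shift b).contDiffAt.differentiableAt (by simp)), p02_jshift, mul_one]
    have hb : ((fun v : Pt => ((v.1, b + v.2) : Pt)) 0) ∈ Bx := by
      have := abs_lt.mp ht.b_lt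
      simp only [Bx, mem_prod, mem_Ioo, Prod.fst_zero, Prod.snd_zero, add_zero]
      refine ⟨⟨by norm_num, by norm_num⟩, by linarith, by linarith⟩
    exact mul_pos (hN.jac_iter_Om i hpath) (hc.jac_pos _ hb)

theorem p02_of_ev {P : Pt → Prop} {z : Pt} (h : ∀ᶠ v in 𝓝 z, P v) :
    ∃ O : Set Pt, IsOpen O ∧ z ∈ O ∧ ∀ v ∈ O, P v := by
  obtain ⟨O, h1, h2, h3⟩ := mem_nhds_iff.mp h
  exact ⟨O, h2, h3, fun v hv => h1 hv⟩

theorem in_regular {g : Pt → Pt} {s : Fr} {Z : Set Pt} {m : ℕ} {b a : ℝ} {k l : ℕ}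
    (hN : Near g) (hs : IsFr g s) (ht : TD g s Z m b a k l) :
    ∃ O : Set Pt, IsOpen O ∧ (0 : Pt) ∈ O ∧ (∀ i ≤ k, ContDiffOn ℝ ∞ (InM g s b i) O) ∧
      (∀ v ∈ O, 0 < jac (InM g s b k) v) ∧ (∀ v ∈ O, ∀ i ≤ k, InM g s b i v ∈ VO ∪ Z) := by
  have h1 : ∀ᶠ v in 𝓝 (0 : Pt), ∀ i ∈ Finset.range (k + 1),
      ContDiffAt ℝ ∞ (InM g s b i) v ∧ InM g s b i v ∈ VO ∪ Z := by
    rw [Filter.eventually_all_finset]
    intro i hi
    exact (p02_in hN hs ht (Nat.lt_succ_iff.mp (Finset.mem_range.mp hi))).1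
  have hk := p02_in hN hs ht (le_refl k)
  have h2 : ∀ᶠ v in 𝓝 (0 : Pt), 0 < jac (InM g s b k) v :=
    (jac_continuousAt hk.1.self_of_nhds.1).eventually (lt_mem_nhds hk.2)
  obtain ⟨O, hO, h0, h3⟩ := p02_of_ev (h1.and h2)
  refine ⟨O, hO, h0, fun i hi v hv => ?_, fun v hv => (h3 v hv).2, fun v hv i hi => ?_⟩
  · exact ((h3 v hv).1 i (Finset.mem_range.mpr (Nat.lt_succ_iff.mpr hi))).1.contDiffWithinAt
  · exact ((h3 v hv).1 i (Finset.mem_range.mpr (Nat.lt_succ_iff.mpr hi))).2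

theorem p02_a {g : Pt → Pt} {s : Fr} {Z : Set Pt} {m : ℕ} {b a : ℝ} {k l : ℕ}
    (ht : TD g s Z m b a k l) : ((a, 0) : Pt) ∈ Bx := by
  have := abs_lt.mp ht.a_lt
  simp only [Bx, mem_prod, mem_Ioo]
  refine ⟨⟨by linarith, by linarith⟩, by norm_num, by norm_num⟩

theorem pl_regular {g : Pt → Pt} {s : Fr} {Z : Set Pt} {m : ℕ} {b a : ℝ} {k l : ℕ}
    (hN : Near g) (hs : IsFr g s) (ht : TD g s Z m b a k l) :
    ∃ O : Set Pt, IsOpen O ∧ g (InM g s b k 0) ∈ O ∧ ContDiffOn ℝ ∞ (PlM g s l) O ∧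
      (∀ w ∈ O, 0 < jac (PlM g s l) w) ∧ (∀ w ∈ O, ∀ i ≤ l, g^[i] w ∈ VO) ∧
      (∀ w ∈ O, g^[l] w = s.κ Sy.P (PlM g s l w) ∧ PlM g s l w ∈ Bx) := by
  have hc := hs.chart Sy.P
  have h1 := hN.iter (l + 1) (z := g (InM g s b k 0)) fun j hj =>
    ht.path2 j (Nat.lt_succ_iff.mp hj)
  have h1' := hN.iter l (z := g (InM g s b k 0)) fun j hj => ht.path2 j hj.le
  have hev : ∀ᶠ w in 𝓝 (g (InM g s b k 0)), g^[l] w ∈ s.κ Sy.P '' Bx := by
    refine h1'.self_of_nhds.1.continuousAt.eventually_mem (hc.isOpen.mem_nhds ?_)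
    rw [ht.fin]
    exact mem_image_of_mem _ (p02_a ht)
  obtain ⟨O, hO, h0, h3⟩ := p02_of_ev ((h1.and h1').and hev)
  have hland : ∀ w ∈ O, g^[l] w = s.κ Sy.P (PlM g s l w) ∧ PlM g s l w ∈ Bx := by
    intro w hw
    obtain ⟨v, hv, hv'⟩ := (h3 w hw).2
    have e : PlM g s l w = v := by
      unfold PlM
      rw [← hv', hc.left v hv]
    rw [e]
    exact ⟨hv'.symm, hv⟩
  have hsm : ∀ w ∈ O, ContDiffAt ℝ ∞ (PlM g s l) w := fun w hw =>
    hc.smooth_c.contDiffAt.comp w (h3 w hw).1.2.1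
  refine ⟨O, hO, h0, fun w hw => (hsm w hw).contDiffWithinAt, fun w hw => ?_, fun w hw i hi => ?_,
    hland⟩
  · have e : (g^[l]) =ᶠ[𝓝 w] (s.κ Sy.P ∘ PlM g s l) := by
      filter_upwards [hO.mem_nhds hw] with w' hw'
      exact (hland w' hw').1
    have e1 := jac_congr e
    rw [jac_comp (hc.smooth.contDiffAt.differentiableAt (by simp))
      ((hsm w hw).differentiableAt (by simp))] at e1
    have h4 : 0 < jac (g^[l]) w := hN.jac_iter_pos l fun j hj => (h3 w hw).1.2.2 j hj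
    rw [e1] at h4
    exact (pos_iff_pos_of_mul_pos h4).mp (hc.jac_pos _ (hland w hw).2)
  · exact (h3 w hw).1.1.2 i (Nat.lt_succ_iff.mpr hi)

theorem tt_regular {g : Pt → Pt} {s : Fr} {Z : Set Pt} {m : ℕ} {b a : ℝ} {k l : ℕ}
    (hN : Near g) (hs : IsFr g s) (ht : TD g s Z m b a k l) :
    (∃ O : Set Pt, IsOpen O ∧ (0 : Pt) ∈ O ∧ ContDiffOn ℝ ∞ (TT g s b k l) O ∧
      ∀ v ∈ O, 0 < jac (TT g s b k l) v) ∧ TT g s b k l 0 = (a, 0) := by
  refine ⟨?_, ?_⟩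
  · obtain ⟨O1, hO1, h01, hs1, hj1, hm1⟩ := in_regular hN hs ht
    obtain ⟨O2, hO2, h02, hs2, hj2, hm2, -⟩ := pl_regular hN hs ht
    have hInC : ∀ v ∈ O1, ContDiffAt ℝ ∞ (InM g s b k) v := fun v hv =>
      (hs1 k le_rfl).contDiffAt (hO1.mem_nhds hv)
    have hgC : ∀ v ∈ O1, ContDiffAt ℝ ∞ g (InM g s b k v) := fun v hv =>
      (hN.contDiffAt_Om (p02_sub ht.subZ (hm1 v hv k le_rfl))).self_of_nhds
    have hgI : ∀ v ∈ O1, ContDiffAt ℝ ∞ (fun v => g (InM g s b k v)) v := fun v hv =>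
      (hgC v hv).comp v (hInC v hv)
    have hev : ∀ᶠ v in 𝓝 (0 : Pt), v ∈ O1 ∧ g (InM g s b k v) ∈ O2 :=
      (hO1.eventually_mem h01).and ((hgI 0 h01).continuousAt.eventually_mem (hO2.mem_nhds h02))
    obtain ⟨O, hO, h0, h3⟩ := p02_of_ev hev
    refine ⟨O, hO, h0, fun v hv => ?_, fun v hv => ?_⟩
    · obtain ⟨h4, h5⟩ := h3 v hv
      exact (((hs2.contDiffAt (hO2.mem_nhds h5))).comp v (hgI v h4)).contDiffWithinAt
    · obtain ⟨h4, h5⟩ := h3 v hv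
      have e : TT g s b k l = PlM g s l ∘ (g ∘ InM g s b k) := rfl
      have hd2 : DifferentiableAt ℝ (PlM g s l) ((g ∘ InM g s b k) v) :=
        (hs2.contDiffAt (hO2.mem_nhds h5)).differentiableAt (by simp)
      have hd1 : DifferentiableAt ℝ (g ∘ InM g s b k) v := (hgI v h4).differentiableAt (by simp)
      rw [e, jac_comp hd2 hd1, jac_comp ((hgC v h4).differentiableAt (by simp))
        ((hInC v h4).differentiableAt (by simp))]
      exact mul_pos (hj2 _ h5) (mul_pos (hN.jac_pos_Om (p02_sub ht.subZ (hm1 v h4 k le_rfl)))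
        (hj1 v h4))
  · unfold TT PlM
    rw [ht.fin, (hs.chart Sy.P).left _ (p02_a ht)]

/-- the derivatives at the tangency -/
theorem tt_deriv {g : Pt → Pt} {s : Fr} {Z : Set Pt} {m : ℕ} {b a : ℝ} {k l : ℕ}
    (hN : Near g) (hs : IsFr g s) (hm : 1 ≤ m) (ht : TD g s Z m b a k l) :
    (fderiv ℝ (TT g s b k l) 0 (0, 1)).2 = 0 ∧
    (fderiv ℝ (TT g s b k l) 0 (0, 1)).1 * (fderiv ℝ (TT g s b k l) 0 (1, 0)).2 =
      -jac (TT g s b k l) 0 ∧ 0 < jac (TT g s b k l) 0 := by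
  obtain ⟨⟨O, hO, h0, hc, hj⟩, hTT0⟩ := tt_regular hN hs ht
  have hd : DifferentiableAt ℝ (TT g s b k l) 0 :=
    (hc.contDiffAt (hO.mem_nhds h0)).differentiableAt (by simp)
  have hline : HasDerivAt (fun t : ℝ => ((0 : ℝ), t)) ((0 : ℝ), (1 : ℝ)) 0 :=
    (hasDerivAt_const (0 : ℝ) (0 : ℝ)).prodMk (hasDerivAt_id (0 : ℝ))
  have h1 : HasDerivAt (fun t : ℝ => TT g s b k l (0, t)) (fderiv ℝ (TT g s b k l) 0 (0, 1)) 0 := by
    have h := (hd.hasFDerivAt : HasFDerivAt (TT g s b k l) _ ((0 : ℝ), (0 : ℝ)))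
    exact h.comp_hasDerivAt (0 : ℝ) hline
  have h2 : HasDerivAt (fun t : ℝ => (TT g s b k l (0, t)).2)
      (fderiv ℝ (TT g s b k l) 0 (0, 1)).2 0 := h1.snd
  have h3 : HasDerivAt (fun t : ℝ => (TT g s b k l (0, t)).2) 0 0 := by
    rw [hasDerivAt_iff_isLittleO]
    have e0 : (TT g s b k l (0, (0 : ℝ))).2 = 0 := by
      have : TT g s b k l (0, (0 : ℝ)) = TT g s b k l 0 := rfl
      rw [this, hTT0]
    simp only [e0, sub_zero, smul_zero]
    refine ht.ord.trans_isLittleO ?_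
    have h4 : (fun t : ℝ => t ^ (m + 1)) =o[𝓝 0] fun t : ℝ => t ^ 1 :=
      isLittleO_pow_pow (by omega)
    simp only [pow_one] at h4
    refine IsLittleO.congr' (h4.norm_left) ?_ (Eventually.of_forall fun _ => rfl)
    exact Eventually.of_forall fun t => by simp [Real.norm_eq_abs, abs_pow]
  have h5 : (fderiv ℝ (TT g s b k l) 0 (0, 1)).2 = 0 := h2.unique h3
  refine ⟨h5, ?_, hj 0 h0⟩
  unfold jac
  rw [h5]
  ring

end Pool.Agent.Lib.H37N
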