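import Pool.Agent.Lib.H37P.P02

/-!
# H37N P03 (M): places exist

By `pl_regular` and the inverse function theorem `PlM` is a diffeomorphism from an open neighbourhood of
`g z` (`z = InM k 0`) onto an open neighbourhood of `(a,0)`, with smooth inverse `Li`. Let `D = Li '' ball (a,0) r`, `r`
small. `g z ∈ g '' Z`, and `g '' Z` is open (inverse function theorem for `g`, `Z ⊆ interior FF` open), so `closure D` is
in `g '' Z` for small `r` (compact, in `K0` because `g '' FF ⊆ K0` by `Near.fold0`). The points `g (InM i 0)`, `i < k`, are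
`≠ g z` (`g` is injective on `V_P ∪ V_Q ∪ F`, `dist`), so for small `r` they are not in the closure of `D`, and for small `B`
also `g (InM i v) ∉ D` for `v ∈ B`, `i < k`. `g (InM k v) → g z` and `TT v → (a,0)` as `v → 0`.
-/

open Set Filter Topology Asymptotics
open scoped ContDiff

namespace Pool.Agent.Lib.H37N

theorem p03_inj (A : Pt →L[ℝ] Pt)
    (h : 0 < (A (1, 0)).1 * (A (0, 1)).2 - (A (1, 0)).2 * (A (0, 1)).1) :
    Function.Bijective A := by
  have hs := a112_surj A h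
  have h1 : Function.Injective (A : Pt →ₗ[ℝ] Pt) ↔ Function.Surjective (A : Pt →ₗ[ℝ] Pt) :=
    LinearMap.injective_iff_surjective
  exact ⟨h1.2 hs, hs⟩

theorem exists_place {g : Pt → Pt} {s : Fr} {Z : Set Pt} {m : ℕ} {b a : ℝ} {k l : ℕ}
    (hN : Near g) (hs : IsFr g s) (ht : TD g s Z m b a k l) :
    ∃ (r : ℝ) (D B : Set Pt) (Li : Pt → Pt), Place g s Z b a k l r D B Li := by
  obtain ⟨O, hO, hwO, hPs, hPj, hPp, hPl⟩ := pl_regular hN hs ht
  obtain ⟨O', hO', h0O', hIs, -, hIp⟩ := in_regular hN hs ht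
  set w0 : Pt := g (InM g s b k 0) with hw0
  have hZF : Z ⊆ VV Sy.P ∪ VV Sy.Q ∪ FF := fun z hz => Or.inr (interior_subset (ht.subZ hz))
  have hOm : VO ∪ Z ⊆ Om := union_subset (fun z hz => Or.inl hz) (fun z hz => Or.inr (ht.subZ hz))
  have hgZ : IsOpen (g '' Z) := hN.image_open ht.openZ hZF
  have hw0Z : w0 ∈ g '' Z := ⟨_, ht.memZ, rfl⟩
  have haB : ((a, 0) : Pt) ∈ Bx := by
    have := abs_lt.1 ht.a_lt
    exact ⟨⟨by linarith [this.1], by linarith [this.2]⟩, by norm_num, by norm_num⟩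
  have hPw0 : PlM g s l w0 = (a, 0) := by
    show s.c Sy.P (g^[l] w0) = (a, 0)
    rw [hw0, ht.fin, (hs.chart Sy.P).left _ haB]
  have hc0 : ∀ᶠ w in 𝓝 w0, ContDiffAt ℝ ∞ (PlM g s l) w := by
    filter_upwards [hO.mem_nhds hwO] with w hw
    exact hPs.contDiffAt (hO.mem_nhds hw)
  obtain ⟨Li, hLs, hL0, hLP, hPL⟩ := inverse_fun hc0 (p03_inj _ (hPj w0 hwO))
  rw [hPw0] at hL0 hPL
  have hIc : ∀ i ≤ k, ContinuousAt (InM g s b i) 0 := fun i hi =>
    ((hIs i hi).contDiffAt (hO'.mem_nhds h0O')).continuousAt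
  have hgc : ∀ i ≤ k, ContinuousAt (fun v => g (InM g s b i v)) 0 := by
    intro i hi
    have h1 : ContinuousAt g (InM g s b i 0) :=
      (hN.contDiffAt_Om (hOm (ht.path1 i hi))).self_of_nhds.continuousAt
    exact ContinuousAt.comp (f := InM g s b i) (g := g) h1 (hIc i hi)
  -- separation
  have hsep : ∀ i < k, ∃ U : Set Pt, U ∈ 𝓝 w0 ∧ ∀ᶠ v in 𝓝 (0 : Pt), g (InM g s b i v) ∉ U := by
    intro i hi
    have hne : g (InM g s b i 0) ≠ w0 := by
      intro he
      exact ht.dist i hi (hN.injOn (Om_sub (hOm (ht.path1 i hi.le)))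
        (Om_sub (hOm (ht.path1 k le_rfl))) he)
    obtain ⟨V, U, hV, hU, hVm, hUm, hVU⟩ := t2_separation hne
    refine ⟨U, hU.mem_nhds hUm, ?_⟩
    filter_upwards [(hgc i hi.le).eventually_mem (hV.mem_nhds hVm)] with v hv hvU
    exact Set.disjoint_left.1 hVU hv hvU
  choose! U hU1 hU2 using hsep
  have hUall : ∀ᶠ w in 𝓝 w0, ∀ i ∈ Finset.range k, w ∈ U i :=
    (Finset.eventually_all (Finset.range k)).2 fun i hi => hU1 i (Finset.mem_range.1 hi)
  have hVall : ∀ᶠ v in 𝓝 (0 : Pt), ∀ i ∈ Finset.range k, g (InM g s b i v) ∉ U i :=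
    (Finset.eventually_all (Finset.range k)).2 fun i hi => hU2 i (Finset.mem_range.1 hi)
  have hall : ∀ᶠ w in 𝓝 w0, (w ∈ O ∧ w ∈ g '' Z) ∧
      (Li (PlM g s l w) = w ∧ ∀ i ∈ Finset.range k, w ∈ U i) := by
    filter_upwards [hO.mem_nhds hwO, hgZ.mem_nhds hw0Z, hLP, hUall] with w h1 h2 h3 h4
    exact ⟨⟨h1, h2⟩, h3, h4⟩
  obtain ⟨O1, hO1sub, hO1, hw01⟩ := eventually_nhds_iff.1 hall
  have hO1c : ContinuousOn (PlM g s l) O1 := fun w hw =>
    ((hPs.contDiffAt (hO.mem_nhds (hO1sub _ hw).1.1)).continuousAt).continuousWithinAt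
  have hev : ∀ᶠ v in 𝓝 ((a, 0) : Pt), PlM g s l (Li v) = v ∧ Li v ∈ O1 := by
    refine hPL.and ?_
    have h1 : ContinuousAt Li ((a, 0) : Pt) := hLs.continuous.continuousAt
    exact h1.eventually_mem (by rw [hL0]; exact hO1.mem_nhds hw01)
  obtain ⟨r1, hr1, hball⟩ := (Metric.nhds_basis_closedBall.mem_iff).1 hev
  obtain ⟨r, hr0, hrr, hra⟩ : ∃ r : ℝ, 0 < r ∧ r ≤ r1 ∧ |a| + r < 1 := by
    have ha := ht.a_lt
    refine ⟨min r1 ((1 - |a|) / 2), lt_min hr1 (by linarith), min_le_left _ _, ?_⟩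
    have := min_le_right r1 ((1 - |a|) / 2)
    linarith
  have hcb : ∀ v ∈ Metric.closedBall ((a, 0) : Pt) r, PlM g s l (Li v) = v ∧ Li v ∈ O1 :=
    fun v hv => hball (Metric.closedBall_subset_closedBall hrr hv)
  set D : Set Pt := O1 ∩ PlM g s l ⁻¹' Metric.ball ((a, 0) : Pt) r with hD
  have hDo : IsOpen D := hO1c.isOpen_inter_preimage hO1 Metric.isOpen_ball
  have hw0D : w0 ∈ D := ⟨hw01, by
    show PlM g s l w0 ∈ Metric.ball ((a, 0) : Pt) r
    rw [hPw0]
    exact Metric.mem_ball_self hr0⟩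
  have hDC : D ⊆ Li '' Metric.closedBall ((a, 0) : Pt) r := fun w hw =>
    ⟨PlM g s l w, Metric.ball_subset_closedBall hw.2, (hO1sub _ hw.1).2.1⟩
  have hCZ : Li '' Metric.closedBall ((a, 0) : Pt) r ⊆ g '' Z := by
    rintro _ ⟨v, hv, rfl⟩
    exact (hO1sub _ (hcb v hv).2).1.2
  have hPc : ContinuousAt (PlM g s l) w0 := (hc0.self_of_nhds).continuousAt
  have hTT : ∀ᶠ v in 𝓝 (0 : Pt), TT g s b k l v ∈ Metric.ball ((a, 0) : Pt) (r / 2) := by
    have h1 : ContinuousAt (fun v => PlM g s l (g (InM g s b k v))) 0 :=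
      ContinuousAt.comp (f := fun v => g (InM g s b k v)) (g := PlM g s l) hPc (hgc k le_rfl)
    have h2 : PlM g s l (g (InM g s b k 0)) = (a, 0) := hPw0
    refine h1.eventually_mem ?_
    rw [h2]
    exact Metric.ball_mem_nhds _ (half_pos hr0)
  have hbox : ∀ᶠ v in 𝓝 (0 : Pt), |v.1| < 1 ∧ |b + v.2| < 1 := by
    have h1 : Continuous fun v : Pt => |v.1| := by fun_prop
    have h2 : Continuous fun v : Pt => |b + v.2| := by fun_prop
    refine (h1.continuousAt.eventually_lt continuousAt_const (by simp)).and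
      (h2.continuousAt.eventually_lt continuousAt_const ?_)
    show |b + 0| < 1
    rw [add_zero]
    exact ht.b_lt
  refine ⟨r, D, {v | (|v.1| < 1 ∧ |b + v.2| < 1) ∧ (∀ i ≤ k, InM g s b i v ∈ VO ∪ Z) ∧
    (∀ i < k, g (InM g s b i v) ∉ D) ∧ g (InM g s b k v) ∈ D ∧
    TT g s b k l v ∈ Metric.ball ((a, 0) : Pt) (r / 2)}, Li, ?_⟩
  refine
    { r_pos := hr0
      r_lt := hra
      openD := hDo
      subD := hDC.trans hCZ
      compD := ⟨Li '' Metric.closedBall ((a, 0) : Pt) r,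
        (isCompact_closedBall _ _).image hLs.continuous, hDC, ?_, hCZ⟩
      Pl_mem := fun w hw => hw.2
      Li_Pl := fun w hw => (hO1sub _ hw.1).2.1
      Li_mem := fun v hv => ⟨(hcb v (Metric.ball_subset_closedBall hv)).2, by
        show PlM g s l (Li v) ∈ Metric.ball ((a, 0) : Pt) r
        rw [(hcb v (Metric.ball_subset_closedBall hv)).1]
        exact hv⟩
      Pl_Li := fun v hv => (hcb v (Metric.ball_subset_closedBall hv)).1
      smLi := hLs.contDiffOn
      smPl := hPs.mono fun w hw => (hO1sub _ hw.1).1.1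
      path := fun w hw i hi => hPp w (hO1sub _ hw.1).1.1 i hi
      land := fun w hw => (hPl w (hO1sub _ hw.1).1.1).1
      nhB := ?_
      boxB := fun v hv => hv.1
      pathB := fun v hv => hv.2.1
      notD := fun v hv => hv.2.2.1
      inD := fun v hv => hv.2.2.2.1
      TB := fun v hv => hv.2.2.2.2 }
  · intro w hw
    obtain ⟨z, hz, rfl⟩ := hCZ hw
    obtain ⟨h1, h2⟩ := fold_image hN (interior_subset (ht.subZ hz))
    exact ⟨⟨by linarith [h1.1], by linarith [h1.2]⟩, by linarith [h2.1], by linarith [h2.2]⟩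
  · have h3 : ∀ᶠ v in 𝓝 (0 : Pt), ∀ i ≤ k, InM g s b i v ∈ VO ∪ Z := by
      filter_upwards [hO'.mem_nhds h0O'] with v hv
      exact hIp v hv
    have h4 : ∀ᶠ v in 𝓝 (0 : Pt), g (InM g s b k v) ∈ D :=
      (hgc k le_rfl).eventually_mem (hDo.mem_nhds hw0D)
    filter_upwards [hbox, h3, hVall, h4, hTT] with v a1 a2 a3 a4 a5
    refine ⟨a1, a2, fun i hi hiD => ?_, a4, a5⟩
    exact a3 i (Finset.mem_range.2 hi) ((hO1sub _ hiD.1).2.2 i (Finset.mem_range.2 hi))

end Pool.Agent.Lib.H37N
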