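import Pool.Agent.Lib.H37P.Z27
import Pool.Agent.Lib.H37P.P06
import Pool.Agent.Lib.H37N.T10a

/-!
# H37N Z28 (M): the spot

`e = R + 1`. `realize` gives `ψ, K, Y, S, V0, ...`; `S N V0 = V0` (the `O`-estimate at `V0`). `Ret = Y ∘ S N ∘ Yi` near `v0 = Y V0`: smooth,
`Ret v - v = O(|v - v0|^(R+2))`, so its derivative at `v0` is the identity, it has a smooth local inverse `Gh`, `Gh v - v =
O(|v - v0|^(R+2))`. `Place.flat` with `O` from `realize` gives `χ ∈ Small R ε1`, `ε1` from `PertOpen` for `ψ ∘ g`: `χ ∘ ψ ∘ g ∈ U`, and `χ` acts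
trivially on `Y (W j)`, `0 < j < N`. Then for `V` near `V0`: `((χ∘ψ)∘g)^[N K] (κP (Y V)) = κP (Gh (Y (S N V))) = κP (Y V)`. The set
`{κP (Y V)}`, `V` near `V0`, is open (`κP` is open on `Bx`). The orbits are in `VO ∪ Z ⊆ Om`.
-/

open Set Filter Topology Asymptotics
open scoped ContDiff

namespace Pool.Agent.Lib.H37N

/-- the return map in the new coordinates is flat -/
theorem z28_ret {Y Yi S : Pt → Pt} {V0 : Pt} {m : ℕ} (hY : ContDiff ℝ ∞ Y) (hYi : ContDiff ℝ ∞ Yi)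
    (h1 : ∀ V, Yi (Y V) = V) (h2 : ∀ v, Y (Yi v) = v) (hS : ContDiff ℝ ∞ S) (hS0 : S V0 = V0)
    (hO : (fun V : Pt => S V - V) =O[𝓝 V0] (fun V => ‖V - V0‖ ^ m)) :
    (fun v : Pt => Y (S (Yi v)) - v) =O[𝓝 (Y V0)] (fun v => ‖v - Y V0‖ ^ m) := by
  have hYs : HasStrictFDerivAt Y (fderiv ℝ Y V0) V0 :=
    hY.contDiffAt.hasStrictFDerivAt (by simp)
  have hYis : HasStrictFDerivAt Yi (fderiv ℝ Yi (Y V0)) (Y V0) :=
    hYi.contDiffAt.hasStrictFDerivAt (by simp)
  have hA : (fun V : Pt => Y (S V) - Y V) =O[𝓝 V0] (fun V => S V - V) := by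
    have ht : Tendsto (fun V : Pt => (S V, V)) (𝓝 V0) (𝓝 (V0, V0)) := by
      have := (hS.continuous.prodMk continuous_id).tendsto V0
      simpa only [id, hS0] using this
    exact hYs.isBigO_sub.comp_tendsto ht
  have hB : (fun V : Pt => Y (S V) - Y V) =O[𝓝 V0] (fun V => ‖V - V0‖ ^ m) := hA.trans hO
  have ht2 : Tendsto Yi (𝓝 (Y V0)) (𝓝 V0) := by
    have := hYi.continuous.tendsto (Y V0)
    rwa [h1] at this
  have hC : (fun v : Pt => Y (S (Yi v)) - v) =O[𝓝 (Y V0)] (fun v => ‖Yi v - V0‖ ^ m) := by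
    have := hB.comp_tendsto ht2
    refine this.congr_left fun v => ?_
    simp only [Function.comp_apply, h2]
  have hD : (fun v : Pt => Yi v - V0) =O[𝓝 (Y V0)] (fun v => v - Y V0) := by
    have := hYis.hasFDerivAt.isBigO_sub
    simpa only [h1] using this
  exact hC.trans ((hD.norm_norm).pow m)

/-- a flat map has a flat inverse -/
theorem z28_inv {F : Pt → Pt} {v0 : Pt} {m : ℕ} (hm : 1 < m) (hF : ContDiff ℝ ∞ F) (h0 : F v0 = v0)
    (hO : (fun v : Pt => F v - v) =O[𝓝 v0] (fun v => ‖v - v0‖ ^ m)) :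
    ∃ G : Pt → Pt, ContDiff ℝ ∞ G ∧ (∀ᶠ v in 𝓝 v0, G (F v) = v) ∧
      (fun v => G v - v) =O[𝓝 v0] fun v => ‖v - v0‖ ^ m := by
  have hd : HasFDerivAt F (ContinuousLinearMap.id ℝ Pt) v0 := by
    have h1 : HasFDerivAt (fun v => F v - v) (0 : Pt →L[ℝ] Pt) v0 := hO.hasFDerivAt hm
    have h2 := h1.add (hasFDerivAt_id (𝕜 := ℝ) v0)
    rw [zero_add] at h2
    refine h2.congr_of_eventuallyEq (Eventually.of_forall fun v => ?_)
    simp
  have hb : Function.Bijective (fderiv ℝ F v0) := by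
    rw [hd.fderiv]
    exact Function.bijective_id
  obtain ⟨G, hG, hG0, hG1, hG2⟩ := inverse_fun (Eventually.of_forall fun x => hF.contDiffAt) hb
  rw [h0] at hG0 hG2
  refine ⟨G, hG, hG1, ?_⟩
  have ht : Tendsto G (𝓝 v0) (𝓝 v0) := by
    have := hG.continuous.tendsto v0
    rwa [hG0] at this
  have hA : (fun v : Pt => F (G v) - G v) =O[𝓝 v0] (fun v => ‖G v - v0‖ ^ m) := hO.comp_tendsto ht
  have hB : (fun v : Pt => G v - v) =O[𝓝 v0] (fun v => ‖G v - v0‖ ^ m) := by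
    have h1 : (fun v : Pt => G v - v) =ᶠ[𝓝 v0] fun v => -(F (G v) - G v) := by
      filter_upwards [hG2] with v hv
      rw [hv]
      abel
    exact h1.trans_isBigO hA.neg_left
  have hC : (fun v : Pt => G v - v0) =O[𝓝 v0] (fun v => v - v0) := by
    have := (hG.differentiable (by simp) v0).hasFDerivAt.isBigO_sub
    simpa only [hG0] using this
  exact hB.trans ((hC.norm_norm).pow m)

theorem spot_of_flat {R : ℕ} {U : Set (Pt → Pt)} (hU : PertOpen R U)
    {g : Pt → Pt} (hg : g ∈ U) {s : Fr} {Z : Set Pt}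
    {b a : ℝ} {k l : ℕ} {r : ℝ} {D B : Set Pt} {Li : Pt → Pt} (hN : Near g) (hs : IsFr g s)
    (hZ : Z ⊆ interior FF) (hb : |b| < 1) (hp : Place g s Z b a k l r D B Li)
    {A Nn : Pt → ℝ} {Mh : ℝ × Pt → ℝ} {rF : ℝ} (hF : Flat g s b a k l A Nn Mh rF)
    (hne : deriv (fun U => Real.log (hG A Mh U)) 0 ≠ 0) : ∃ g' ∈ U, LocalSpot g' := by
  obtain ⟨ψ, K, Y, S, V0, W, hψU, hψ, hK, ⟨Yi, hY, hYi, hYY, hYY'⟩, hS, hS0, hball, hb1, hb2, hO, hWo, hVW,
    hSW, ⟨O, hOn, hOd⟩, hmain⟩ := realize (e := R + 1) (by omega) hU hg hN hs hZ hb hp hF hne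
  set N := nb (R + 1) with hNdef
  have hNpos : 0 < N := by
    rw [hNdef]
    unfold nb
    omega
  have hSN : S N V0 = V0 := by
    obtain ⟨c, hc⟩ := hO.bound
    have := hc.self_of_nhds
    simp only [sub_self, norm_zero] at this
    rw [zero_pow (by omega), norm_zero, mul_zero] at this
    exact sub_eq_zero.1 (norm_le_zero_iff.1 this)
  rw [hSN] at hball
  have hret := z28_ret hY hYi hYY hYY' (hS N) hSN hO
  have hFsm : ContDiff ℝ ∞ (fun v => Y (S N (Yi v))) := hY.comp ((hS N).comp hYi)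
  have hF0 : (fun v => Y (S N (Yi v))) (Y V0) = Y V0 := by
    simp only [hYY, hSN]
  obtain ⟨Gh, hGh, hGh1, hGh2⟩ := z28_inv (by omega) hFsm hF0 hret
  obtain ⟨ε1, hε1, hpert⟩ := hU (ψ ∘ g) hψU
  obtain ⟨χ, hχs, hχA, hχ1, hχ2⟩ := hp.flat hball isOpen_univ (mem_univ _) hGh.contDiffOn hGh2 hε1 hOn
  have hev := hmain χ hχA (by
    rintro v hv j hj0 hjN ⟨V, hV, rfl⟩
    exact hχ2 _ hv (hOd j hj0 hjN V hV))
  have hmem : χ ∘ (ψ ∘ g) ∈ U := hpert χ hχs
  set G : Pt → Pt := (χ ∘ ψ) ∘ g with hG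
  refine ⟨G, hmem, ?_⟩
  have hYt : Tendsto Y (𝓝 V0) (𝓝 (Y V0)) := hY.continuous.tendsto V0
  have hYSt : Tendsto (fun V => Y (S N V)) (𝓝 V0) (𝓝 (Y V0)) := by
    have h4 : Continuous (fun V => Y (S N V)) := hY.continuous.comp (hS N).continuous
    have h5 := h4.tendsto V0
    simp only [hSN] at h5
    exact h5
  obtain ⟨𝒱, h𝒱, h𝒱o, h𝒱0⟩ := eventually_nhds_iff.1
    (hev.and ((hYt.eventually hGh1).and (hYSt.eventually hχ1)))
  have hL := hs.chart Sy.P
  refine ⟨N * K, Nat.mul_pos hNpos hK, s.κ Sy.P '' Bx ∩ s.c Sy.P ⁻¹' (Yi ⁻¹' 𝒱), ?_, ?_, ?_⟩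
  · exact hL.isOpen.inter ((h𝒱o.preimage hYi.continuous).preimage hL.smooth_c.continuous)
  · have hYB : Y V0 ∈ Bx := b10_mem_Bx.2 ⟨by linarith, by linarith⟩
    refine ⟨s.κ Sy.P (Y V0), mem_image_of_mem _ hYB, ?_⟩
    show Yi (s.c Sy.P (s.κ Sy.P (Y V0))) ∈ 𝒱
    rw [hL.left _ hYB, hYY]
    exact h𝒱0
  · rintro w ⟨hw, hwV⟩
    have hwV' : Yi (s.c Sy.P w) ∈ 𝒱 := hwV
    obtain ⟨hw1, -⟩ := hL.right hw
    obtain ⟨⟨hst, hlast, horb⟩, hG1, hχ⟩ := h𝒱 _ hwV'
    set V := Yi (s.c Sy.P w) with hVdef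
    have hwV0 : w = s.κ Sy.P (Y V) := by
      rw [hVdef, hYY', hw1]
    have hiter : ∀ j, j < N → G^[j * K] w = s.κ Sy.P (Y (S j V)) := by
      intro j
      induction j with
      | zero =>
        intro _
        rw [zero_mul, Function.iterate_zero, hS0]
        exact hwV0
      | succ j ih =>
        intro hj
        rw [Nat.succ_mul, Nat.add_comm, Function.iterate_add_apply, ih (by omega), hst j hj]
    constructor
    · intro i hi
      have hdiv : i / K < N := Nat.div_lt_of_lt_mul (by rwa [Nat.mul_comm] at hi)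
      have hmod : i % K < K := Nat.mod_lt _ hK
      have he : i = i % K + i / K * K := by
        rw [Nat.mul_comm, Nat.mod_add_div]
      rw [he, Function.iterate_add_apply, hiter _ hdiv]
      rcases horb (i / K) hdiv (i % K) hmod.le with h | h
      · exact Or.inl h
      · exact Or.inr (hZ h)
    · have he : N * K = K + (N - 1) * K := by
        obtain ⟨N', hN'⟩ : ∃ N', N = N' + 1 := ⟨N - 1, by omega⟩
        rw [hN', Nat.add_sub_cancel]
        ring
      rw [he, Function.iterate_add_apply, hiter _ (by omega), hlast, hχ]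
      have h3 : Gh (Y (S N V)) = Y V := by
        have := hG1
        simp only [hYY] at this
        exact this
      rw [h3, ← hwV0]

end Pool.Agent.Lib.H37N
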