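import Pool.Agent.Lib.H37P.PDefs
import Pool.Agent.Lib.H37N.I1b
import Pool.Agent.Lib.H37N.I1d

/-!
# H37N P10 (S): density and the parameters tend to their limits (from `density_seq`, I1b, `IsFr.toRates`, I1d)

`A = - log(λ_P μ_P) > 0`, `C = log(λ_Q μ_Q) > 0`, `A/C` irrational (`IsFr.irr`). For `β > 0` there are `n_j, m_j → ∞` with
`m_j C - n_j A → log β`: the set `{m C - n A : n, m ≥ k}` is dense in `ℝ` for every `k` (e.g. the multiples of `A/C` are dense
modulo `1`: `AddSubgroup.dense_or_cyclic`, or Dirichlet approximation). Then, with `β = B0/d_S`, `B → B0`. The others: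
`ε1 = λ_P^n → 0`, `ε2 = 1/(d_S μ_Q^m) → 0`, `E → ∞`, `ξ⁰ = λ_Q^m sS → 0`, `1/μ_P^n → 0` are clear;
`ε4 = μ_P^n λ_Q^m = exp(n log μ_P + m log λ_Q)`, `n A = m C - log β + o(1)`, so `n log μ_P + m log λ_Q = m (log λ_Q + (C/A) log μ_P) + O(1) → -∞` as
`log λ_Q + (C/A) log μ_P < 0`: `λ_Q < .51`, `μ_P < 1.26`, `C ≤ log(.51*5.05)`, `A ≥ - log(.51*1.26)`. Numerically: `log .51 < -.673`,
`log 1.26 < .2312`, `C < .947`, `A > .4421`; the sum is `< -.673 + 2.143*.2312 < -.17`. (This is `IsFr.R1`, B20. Otherwise: prove the inequality in the form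
`A log λ_Q + C log μ_P < 0` with rational bounds for logarithms: e.g. from `λ_Q ≤ 0.51`: `(0.51)^a (1.26)^c < 1`, powers.)
-/

open Set Filter Topology Asymptotics
open scoped ContDiff

namespace Pool.Agent.Lib.H37N

theorem exists_nm {g : Pt → Pt} {s : Fr} (hs : IsFr g s) {B0 : ℝ} (hB : 0 < B0) :
    ∃ n m : ℕ → ℕ, Tendsto n atTop atTop ∧ Tendsto m atTop atTop ∧
      Tendsto (fun j => BB g s (n j) (m j)) atTop (𝓝 B0) ∧
      Tendsto (fun j => e1 s (n j)) atTop (𝓝 0) ∧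
      Tendsto (fun j => e2 g s (m j)) atTop (𝓝 0) ∧
      Tendsto (fun j => e4 s (n j) (m j)) atTop (𝓝 0) ∧
      Tendsto (fun j => xi0 s (m j)) atTop (𝓝 0) ∧
      Tendsto (fun j => EE g s (n j) (m j)) atTop atTop ∧
      Tendsto (fun j => s.mu Sy.P ^ (n j)) atTop atTop := by
  have hr := hs.toRates
  have hd : 0 < dS g s := hs.sdata.d_pos
  obtain ⟨n, m, hn, hm, h1, h2⟩ := density_seq hr hd hB
  have hP : Tendsto (fun j => s.mu Sy.P ^ (n j)) atTop atTop :=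
    (tendsto_pow_atTop_atTop_of_one_lt hr.mP_gt).comp hn
  have hQ : Tendsto (fun j => s.mu Sy.Q ^ (m j)) atTop atTop :=
    (tendsto_pow_atTop_atTop_of_one_lt hr.mQ_gt).comp hm
  refine ⟨n, m, hn, hm, h1, ?_, ?_, h2, ?_, ?_, hP⟩
  · exact (tendsto_pow_atTop_nhds_zero_of_lt_one hr.lP_pos.le hr.lP_lt).comp hn
  · have h3 : Tendsto (fun j => dS g s * s.mu Sy.Q ^ (m j)) atTop atTop :=
      hQ.const_mul_atTop hd
    have h4 := h3.inv_tendsto_atTop
    refine h4.congr fun j => ?_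
    simp only [Pi.inv_apply, e2, one_div]
  · have h3 : Tendsto (fun j => s.lam Sy.Q ^ (m j)) atTop (𝓝 0) :=
      (tendsto_pow_atTop_nhds_zero_of_lt_one hr.lQ_pos.le hr.lQ_lt).comp hm
    have h4 := h3.mul_const s.sS
    rw [zero_mul] at h4
    exact h4
  · exact (hP.const_mul_atTop hd).atTop_mul_atTop₀ hQ

end Pool.Agent.Lib.H37N
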