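import Pool.Agent.Lib.H37P.P07
import Pool.Agent.Lib.H37N.I0a

/-!
# H37N P08 (S): the functions of the pass (from `exists_passFn`, I0a)

`SS` is smooth near `0`, `SS 0 = (sS,0)`, `∂_τ SS_2 (0) = d_S > 0`. `Th` = the implicit function (`SS_2(σ,Th σ) = 0`, `Th 0 = 0`), extended to a
global smooth function (T3, T10). Then `F(σ,t) = SS_2(σ,Th σ + t)` vanishes for `t = 0`, so `F = t G(σ,t)` (T2, after
localisation), `G(0,0) = d_S`, `W = G/d_S`. `SS_1(σ,Th σ + t) - SS_1(σ,Th σ) = t Y2(σ,t)`, `SS_1(σ,Th σ) - sS = σ Y1(σ)`,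
`Y1(0) = ∂_σ SS_1 - ∂_τ SS_1 ∂_σ SS_2 / d_S = jac (SS) 0 / d_S` (`Th'(0) = - ∂_σ SS_2/d_S`).
-/

open Set Filter Topology Asymptotics
open scoped ContDiff

namespace Pool.Agent.Lib.H37N

theorem exists_PF {g : Pt → Pt} {s : Fr} (hN : Near g) (hs : IsFr g s) :
    ∃ (f : PF) (r : ℝ), IsPF g s f r := by
  have hSS : SS g s = SM g (s.κ Sy.P) (s.c Sy.Q) s.kS s.uS := rfl
  obtain ⟨Th, W, Y1, Y2, h⟩ := exists_passFn (S := SS g s) (sS := s.sS) (dS := dS g s)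
    hs.sdata.smooth hs.sdata.S0 rfl hs.sdata.d_pos.ne'
  obtain ⟨r, hr, hb⟩ := Metric.eventually_nhds_iff_ball.1 (h.eq1.and h.eq2)
  have hmem : ∀ σ t : ℝ, |σ| < r → |t| < r → ((σ, t) : Pt) ∈ Metric.ball (0 : Pt) r := by
    intro σ t h1 h2
    rw [mem_ball_zero_iff, Prod.norm_def, max_lt_iff, Real.norm_eq_abs, Real.norm_eq_abs]
    exact ⟨h1, h2⟩
  refine ⟨⟨Th, Y1, W, Y2⟩, r, ⟨hr, h.smooth_Th, h.smooth_Y1, h.smooth_W, h.smooth_Y2, h.Th0, h.W0,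
    h.Y10, ?_, ?_⟩⟩
  · intro σ t h1 h2
    exact (hb _ (hmem σ t h1 h2)).2
  · intro σ t h1 h2
    exact (hb _ (hmem σ t h1 h2)).1


end Pool.Agent.Lib.H37N
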