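import Pool.Agent.Lib.H37P.P08

/-!
# H37N P09 (M): the pass in the coordinates `X, U`

`y = yF = (U+b)/E + (uS + Th(ε1 X))/μ_P^n`: `μ_P^n y - uS = Th(ε1 X) + ε2 (U+b)`, `ε2 = 1/(d_S μ_Q^m)`, so with `σ = ε1 X`,
`t = ε2 (U+b)`: `SS_2 = d_S t W(σ,t)`, `μ_Q^m SS_2 = (U+b) W(σ,t) = b + etaF`, `SS_1 = sS + ε1 X Y1 + ε2 (U+b) Y2`,
`λ_Q^m SS_1 = ξ⁰ + E⁻¹ XiF` because `E λ_Q^m ε1 = B`, `E λ_Q^m ε2 = ε4`. The conditions of `pass_raw` hold if `|ε1|, |ε2| < δ`: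
`|ε1 X| < r`, `|Th(ε1 X) + ε2 (U+b)| < r`, `|(U+b) W| < 2` (`|U+b| ≤ 1`, `W` near `1`). `XiF`, `etaF` as in `PDefs`.
-/

open Set Filter Topology Asymptotics
open scoped ContDiff

namespace Pool.Agent.Lib.H37N

theorem p09_mu_pos {g : Pt → Pt} {s : Fr} (hs : IsFr g s) (i : Sy) : 0 < s.mu i :=
  lt_trans one_pos (i0b_mu_gt (hs.chart i).mu_mem)

theorem pass_XU {g : Pt → Pt} {s : Fr} (hN : Near g) (hs : IsFr g s) {f : PF} {r : ℝ}
    (hf : IsPF g s f r) :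
    ∃ δ > 0, ∀ (n m : ℕ) (b X U : ℝ), |e1 s n| < δ → |e2 g s m| < δ → |X| ≤ 1 → |U + b| ≤ 1 →
      g^[n + s.kS + m] (s.κ Sy.P (X, yF s f b (EE g s n m) (s.mu Sy.P ^ n) (e1 s n) X U)) =
        s.κ Sy.Q (xi0 s m + (EE g s n m)⁻¹ * XiF f b (e1 s n) (e2 g s m) (e4 s n m) (BB g s n m) X U,
          b + etaF f b (e1 s n) (e2 g s m) X U) ∧
      ∀ i ≤ n + s.kS + m,
        g^[i] (s.κ Sy.P (X, yF s f b (EE g s n m) (s.mu Sy.P ^ n) (e1 s n) X U)) ∈ VO := by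
  obtain ⟨r', hr', -, -, hraw⟩ := pass_raw hN hs
  have hP := p09_mu_pos hs Sy.P
  have hQ := p09_mu_pos hs Sy.Q
  have hd : 0 < dS g s := hs.sdata.d_pos
  -- continuity
  have hcTh : ∀ᶠ σ : ℝ in 𝓝 0, |f.Th σ| < r' / 2 := by
    have h1 : Tendsto f.Th (𝓝 0) (𝓝 0) := by
      have := hf.smTh.continuous.tendsto 0
      rwa [hf.Th0] at this
    have h2 := h1.eventually (Metric.ball_mem_nhds (0 : ℝ) (half_pos hr'))
    filter_upwards [h2] with σ hσ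
    rwa [dist_zero_right, Real.norm_eq_abs] at hσ
  have hcW : ∀ᶠ v : Pt in 𝓝 0, |f.W v| < 2 := by
    have h1 : Tendsto f.W (𝓝 0) (𝓝 1) := by
      have h0 := hf.smW.continuous.tendsto (0 : Pt)
      have h2 : f.W (0 : Pt) = 1 := hf.W0
      rwa [h2] at h0
    have h2 := h1.eventually (Metric.ball_mem_nhds (1 : ℝ) one_pos)
    filter_upwards [h2] with v hv
    rw [Real.dist_eq] at hv
    have h3 := abs_lt.1 hv
    rw [abs_lt]
    constructor <;> linarith [h3.1, h3.2]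
  obtain ⟨δ1, hδ1, h1⟩ := Metric.eventually_nhds_iff_ball.1 hcTh
  obtain ⟨δ2, hδ2, h2⟩ := Metric.eventually_nhds_iff_ball.1 hcW
  have hpos : 0 < min (min r (r' / 2)) (min δ1 δ2) :=
    lt_min (lt_min hf.r_pos (half_pos hr')) (lt_min hδ1 hδ2)
  refine ⟨min (min r (r' / 2)) (min δ1 δ2), hpos, ?_⟩
  intro n m b X U he1 he2 hX hU
  set σ := e1 s n * X with hσ
  set t := e2 g s m * (U + b) with ht
  have hσ' : |σ| < min (min r (r' / 2)) (min δ1 δ2) := by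
    rw [hσ, abs_mul]
    calc |e1 s n| * |X| ≤ |e1 s n| * 1 := mul_le_mul_of_nonneg_left hX (abs_nonneg _)
      _ < _ := by rw [mul_one]; exact he1
  have ht' : |t| < min (min r (r' / 2)) (min δ1 δ2) := by
    rw [ht, abs_mul]
    calc |e2 g s m| * |U + b| ≤ |e2 g s m| * 1 := mul_le_mul_of_nonneg_left hU (abs_nonneg _)
      _ < _ := by rw [mul_one]; exact he2
  have l1 : min (min r (r' / 2)) (min δ1 δ2) ≤ r := (min_le_left _ _).trans (min_le_left _ _)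
  have l2 : min (min r (r' / 2)) (min δ1 δ2) ≤ r' / 2 := (min_le_left _ _).trans (min_le_right _ _)
  have l3 : min (min r (r' / 2)) (min δ1 δ2) ≤ δ1 := (min_le_right _ _).trans (min_le_left _ _)
  have l4 : min (min r (r' / 2)) (min δ1 δ2) ≤ δ2 := (min_le_right _ _).trans (min_le_right _ _)
  have hTh : |f.Th σ| < r' / 2 := by
    apply h1
    rw [mem_ball_zero_iff, Real.norm_eq_abs]
    exact lt_of_lt_of_le hσ' l3
  have hW : |f.W (σ, t)| < 2 := by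
    apply h2
    rw [mem_ball_zero_iff, Prod.norm_def, max_lt_iff, Real.norm_eq_abs, Real.norm_eq_abs]
    exact ⟨lt_of_lt_of_le hσ' l4, lt_of_lt_of_le ht' l4⟩
  have hmuP : s.mu Sy.P ^ n ≠ 0 := (pow_pos hP n).ne'
  have hmuQ : s.mu Sy.Q ^ m ≠ 0 := (pow_pos hQ m).ne'
  have hy : s.mu Sy.P ^ n * yF s f b (EE g s n m) (s.mu Sy.P ^ n) (e1 s n) X U - s.uS =
      f.Th σ + t := by
    rw [yF, EE, ht, e2, ← hσ]
    field_simp
    ring
  have hlam : s.lam Sy.P ^ n * X = σ := rfl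
  have hsnd := hf.snd σ t (lt_of_lt_of_le hσ' l1) (lt_of_lt_of_le ht' l1)
  have hfst := hf.fst σ t (lt_of_lt_of_le hσ' l1) (lt_of_lt_of_le ht' l1)
  have hS2 : s.mu Sy.Q ^ m * (SS g s (σ, f.Th σ + t)).2 = (U + b) * f.W (σ, t) := by
    rw [hsnd]
    have h3 : s.mu Sy.Q ^ m * (dS g s * t) = U + b := by
      rw [ht, e2]
      field_simp
    calc s.mu Sy.Q ^ m * (dS g s * t * f.W (σ, t)) =
        (s.mu Sy.Q ^ m * (dS g s * t)) * f.W (σ, t) := by ring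
      _ = _ := by rw [h3]
  have hraw' := hraw n m X (yF s f b (EE g s n m) (s.mu Sy.P ^ n) (e1 s n) X U) hX
    (by
      rw [hlam]
      have := lt_of_lt_of_le hσ' l2
      linarith)
    (by
      rw [hy]
      have h3 := lt_of_lt_of_le ht' l2
      have h4 := abs_add_le (f.Th σ) t
      linarith)
    (by
      rw [hy, hlam, hS2, abs_mul]
      have h3 : |U + b| * |f.W (σ, t)| ≤ 1 * |f.W (σ, t)| :=
        mul_le_mul_of_nonneg_right hU (abs_nonneg _)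
      linarith)
  rw [hy, hlam, hS2] at hraw'
  refine ⟨?_, hraw'.2⟩
  rw [hraw'.1, hfst]
  congr 1
  ext
  · simp only
    rw [xi0, XiF, BB, e4, EE, ← hσ]
    have e5 : t = e2 g s m * (U + b) := rfl
    have e6 : σ = s.lam Sy.P ^ n * X := rfl
    rw [← e5]
    have h5 : s.lam Sy.Q ^ m * (s.sS + σ * f.Y1 σ + t * f.Y2 (σ, t)) =
        s.lam Sy.Q ^ m * s.sS + (s.lam Sy.Q ^ m * σ) * f.Y1 σ +
          (s.lam Sy.Q ^ m * t) * f.Y2 (σ, t) := by ring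
    rw [h5]
    have h6 : (dS g s * s.mu Sy.P ^ n * s.mu Sy.Q ^ m)⁻¹ *
        (dS g s * (s.lam Sy.P * s.mu Sy.P) ^ n * (s.lam Sy.Q * s.mu Sy.Q) ^ m * X * f.Y1 σ +
          s.mu Sy.P ^ n * s.lam Sy.Q ^ m * (U + b) * f.Y2 (σ, t)) =
        (s.lam Sy.Q ^ m * σ) * f.Y1 σ + (s.lam Sy.Q ^ m * t) * f.Y2 (σ, t) := by
      rw [mul_pow, mul_pow]
      have h7 : s.lam Sy.Q ^ m * t = s.lam Sy.Q ^ m * ((U + b) / (dS g s * s.mu Sy.Q ^ m)) := by
        rw [e5, e2]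
        ring
      rw [h7, e6]
      generalize f.Y1 _ = y1
      generalize f.Y2 _ = y2
      field_simp
    rw [h6]
    ring
  · simp only
    rw [etaF, ← hσ]
    have e5 : t = e2 g s m * (U + b) := rfl
    rw [← e5]
    ring


end Pool.Agent.Lib.H37N
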