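import Pool.Agent.Lib.H37N.C01
import Pool.Agent.Lib.H37N.A112
import Pool.Agent.Lib.H37N.B19

/-!
# H37N P04 (S/M): the orbits after an admissible perturbation

`g' = ψ ∘ g`, `Adm D ψ`. `g' z = g z` unless `g z ∈ D ⊆ g '' Z`; `g` is injective on `V_P ∪ V_Q ∪ F` (`Near g`) and `Z ⊆ interior FF`, so
`g z ∈ D`, `z ∈ V_P ∪ V_Q ∪ F` implies `z ∈ Z`. So `EqOff Z g g'`. In particular `g' = g` on `V_P ∪ V_Q`
(disjoint from `F`). The orbit of `κQ (v.1, b + v.2)`, `v ∈ B`: up to time `k` it is not changed (`notD`), then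
`g' (InM k v) = ψ (g (InM k v)) ∈ D`, then the path of a point of `D` is in `VO`, where `g' = g`.
-/

open Set Filter Topology Asymptotics
open scoped ContDiff

namespace Pool.Agent.Lib.H37N

variable {g : Pt → Pt} {s : Fr} {Z : Set Pt} {b a : ℝ} {k l : ℕ} {r : ℝ} {D B : Set Pt}
  {Li : Pt → Pt}

theorem Place.eqOff (hN : Near g) (hZ : Z ⊆ interior FF) (hp : Place g s Z b a k l r D B Li)
    {ψ : Pt → Pt} (hψ : Adm D ψ) : EqOff Z g (ψ ∘ g) := by
  intro z hz hzZ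
  show ψ (g z) = g z
  by_cases h : g z ∈ D
  · exfalso
    obtain ⟨z', hz', h1⟩ := hp.subD h
    have hz'F : z' ∈ VV Sy.P ∪ VV Sy.Q ∪ FF := Or.inr (interior_subset (hZ hz'))
    have h2 : z' = z := hN.injOn hz'F hz h1
    exact hzZ (h2 ▸ hz')
  · exact hψ.1 _ h


theorem Place.eqV (hN : Near g) (hZ : Z ⊆ interior FF) (hp : Place g s Z b a k l r D B Li)
    {ψ : Pt → Pt} (hψ : Adm D ψ) : ∀ z ∈ VV Sy.P ∪ VV Sy.Q, (ψ ∘ g) z = g z := by
  intro z hz
  refine hp.eqOff hN hZ hψ z (Or.inl hz) fun h => ?_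
  exact Set.disjoint_left.1 VV_FF_disjoint hz (interior_subset (hZ h))


theorem Place.iter_in (hN : Near g) (hp : Place g s Z b a k l r D B Li)
    {ψ : Pt → Pt} (hψ : Adm D ψ) {v : Pt} (hv : v ∈ B) :
    ∀ i ≤ k, InM (ψ ∘ g) s b i v = InM g s b i v := by
  intro i
  induction i with
  | zero => intro _; rfl
  | succ i ih =>
    intro hi
    have h1 : InM (ψ ∘ g) s b (i + 1) v = (ψ ∘ g) (InM (ψ ∘ g) s b i v) :=
      Function.iterate_succ_apply' _ _ _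
    have h2 : InM g s b (i + 1) v = g (InM g s b i v) := Function.iterate_succ_apply' _ _ _
    rw [h1, h2, ih (by omega)]
    exact hψ.1 _ (hp.notD v hv i (by omega))


theorem Place.iter_D (hN : Near g) (hZ : Z ⊆ interior FF) (hp : Place g s Z b a k l r D B Li)
    {ψ : Pt → Pt} (hψ : Adm D ψ) {w : Pt} (hw : w ∈ D) :
    ∀ i ≤ l, (ψ ∘ g)^[i] w = g^[i] w := by
  have h1 : ∀ z ∈ VO, (ψ ∘ g) z = g z := fun z hz =>
    hp.eqV hN hZ hψ z (Or.imp (fun h => interior_subset h) (fun h => interior_subset h) hz)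
  exact iterate_eq_of_VO h1 (fun j hj => hp.path w hw j hj.le)


/-- the transition after the perturbation, and where it passes -/
theorem Place.transition (hN : Near g) (hZ : Z ⊆ interior FF)
    (hp : Place g s Z b a k l r D B Li) {ψ : Pt → Pt} (hψ : Adm D ψ) {v : Pt} (hv : v ∈ B) :
    TT (ψ ∘ g) s b k l v = PlM g s l (ψ (Li (TT g s b k l v))) ∧
    (ψ ∘ g)^[k + 1 + l] (s.κ Sy.Q (v.1, b + v.2)) = s.κ Sy.P (TT (ψ ∘ g) s b k l v) ∧
    TT (ψ ∘ g) s b k l v ∈ Metric.ball ((a, 0) : Pt) r ∧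
    ∀ i ≤ k + 1 + l, (ψ ∘ g)^[i] (s.κ Sy.Q (v.1, b + v.2)) ∈ VO ∪ Z := by
  have hw : g (InM g s b k v) ∈ D := hp.inD v hv
  set w := g (InM g s b k v) with hwd
  have hψw : ψ w ∈ D := hψ.2 w hw
  have hk : (ψ ∘ g) (InM (ψ ∘ g) s b k v) = ψ w := by
    rw [hp.iter_in hN hψ hv k le_rfl]
    rfl
  have hl : ∀ i ≤ l, (ψ ∘ g)^[i] (ψ w) = g^[i] (ψ w) := hp.iter_D hN hZ hψ hψw
  have hTT : TT (ψ ∘ g) s b k l v = PlM g s l (ψ w) := by
    unfold TT PlM
    rw [hk, hl l le_rfl]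
  have hTT0 : TT g s b k l v = PlM g s l w := rfl
  have hk1 : (ψ ∘ g)^[k + 1] (s.κ Sy.Q (v.1, b + v.2)) = ψ w := by
    rw [Function.iterate_succ_apply']
    exact hk
  refine ⟨?_, ?_, ?_, ?_⟩
  · rw [hTT, hTT0, hp.Li_Pl w hw]
  · rw [hTT, Nat.add_comm (k + 1) l, Function.iterate_add_apply, hk1, hl l le_rfl]
    exact hp.land _ hψw
  · rw [hTT]
    exact hp.Pl_mem _ hψw
  · intro i hi
    rcases Nat.lt_or_ge k i with h | h
    · obtain ⟨j, rfl⟩ : ∃ j, i = j + (k + 1) := ⟨i - (k + 1), by omega⟩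
      rw [Function.iterate_add_apply, hk1, hl j (by omega)]
      exact Or.inl (hp.path _ hψw j (by omega))
    · have h1 : (ψ ∘ g)^[i] (s.κ Sy.Q (v.1, b + v.2)) = InM g s b i v := hp.iter_in hN hψ hv i h
      rw [h1]
      exact hp.pathB v hv i h


end Pool.Agent.Lib.H37N
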