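import Pool.Agent.Lib.H37N.CDefs
import Pool.Agent.Lib.H37P.P02
import Pool.Agent.Lib.H37P.P03
import Pool.Agent.Lib.H37P.P04
import Pool.Agent.Lib.H37P.P05

/-!
# H37N J01 (M): the leading coefficient can be made nonzero

`t ↦ (TT (0,t)).2` is smooth near `0` and `O(|t|^(m+1))`, so it is `κ t^(m+1) + O(|t|^(m+2))` (Taylor). If `κ ≠ 0`, `g' = g`. If `κ = 0`:
`Ψ(p,(X,y)) = (X, y + p (X-a)^(m+1) χ(X,y))`, `χ` a bump at `(a,0)` with support in the ball of radius `r/2`, `Place.family`, small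
`p ≠ 0`: `TT g' = Ψ_p (TT g)` near `0`, new coefficient `p α^(m+1)`, `α = ∂_t (TT (0,t)).1 ≠ 0` (`tt_deriv`). `TD g'` holds (`ψ (g z) = g z`).
-/

open Set Filter Topology Asymptotics
open scoped ContDiff

namespace Pool.Agent.Lib.H37N

/-- factoring out a power -/
theorem j01_had {f : ℝ → ℝ} (hf : ∀ᶠ t in 𝓝 (0 : ℝ), ContDiffAt ℝ ∞ f t) (n : ℕ)
    (h : f =O[𝓝 0] fun t => |t| ^ n) :
    ∃ G : ℝ → ℝ, ContDiff ℝ ∞ G ∧ ∀ᶠ t in 𝓝 (0 : ℝ), f t = t ^ n * G t := by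
  obtain ⟨F, hF, hFf⟩ := localise_at hf
  have h1 : F =O[𝓝 0] fun t : ℝ => t ^ n := by
    refine (hFf.trans_isBigO h).trans ?_
    refine IsBigO.of_bound 1 (Eventually.of_forall fun t => ?_)
    simp [abs_pow]
  obtain ⟨G, hG, hG1⟩ := hadamard_pow (P := ℝ) (W := ℝ) (F := fun q : ℝ × ℝ => F q.2)
    (hF.comp contDiff_snd) n (fun _ => h1)
  refine ⟨fun t => G (0, t), hG.comp (contDiff_const.prodMk contDiff_id), ?_⟩
  filter_upwards [hFf] with t ht
  rw [← ht]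
  exact hG1 0 t

theorem j01_lead {f G : ℝ → ℝ} (n : ℕ) (hG : DifferentiableAt ℝ G 0)
    (h : ∀ᶠ t in 𝓝 (0 : ℝ), f t = t ^ n * G t) :
    (fun t => f t - G 0 * t ^ n) =O[𝓝 0] fun t => |t| ^ (n + 1) := by
  have h1 : (fun t => G t - G 0) =O[𝓝 0] fun t => t - 0 := hG.hasFDerivAt.isBigO_sub
  have h2 : (fun t => t ^ n * (G t - G 0)) =O[𝓝 0] fun t : ℝ => t ^ n * (t - 0) :=
    (isBigO_refl _ _).mul h1
  have h3 : (fun t => f t - G 0 * t ^ n) =ᶠ[𝓝 0] fun t => t ^ n * (G t - G 0) := by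
    filter_upwards [h] with t ht
    rw [ht]
    ring
  refine (h3.trans_isBigO h2).trans (IsBigO.of_bound 1 (Eventually.of_forall fun t => ?_))
  rw [sub_zero, ← pow_succ]
  simp [abs_pow]

theorem j01_line {g : Pt → Pt} {s : Fr} {Z : Set Pt} {m : ℕ} {b a : ℝ} {k l : ℕ}
    (hN : Near g) (hs : IsFr g s) (ht : TD g s Z m b a k l) :
    ∀ᶠ t : ℝ in 𝓝 0, ContDiffAt ℝ ∞ (fun t : ℝ => TT g s b k l (0, t)) t := by
  obtain ⟨⟨O, hO, h0, hc, -⟩, -⟩ := tt_regular hN hs ht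
  have hl : ContDiff ℝ ∞ (fun t : ℝ => (((0 : ℝ), t) : Pt)) := contDiff_const.prodMk contDiff_id
  have h1 : ∀ᶠ t : ℝ in 𝓝 0, (((0 : ℝ), t) : Pt) ∈ O :=
    hl.continuous.continuousAt.eventually_mem (hO.mem_nhds h0)
  filter_upwards [h1] with t ht
  exact (hc.contDiffAt (hO.mem_nhds ht)).comp t hl.contDiffAt

/-- the derivative of the first coordinate along the arc -/
theorem j01_alpha {g : Pt → Pt} {s : Fr} {Z : Set Pt} {m : ℕ} {b a : ℝ} {k l : ℕ}
    (hN : Near g) (hs : IsFr g s) (hm : 1 ≤ m) (ht : TD g s Z m b a k l) :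
    ∃ α : ℝ, α ≠ 0 ∧ HasDerivAt (fun t : ℝ => (TT g s b k l (0, t)).1) α 0 := by
  obtain ⟨⟨O, hO, h0, hc, -⟩, -⟩ := tt_regular hN hs ht
  obtain ⟨-, h2, h3⟩ := tt_deriv hN hs hm ht
  have hd : DifferentiableAt ℝ (TT g s b k l) 0 :=
    (hc.contDiffAt (hO.mem_nhds h0)).differentiableAt (by simp)
  have hline : HasDerivAt (fun t : ℝ => ((0 : ℝ), t)) ((0 : ℝ), (1 : ℝ)) 0 :=
    (hasDerivAt_const (0 : ℝ) (0 : ℝ)).prodMk (hasDerivAt_id (0 : ℝ))
  have h1 : HasDerivAt (fun t : ℝ => TT g s b k l (0, t)) (fderiv ℝ (TT g s b k l) 0 (0, 1)) 0 := by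
    have h := (hd.hasFDerivAt : HasFDerivAt (TT g s b k l) _ ((0 : ℝ), (0 : ℝ)))
    exact h.comp_hasDerivAt (0 : ℝ) hline
  refine ⟨_, ?_, h1.fst⟩
  intro h4
  rw [h4, zero_mul] at h2
  linarith

theorem j01_td {g : Pt → Pt} {s : Fr} {Z : Set Pt} {m : ℕ} {b a : ℝ} {k l : ℕ} (hN : Near g)
    (ht : TD g s Z m b a k l) {r : ℝ} {D B : Set Pt} {Li : Pt → Pt}
    (hp : Place g s Z b a k l r D B Li) {ψ : Pt → Pt} (hψ : Adm D ψ)
    (hfix : ψ (g (InM g s b k 0)) = g (InM g s b k 0))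
    (hord : (fun t : ℝ => (TT (ψ ∘ g) s b k l (0, t)).2) =O[𝓝 0] fun t => |t| ^ (m + 1)) :
    TD (ψ ∘ g) s Z m b a k l := by
  have h0 : (0 : Pt) ∈ B := mem_of_mem_nhds hp.nhB
  have hin := Place.iter_in hN hp hψ h0
  have hk : (ψ ∘ g) (InM (ψ ∘ g) s b k 0) = g (InM g s b k 0) := by
    rw [hin k le_rfl]
    exact hfix
  have hD := Place.iter_D hN ht.subZ hp hψ (hp.inD 0 h0)
  exact
    { openZ := ht.openZ
      subZ := ht.subZ
      b_pos := ht.b_pos
      b_lt := ht.b_lt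
      a_lt := ht.a_lt
      path1 := fun i hi => by
        rw [hin i hi]
        exact ht.path1 i hi
      memZ := by
        rw [hin k le_rfl]
        exact ht.memZ
      dist := fun i hi => by
        rw [hin i hi.le, hin k le_rfl]
        exact ht.dist i hi
      path2 := fun i hi => by
        rw [hk, hD i hi]
        exact ht.path2 i hi
      fin := by
        rw [hk, hD l le_rfl]
        exact ht.fin
      ord := hord }

/-- the fixed point of a perturbation at a place -/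
theorem j01_fix {g : Pt → Pt} {s : Fr} {Z : Set Pt} {m : ℕ} {b a : ℝ} {k l : ℕ}
    (hN : Near g) (hs : IsFr g s) (ht : TD g s Z m b a k l) {r : ℝ} {D B : Set Pt} {Li : Pt → Pt}
    (hp : Place g s Z b a k l r D B Li) {ψ : Pt → Pt} (hψ : Adm D ψ)
    (h : PlM g s l (ψ (Li (a, 0))) = (a, 0)) :
    ψ (g (InM g s b k 0)) = g (InM g s b k 0) := by
  have h0 : (0 : Pt) ∈ B := mem_of_mem_nhds hp.nhB
  have hw := hp.inD 0 h0
  have hT : PlM g s l (g (InM g s b k 0)) = (a, 0) := (tt_regular hN hs ht).2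
  have e1 : Li (a, 0) = g (InM g s b k 0) := by
    rw [← hT]
    exact hp.Li_Pl _ hw
  rw [e1] at h
  have e2 := hp.Li_Pl _ (hψ.2 _ hw)
  rw [h, e1] at e2
  exact e2.symm

theorem nondeg {R m : ℕ} (hm : 1 ≤ m) {U : Set (Pt → Pt)} (hU : PertOpen R U)
    (hUN : ∀ g ∈ U, Near g) {g : Pt → Pt} (hg : g ∈ U) {s : Fr} (hs : IsFr g s) {Z : Set Pt}
    {b a : ℝ} {k l : ℕ} (ht : TD g s Z m b a k l) :
    ∃ g' ∈ U, EqOff Z g g' ∧ TD g' s Z m b a k l ∧
      ∃ κ : ℝ, κ ≠ 0 ∧ (fun t : ℝ => (TT g' s b k l (0, t)).2 - κ * t ^ (m + 1)) =O[𝓝 0]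
        fun t => |t| ^ (m + 2) := by
  have hN := hUN g hg
  have hline := j01_line hN hs ht
  obtain ⟨G, hG, hG1⟩ := j01_had (f := fun t : ℝ => (TT g s b k l (0, t)).2)
    (hline.mono fun t h => h.snd) (m + 1) ht.ord
  have hl0 := j01_lead (m + 1) (hG.contDiffAt.differentiableAt (by simp)) hG1
  by_cases hκ : G 0 = 0
  swap
  · exact ⟨g, hg, fun _ _ _ => rfl, ht, G 0, hκ, hl0⟩
  have hy : (fun t : ℝ => (TT g s b k l (0, t)).2) =O[𝓝 0] fun t => |t| ^ (m + 2) := by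
    refine hl0.congr_left fun t => ?_
    rw [hκ]
    ring
  have hTT0 := (tt_regular hN hs ht).2
  obtain ⟨α, hα, hX⟩ := j01_alpha hN hs hm ht
  have hX1 : (fun t : ℝ => (TT g s b k l (0, t)).1 - a) =O[𝓝 0] fun t => |t| ^ 1 := by
    have h := hX.isBigO_sub
    have e : (TT g s b k l (0, (0 : ℝ))).1 = a := by
      have : TT g s b k l (0, (0 : ℝ)) = TT g s b k l 0 := rfl
      rw [this, hTT0]
    rw [e] at h
    refine h.trans (IsBigO.of_bound 1 (Eventually.of_forall fun t => ?_))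
    simp
  obtain ⟨G1, hG1s, hG1e⟩ := j01_had (f := fun t : ℝ => (TT g s b k l (0, t)).1 - a)
    (hline.mono fun t h => h.fst.sub contDiffAt_const) 1 hX1
  have hG10 : G1 0 = α := by
    have h1 : HasDerivAt (fun t : ℝ => t ^ 1 * G1 t) (G1 0) 0 := by
      have h := (hasDerivAt_id (0 : ℝ)).mul
        ((hG1s.contDiffAt.differentiableAt (by simp) : DifferentiableAt ℝ G1 0).hasDerivAt)
      simp only [id, one_mul, zero_mul, add_zero] at h
      refine h.congr_of_eventuallyEq (Eventually.of_forall fun t => ?_)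
      simp
    have h2 : HasDerivAt (fun t : ℝ => (TT g s b k l (0, t)).1 - a) (G1 0) 0 :=
      h1.congr_of_eventuallyEq hG1e
    exact h2.unique (hX.sub_const a)
  obtain ⟨r, D, B, Li, hp⟩ := exists_place hN hs ht
  have hr := hp.r_pos
  obtain ⟨χ, hχ, -, hχs, -, hχ1⟩ := exists_cutoff (E := Pt) (C := {((a, 0) : Pt)})
    (O := Metric.ball ((a, 0) : Pt) (r / 2)) isCompact_singleton Metric.isOpen_ball
    (singleton_subset_iff.2 (Metric.mem_ball_self (by linarith)))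
  rw [nhdsSet_singleton] at hχ1
  obtain ⟨ε, hε, hUε⟩ := hU g hg
  have hfam := Place.family hp (P := ℝ)
    (fun q : ℝ × Pt => ((q.2.1, q.2.2 + q.1 * (q.2.1 - a) ^ (m + 1) * χ q.2) : Pt))
    (by
      refine (contDiff_fst.comp contDiff_snd).prodMk ((contDiff_snd.comp contDiff_snd).add ?_)
      exact (contDiff_fst.mul (((contDiff_fst.comp contDiff_snd).sub contDiff_const).pow _)).mul
        (hχ.comp contDiff_snd))
    (fun v => by ext <;> simp)
    (fun p v hv => by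
      have : χ v = 0 := by
        by_contra hc
        exact hv (Metric.ball_subset_closedBall (hχs (subset_tsupport χ hc)))
      ext <;> simp [this]) R hε
  obtain ⟨p, ⟨ψ, hSm, hAdm, hform⟩, hp0⟩ :=
    ((hfam.filter_mono (nhdsWithin_le_nhds (s := {(0 : ℝ)}ᶜ))).and self_mem_nhdsWithin).exists
  have hp0' : p ≠ 0 := hp0
  have hball : Metric.ball ((a, 0) : Pt) (r / 2) ⊆ Metric.ball ((a, 0) : Pt) r :=
    Metric.ball_subset_ball (by linarith)
  have hTTc : ContinuousAt (fun t : ℝ => TT g s b k l (0, t)) 0 :=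
    hline.self_of_nhds.continuousAt
  have hline0 : Tendsto (fun t : ℝ => (((0 : ℝ), t) : Pt)) (𝓝 0) (𝓝 0) := by
    have : Continuous (fun t : ℝ => (((0 : ℝ), t) : Pt)) := by fun_prop
    exact this.continuousAt
  have hB : ∀ᶠ t : ℝ in 𝓝 0, (((0 : ℝ), t) : Pt) ∈ B := hline0.eventually hp.nhB
  have hχt : ∀ᶠ t : ℝ in 𝓝 0, χ (TT g s b k l (0, t)) = 1 := by
    have e : TT g s b k l (0, (0 : ℝ)) = (a, 0) := hTT0
    have hc : Tendsto (fun t : ℝ => TT g s b k l (0, t)) (𝓝 0) (𝓝 (a, 0)) := by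
      have h := hTTc.tendsto
      rwa [e] at h
    exact hc.eventually hχ1
  have hTT' : ∀ᶠ t : ℝ in 𝓝 0, (TT (ψ ∘ g) s b k l (0, t)).2 =
      (TT g s b k l (0, t)).2 + p * ((TT g s b k l (0, t)).1 - a) ^ (m + 1) := by
    filter_upwards [hB, hχt] with t h1 h2
    rw [(Place.transition hN ht.subZ hp hAdm h1).1, hform _ (hball (hp.TB _ h1)), h2, mul_one]
  have hpow : ∀ᶠ t : ℝ in 𝓝 0, p * ((TT g s b k l (0, t)).1 - a) ^ (m + 1) =
      t ^ (m + 1) * (p * G1 t ^ (m + 1)) := by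
    filter_upwards [hG1e] with t h
    rw [h]
    ring
  have hlead := j01_lead (f := fun t : ℝ => p * ((TT g s b k l (0, t)).1 - a) ^ (m + 1))
    (G := fun t => p * G1 t ^ (m + 1)) (m + 1)
    (((hG1s.contDiffAt.differentiableAt (by simp)).pow _).const_mul _) hpow
  rw [hG10] at hlead
  have hfinal : (fun t : ℝ => (TT (ψ ∘ g) s b k l (0, t)).2 - p * α ^ (m + 1) * t ^ (m + 1)) =O[𝓝 0]
      fun t => |t| ^ (m + 2) := by
    refine IsBigO.congr' (hy.add hlead) ?_ EventuallyEq.rfl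
    filter_upwards [hTT'] with t h
    rw [h]
    ring
  refine ⟨ψ ∘ g, hUε ψ hSm, Place.eqOff hN ht.subZ hp hAdm, ?_, p * α ^ (m + 1),
    mul_ne_zero hp0' (pow_ne_zero _ hα), hfinal⟩
  refine j01_td hN ht hp hAdm (j01_fix hN hs ht hp hAdm ?_) ?_
  · rw [hform _ (Metric.mem_ball_self hr)]
    ext <;> simp
  · have h1 : (fun t : ℝ => p * α ^ (m + 1) * t ^ (m + 1)) =O[𝓝 0] fun t => |t| ^ (m + 1) := by
      refine IsBigO.of_bound |p * α ^ (m + 1)| (Eventually.of_forall fun t => ?_)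
      simp [abs_mul, abs_pow]
    have h2 : (fun t : ℝ => |t| ^ (m + 2)) =O[𝓝 0] fun t => |t| ^ (m + 1) := by
      have h3 : (fun t : ℝ => t ^ (m + 2)) =O[𝓝 0] fun t : ℝ => t ^ (m + 1) :=
        (isLittleO_pow_pow (by omega)).isBigO
      refine IsBigO.congr (h3.norm_norm) (fun t => ?_) (fun t => ?_)
      · simp [abs_pow]
      · simp [abs_pow]
    refine IsBigO.congr_left ((hfinal.trans h2).add h1) fun t => ?_
    ring

end Pool.Agent.Lib.H37N
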