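import Pool.Agent.Lib.H37N.C50

/-!
# H37N P01 (S/M): persistence of the system data and of tangency data
-/

open Set Filter Topology Asymptotics
open scoped ContDiff

namespace Pool.Agent.Lib.H37N

theorem isFr_congr {g g' : Pt → Pt} {s : Fr} (_hN : Near g) (hs : IsFr g s)
    (h : ∀ z ∈ VV Sy.P ∪ VV Sy.Q, g' z = g z) : IsFr g' s :=
  hs.congr fun z hz => h z (union_subset_union interior_subset interior_subset hz)

theorem p01_eq {g g' : Pt → Pt} {Z1 Z2 : Set Pt} (h : EqOff Z2 g g') (hZ1 : Z1 ⊆ interior FF)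
    (hZ2 : Z2 ⊆ FF) (hd : Disjoint Z1 Z2) : ∀ z ∈ VO ∪ Z1, g' z = g z := by
  rintro z (hz | hz)
  · have hzV : z ∈ VV Sy.P ∪ VV Sy.Q := union_subset_union interior_subset interior_subset hz
    exact h z (Or.inl hzV) fun h2 => Set.disjoint_left.1 VV_FF_disjoint hzV (hZ2 h2)
  · exact h z (Or.inr (interior_subset (hZ1 hz))) fun h2 => Set.disjoint_left.1 hd hz h2

theorem td_congr {g g' : Pt → Pt} {s : Fr} {Z1 Z2 : Set Pt} {m : ℕ} {b a : ℝ} {k l : ℕ}
    (hN : Near g) (hs : IsFr g s) (ht : TD g s Z1 m b a k l) (h : EqOff Z2 g g')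
    (hZ2 : Z2 ⊆ FF) (hd : Disjoint Z1 Z2) : TD g' s Z1 m b a k l :=
  ht.congr hN hs (p01_eq h ht.subZ hZ2 hd)

/-- the transition map is the same near `0` -/
theorem tt_congr {g g' : Pt → Pt} {s : Fr} {Z1 Z2 : Set Pt} {m : ℕ} {b a : ℝ} {k l : ℕ}
    (hN : Near g) (hs : IsFr g s) (ht : TD g s Z1 m b a k l) (h : EqOff Z2 g g')
    (hZ2 : Z2 ⊆ FF) (hd : Disjoint Z1 Z2) :
    ∀ᶠ v in 𝓝 (0 : Pt), TT g' s b k l v = TT g s b k l v := by
  have he := p01_eq h ht.subZ hZ2 hd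
  have hOm : VO ∪ Z1 ⊆ Om := union_subset (fun z hz => Or.inl hz) (fun z hz => Or.inr (ht.subZ hz))
  have hopen : IsOpen (VO ∪ Z1) := isOpen_VO.union ht.openZ
  have hIn0 : ∀ i, InM g s b i 0 = g^[i] (s.κ Sy.Q (0, b)) := by
    intro i
    simp [InM]
  have hκ : Tendsto (fun v : Pt => s.κ Sy.Q (v.1, b + v.2)) (𝓝 0) (𝓝 (s.κ Sy.Q (0, b))) := by
    have h1 : Continuous (fun v : Pt => s.κ Sy.Q (v.1, b + v.2)) :=
      (hs.chart Sy.Q).smooth.continuous.comp (by fun_prop)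
    have h2 := h1.tendsto 0
    simpa using h2
  have hcont : ∀ i ≤ k, Tendsto (fun v : Pt => InM g s b i v) (𝓝 0) (𝓝 (InM g s b i 0)) := by
    intro i hi
    have h1 := (hN.iter_Om i (z := s.κ Sy.Q (0, b)) (fun j hj => by
      have := ht.path1 j (by omega)
      rw [hIn0] at this
      exact hOm this)).self_of_nhds.1.continuousAt.tendsto
    rw [hIn0]
    exact h1.comp hκ
  have hpath : ∀ᶠ v in 𝓝 (0 : Pt), ∀ i ≤ k, InM g s b i v ∈ VO ∪ Z1 := by
    have h1 : ∀ i ∈ Finset.range (k + 1), ∀ᶠ v in 𝓝 (0 : Pt), InM g s b i v ∈ VO ∪ Z1 := by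
      intro i hi
      have hi' : i ≤ k := by simpa [Nat.lt_succ_iff] using hi
      exact (hcont i hi').eventually (hopen.mem_nhds (ht.path1 i hi'))
    have h2 := (Finset.eventually_all (Finset.range (k + 1))).2 h1
    filter_upwards [h2] with v hv i hi
    exact hv i (by simpa [Nat.lt_succ_iff] using hi)
  have hIn : ∀ᶠ v in 𝓝 (0 : Pt), ∀ i ≤ k, InM g' s b i v = InM g s b i v := by
    filter_upwards [hpath] with v hv
    exact c50_path he (fun i hi => hv i hi.le)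
  have hVO : ∀ z ∈ VO, g' z = g z := fun z hz => he z (Or.inl hz)
  have hgc : Tendsto (fun v : Pt => g (InM g s b k v)) (𝓝 0) (𝓝 (g (InM g s b k 0))) := by
    have h1 := (hN.contDiffAt_Om (hOm (Or.inr ht.memZ))).self_of_nhds.continuousAt.tendsto
    exact h1.comp (hcont k le_rfl)
  have hl := hN.iter l (z := g (InM g s b k 0)) (fun j hj => ht.path2 j hj.le)
  filter_upwards [hIn, hpath, hgc.eventually hl] with v h1 h2 h3
  unfold TT PlM
  rw [h1 k le_rfl, he _ (h2 k le_rfl), iterate_eq_of_VO (n := l) hVO h3.2 l le_rfl]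

theorem td_mono {g : Pt → Pt} {s : Fr} {Z1 Z2 : Set Pt} {m m' : ℕ} {b a : ℝ} {k l : ℕ}
    (ht : TD g s Z1 m b a k l) (hZ : Z1 ⊆ Z2) (ho : IsOpen Z2) (hF : Z2 ⊆ interior FF)
    (hm : m' ≤ m) : TD g s Z2 m' b a k l := by
  have h := ht.mono hZ ho hF
  refine ⟨h.openZ, h.subZ, h.b_pos, h.b_lt, h.a_lt, h.path1, h.memZ, h.dist, h.path2, h.fin, ?_⟩
  refine h.ord.trans (IsBigO.of_bound 1 ?_)
  have h1 : ∀ᶠ t : ℝ in 𝓝 0, |t| < 1 := by
    have := (continuous_abs (G := ℝ)).tendsto 0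
    rw [abs_zero] at this
    exact this.eventually (gt_mem_nhds one_pos)
  filter_upwards [h1] with t ht1
  rw [one_mul, norm_pow, norm_pow, Real.norm_eq_abs, abs_abs]
  exact pow_le_pow_of_le_one (abs_nonneg t) ht1.le (by omega)

end Pool.Agent.Lib.H37N
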