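import Pool.Agent.Lib.H37P.PDefs
import Pool.Agent.Lib.H37N.SA3

/-!
# H37N: flat arcs and the blocks of Stage II (definitions)

`n = e + 3`, `N = nb e = 2 (e + 3)` blocks.
Parameters `ε : Fin 6 → ℝ`: `ε 0 = ε1`, `ε 1 = ε2`, `ε 2 = ε4`, `ε 3 = 1/E`, `ε 4 = ξ⁰`, `ε 5 = B - B0`.
-/

open Set Filter Topology Asymptotics
open scoped ContDiff

namespace Pool.Agent.Lib.H37N

noncomputable section

/-- the parameters of a pass -/
abbrev E6 : Type := Fin 6 → ℝ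

/-- local form of the transition along a flat arc of the unstable axis which lies on the stable axis:
`TT(ξ,t) = (a + A(ξ,t), Nn(ξ0, a + A(ξ,t)) + ζ Mh(ξ0,(ζ,t)))`, `ξ = ξ0 + ζ` -/
structure Flat (g : Pt → Pt) (s : Fr) (b a : ℝ) (k l : ℕ) (A Nn : Pt → ℝ) (Mh : ℝ × Pt → ℝ)
    (r : ℝ) : Prop where
  r_pos : 0 < r
  smA : ContDiff ℝ ∞ A
  smN : ContDiff ℝ ∞ Nn
  smM : ContDiff ℝ ∞ Mh
  fst : ∀ ξ t : ℝ, |ξ| < r → |t| < r → (TT g s b k l (ξ, t)).1 = a + A (ξ, t)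
  snd : ∀ ξ0 ζ t : ℝ, |ξ0| < r → |ζ| < r → |t| < r →
    (TT g s b k l (ξ0 + ζ, t)).2 = Nn (ξ0, a + A (ξ0 + ζ, t)) + ζ * Mh (ξ0, (ζ, t))
  N0 : ∀ X : ℝ, |X - a| < r → Nn (0, X) = 0
  A0 : A (0, 0) = 0
  neg : deriv (fun t => A (0, t)) 0 * Mh (0, (0, 0)) < 0

/-- the Jacobian of the ideal block, up to a constant factor -/
def hG (A : Pt → ℝ) (Mh : ℝ × Pt → ℝ) (U : ℝ) : ℝ :=
  -(deriv (fun t => A (0, t)) U * Mh (0, (0, U)))

/-- first coordinate of the block (before the correction) -/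
def bX (f : PF) (a b B0 : ℝ) (A : Pt → ℝ) (z : E6 × Pt) : ℝ :=
  a + A (z.1 4 + z.1 3 * XiF f b (z.1 0) (z.1 1) (z.1 2) (B0 + z.1 5) z.2.1 z.2.2,
    etaF f b (z.1 0) (z.1 1) z.2.1 z.2.2)

/-- second coordinate of the block (before the correction) -/
def bU (f : PF) (b B0 : ℝ) (Mh : ℝ × Pt → ℝ) (z : E6 × Pt) : ℝ :=
  XiF f b (z.1 0) (z.1 1) (z.1 2) (B0 + z.1 5) z.2.1 z.2.2 *
    Mh (z.1 4, (z.1 3 * XiF f b (z.1 0) (z.1 1) (z.1 2) (B0 + z.1 5) z.2.1 z.2.2,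
      etaF f b (z.1 0) (z.1 1) z.2.1 z.2.2))

/-- the number of blocks -/
abbrev nb (e : ℕ) : ℕ := 2 * (e + 3)

/-- the base points (in the zoomed coordinate), periodic with sum zero and gaps at least `1` -/
def dj (e j : ℕ) : ℝ := ((j % nb e : ℕ) : ℝ) - ((nb e : ℝ) - 1) / 2

/-- the coefficient of the ideal blocks -/
def ttc (e : ℕ) : ℝ := 2 * Real.cos (sth (e + 3))

/-- the polynomial of the block `j` -/
def qpoly (e : ℕ) (q : QQ (e + 3) e) (j : ℕ) (u : ℝ) : ℝ :=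
  ∑ i ∈ Finset.range (e + 1), qx q j i * u ^ i

/-- the zoomed correction of the block `j` -/
def qt (e : ℕ) (τ : ℝ) (q : QQ (e + 3) e) (j : ℕ) (w : ℝ) : ℝ :=
  dj e j - τ * dj e (j + 1) + dj e (j + 2) + (ttc e - τ) * w + qpoly e q j w

/-- the correction of the block `j` -/
def Qj (e : ℕ) (a hs c0 τ ρ : ℝ) (q : QQ (e + 3) e) (j : ℕ) (X : ℝ) : ℝ :=
  -c0 + ρ * qt e τ q j ((X - a) / (ρ * hs) - dj e (j + 1))

/-- the block `j` with its correction `Q j` -/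
def stp (f : PF) (a b B0 : ℝ) (A : Pt → ℝ) (Mh : ℝ × Pt → ℝ) (Q : ℕ → ℝ → ℝ) (ε : E6) (j : ℕ)
    (V : Pt) : Pt :=
  (bX f a b B0 A (ε, V), bU f b B0 Mh (ε, V) + Q j (bX f a b B0 A (ε, V)))

/-- the composition of the first `j` blocks -/
def sto (f : PF) (a b B0 : ℝ) (A : Pt → ℝ) (Mh : ℝ × Pt → ℝ) (Q : ℕ → ℝ → ℝ) (ε : E6) :
    ℕ → Pt → Pt
  | 0, V => V
  | j + 1, V => stp f a b B0 A Mh Q ε j (sto f a b B0 A Mh Q ε j V)

end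

end Pool.Agent.Lib.H37N
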