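import Pool.Agent.Lib.H37P.P04

/-!
# H37N P11 (S/M): places persist, disjoint perturbations

`place_congr`: all points used by `Place` are in `VO ∪ Z1` (the orbits `InM i v`, `i ≤ k`, the paths of the points of `D`),
where `g' = g` (`EqOff Z2`, `Z1 ∩ Z2 = ∅`); `g' '' Z1 = g '' Z1`. So every field carries over.
`small_comp`: if `ψ1 = id` off `D1`, `ψ2 = id` off `D2`, `D1 ∩ D2 = ∅`, `ψ_i D_i ⊆ D_i`, then for all `z`:
`ψ1 (ψ2 z) - z = (ψ1 z - z) + (ψ2 z - z)`; so the derivatives are bounded by the sum (`iteratedFDeriv_add`, smooth functions).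
-/

open Set Filter Topology Asymptotics
open scoped ContDiff

namespace Pool.Agent.Lib.H37N

theorem p11_VO {z : Pt} (hz : z ∈ VO) : z ∈ VV Sy.P ∪ VV Sy.Q := by
  rcases hz with hz | hz
  · exact Or.inl (interior_subset hz)
  · exact Or.inr (interior_subset hz)

theorem p11_eq {g g' : Pt → Pt} {Z1 Z2 : Set Pt} (hZ1 : Z1 ⊆ interior FF)
    (h : EqOff Z2 g g') (hZ2 : Z2 ⊆ FF) (hd : Disjoint Z1 Z2) {z : Pt} (hz : z ∈ VO ∪ Z1) :
    g' z = g z := by
  rcases hz with hz | hz
  · have h1 := p11_VO hz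
    refine h z (Or.inl h1) fun h2 => ?_
    exact (Set.disjoint_left.1 VV_FF_disjoint h1) (hZ2 h2)
  · exact h z (Or.inr (interior_subset (hZ1 hz))) fun h2 => Set.disjoint_left.1 hd hz h2

theorem p11_iter {g g' : Pt → Pt} {A : Set Pt} (h : ∀ z ∈ A, g' z = g z) {n : ℕ} {z : Pt}
    (hz : ∀ i < n, g^[i] z ∈ A) : ∀ i ≤ n, g'^[i] z = g^[i] z := by
  intro i
  induction i with
  | zero => intro _; rfl
  | succ i ih =>
    intro hi
    rw [Function.iterate_succ_apply', Function.iterate_succ_apply', ih (by omega),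
      h _ (hz i (by omega))]

theorem place_congr {g g' : Pt → Pt} {s : Fr} {Z1 Z2 : Set Pt} {b a : ℝ} {k l : ℕ} {r : ℝ}
    {D B : Set Pt} {Li : Pt → Pt} (hp : Place g s Z1 b a k l r D B Li) (hZ1 : Z1 ⊆ interior FF)
    (h : EqOff Z2 g g') (hZ2 : Z2 ⊆ FF) (hd : Disjoint Z1 Z2) :
    Place g' s Z1 b a k l r D B Li := by
  have hE : ∀ z ∈ VO ∪ Z1, g' z = g z := fun z hz => p11_eq hZ1 h hZ2 hd hz
  have hIm : g' '' Z1 = g '' Z1 := Set.image_congr fun z hz => hE z (Or.inr hz)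
  have hD : ∀ w ∈ D, ∀ i ≤ l, g'^[i] w = g^[i] w := fun w hw =>
    p11_iter hE fun i hi => Or.inl (hp.path w hw i hi.le)
  have hPl : ∀ w ∈ D, PlM g' s l w = PlM g s l w := by
    intro w hw
    unfold PlM
    rw [hD w hw l le_rfl]
  have hB : ∀ v ∈ B, ∀ i ≤ k, InM g' s b i v = InM g s b i v := fun v hv =>
    p11_iter hE fun i hi => hp.pathB v hv i hi.le
  have hgB : ∀ v ∈ B, ∀ i ≤ k, g' (InM g' s b i v) = g (InM g s b i v) := by
    intro v hv i hi
    rw [hB v hv i hi, hE _ (hp.pathB v hv i hi)]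
  exact
    { r_pos := hp.r_pos
      r_lt := hp.r_lt
      openD := hp.openD
      subD := by rw [hIm]; exact hp.subD
      compD := by rw [hIm]; exact hp.compD
      Pl_mem := fun w hw => by rw [hPl w hw]; exact hp.Pl_mem w hw
      Li_Pl := fun w hw => by rw [hPl w hw]; exact hp.Li_Pl w hw
      Li_mem := hp.Li_mem
      Pl_Li := fun v hv => by rw [hPl _ (hp.Li_mem v hv)]; exact hp.Pl_Li v hv
      smLi := hp.smLi
      smPl := hp.smPl.congr hPl
      path := fun w hw i hi => by rw [hD w hw i hi]; exact hp.path w hw i hi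
      land := fun w hw => by rw [hD w hw l le_rfl, hPl w hw]; exact hp.land w hw
      nhB := hp.nhB
      boxB := hp.boxB
      pathB := fun v hv i hi => by rw [hB v hv i hi]; exact hp.pathB v hv i hi
      notD := fun v hv i hi => by rw [hgB v hv i hi.le]; exact hp.notD v hv i hi
      inD := fun v hv => by rw [hgB v hv k le_rfl]; exact hp.inD v hv
      TB := fun v hv => by
        have h1 : TT g' s b k l v = TT g s b k l v := by
          unfold TT
          rw [hgB v hv k le_rfl, hPl _ (hp.inD v hv)]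
        rw [h1]
        exact hp.TB v hv }

theorem small_comp {R : ℕ} {ε1 ε2 : ℝ} {ψ1 ψ2 : Pt → Pt} (h1 : Small R ε1 ψ1)
    (h2 : Small R ε2 ψ2) {D1 D2 : Set Pt} (a1 : Adm D1 ψ1) (a2 : Adm D2 ψ2)
    (hd : Disjoint D1 D2) : Small R (ε1 + ε2) (ψ1 ∘ ψ2) := by
  refine ⟨h1.smooth.comp h2.smooth, fun z hz => ?_, fun j hj z => ?_⟩
  · show ψ1 (ψ2 z) = z
    rw [h2.supp z hz, h1.supp z hz]
  · have h3 : (fun z => (ψ1 ∘ ψ2) z - z) = (fun z => ψ1 z - z) + fun z => ψ2 z - z := by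
      funext z
      show ψ1 (ψ2 z) - z = (ψ1 z - z) + (ψ2 z - z)
      by_cases hz1 : z ∈ D1
      · have hz2 : z ∉ D2 := Set.disjoint_left.1 hd hz1
        rw [a2.1 z hz2]
        abel
      · rw [a1.1 z hz1]
        by_cases hz2 : z ∈ D2
        · have hz3 : ψ2 z ∉ D1 := Set.disjoint_right.1 hd (a2.2 z hz2)
          rw [a1.1 _ hz3]
          abel
        · rw [a2.1 z hz2, a1.1 z hz1]
          abel
    have c1 : ContDiff ℝ ∞ fun z => ψ1 z - z := h1.smooth.sub contDiff_id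
    have c2 : ContDiff ℝ ∞ fun z => ψ2 z - z := h2.smooth.sub contDiff_id
    rw [h3, iteratedFDeriv_add_apply (c1.contDiffAt.of_le (by exact_mod_cast le_top))
      (c2.contDiffAt.of_le (by exact_mod_cast le_top))]
    exact (norm_add_le _ _).trans (add_le_add (h1.bound j hj z) (h2.bound j hj z))

end Pool.Agent.Lib.H37N
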