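import Pool.Agent.Lib.H37P.KDefs

/-!
# H37N Z20 (S/M): the blocks at `ε = 0`, smoothness

`etaF f b 0 0 X U = U` because `W(0,0) = 1`; `XiF f b 0 0 0 B0 X U = B0 X Y1(0)`. The functions are compositions of
smooth ones. `dj`: `∑_{j<N} dj (j+1) = 0`, `dj (j+N) = dj j`, `|dj i - dj j| ≥ 1` for `i ≢ j` mod `N`.
-/

open Set Filter Topology Asymptotics
open scoped ContDiff

namespace Pool.Agent.Lib.H37N

theorem contDiff_bX {f : PF} (h1 : ContDiff ℝ ∞ f.Th) (h2 : ContDiff ℝ ∞ f.Y1)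
    (h3 : ContDiff ℝ ∞ f.W) (h4 : ContDiff ℝ ∞ f.Y2) {A : Pt → ℝ} (hA : ContDiff ℝ ∞ A)
    (a b B0 : ℝ) : ContDiff ℝ ∞ (bX f a b B0 A) := by
  unfold bX XiF etaF
  fun_prop

theorem contDiff_bU {f : PF} (h1 : ContDiff ℝ ∞ f.Th) (h2 : ContDiff ℝ ∞ f.Y1)
    (h3 : ContDiff ℝ ∞ f.W) (h4 : ContDiff ℝ ∞ f.Y2) {Mh : ℝ × Pt → ℝ} (hM : ContDiff ℝ ∞ Mh)
    (b B0 : ℝ) : ContDiff ℝ ∞ (bU f b B0 Mh) := by
  unfold bU XiF etaF
  fun_prop

theorem bX_zero {f : PF} (hW : f.W (0, 0) = 1) (A : Pt → ℝ) (a b B0 : ℝ) (V : Pt) :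
    bX f a b B0 A (0, V) = a + A (0, V.2) := by
  have h0 : ∀ i : Fin 6, (0 : E6) i = 0 := fun _ => rfl
  have h1 : etaF f b 0 0 V.1 V.2 = V.2 := by
    unfold etaF
    rw [zero_mul, zero_mul, hW]
    ring
  show a + A ((0 : E6) 4 + (0 : E6) 3 * XiF f b ((0 : E6) 0) ((0 : E6) 1) ((0 : E6) 2) (B0 + (0 : E6) 5) V.1 V.2,
    etaF f b ((0 : E6) 0) ((0 : E6) 1) V.1 V.2) = a + A (0, V.2)
  simp only [h0, h1, zero_mul, add_zero]

theorem bU_zero {f : PF} (hW : f.W (0, 0) = 1) (Mh : ℝ × Pt → ℝ) (b B0 : ℝ) (V : Pt) :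
    bU f b B0 Mh (0, V) = B0 * V.1 * f.Y1 0 * Mh (0, (0, V.2)) := by
  have h0 : ∀ i : Fin 6, (0 : E6) i = 0 := fun _ => rfl
  have h1 : etaF f b 0 0 V.1 V.2 = V.2 := by
    unfold etaF
    rw [zero_mul, zero_mul, hW]
    ring
  have h2 : XiF f b 0 0 0 (B0 + 0) V.1 V.2 = B0 * V.1 * f.Y1 0 := by
    unfold XiF
    simp
  show XiF f b ((0 : E6) 0) ((0 : E6) 1) ((0 : E6) 2) (B0 + (0 : E6) 5) V.1 V.2 *
    Mh ((0 : E6) 4, ((0 : E6) 3 * XiF f b ((0 : E6) 0) ((0 : E6) 1) ((0 : E6) 2) (B0 + (0 : E6) 5) V.1 V.2,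
      etaF f b ((0 : E6) 0) ((0 : E6) 1) V.1 V.2)) = B0 * V.1 * f.Y1 0 * Mh (0, (0, V.2))
  simp only [h0, h1, h2, zero_mul]

theorem dj_add (e j : ℕ) : dj e (j + nb e) = dj e j := by
  unfold dj
  rw [Nat.add_mod_right]

theorem sum_dj (e : ℕ) : ∑ j ∈ Finset.range (nb e), dj e (j + 1) = 0 := by
  have h1 : ∑ j ∈ Finset.range (nb e), dj e (j + 1) = ∑ j ∈ Finset.range (nb e), dj e j := by
    have h2 := Finset.sum_range_succ (dj e) (nb e)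
    have h3 := Finset.sum_range_succ' (dj e) (nb e)
    have h4 : dj e (nb e) = dj e 0 := by
      have := dj_add e 0
      rwa [zero_add] at this
    rw [h4] at h2
    linarith
  rw [h1]
  have h5 : ∀ j ∈ Finset.range (nb e), dj e j = (j : ℝ) - ((nb e : ℝ) - 1) / 2 := by
    intro j hj
    unfold dj
    rw [Nat.mod_eq_of_lt (Finset.mem_range.1 hj)]
  rw [Finset.sum_congr rfl h5, Finset.sum_sub_distrib, Finset.sum_const, Finset.card_range,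
    nsmul_eq_mul]
  have h6 : ∀ n : ℕ, ∑ j ∈ Finset.range n, (j : ℝ) = n * ((n : ℝ) - 1) / 2 := by
    intro n
    induction n with
    | zero => simp
    | succ n ih =>
      rw [Finset.sum_range_succ, ih]
      push_cast
      ring
  rw [h6]
  ring

theorem dj_sep (e : ℕ) {i j : ℕ} (h : i % nb e ≠ j % nb e) : 1 ≤ |dj e i - dj e j| := by
  have h1 : dj e i - dj e j = ((((i % nb e : ℕ) : ℤ) - ((j % nb e : ℕ) : ℤ) : ℤ) : ℝ) := by
    unfold dj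
    rw [Int.cast_sub, Int.cast_natCast, Int.cast_natCast]
    ring
  rw [h1]
  have h2 : ((i % nb e : ℕ) : ℤ) - ((j % nb e : ℕ) : ℤ) ≠ 0 := by
    intro h3
    apply h
    omega
  have h4 : 1 ≤ |((i % nb e : ℕ) : ℤ) - ((j % nb e : ℕ) : ℤ)| := Int.one_le_abs h2
  exact_mod_cast h4

end Pool.Agent.Lib.H37N
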