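import Pool.Agent.Lib.H37P.KDefs
import Pool.Agent.Lib.H37N.T4

/-!
# H37N Z21 (S): zoom (from `zoom`, T4)

Hadamard (T2, scalar form) for `(ε',ξ,ρ) ↦ F(ρ ε', x0 + ρ ξ)` in the variable `ρ`: `G(ε',ξ,ρ) = ∫_0^1 ∂_ρ(...)(uρ) du`, smooth, and at
`ρ = 0` it is `DF(0,x0)(ε',ξ)`.
-/

open Set Filter Topology Asymptotics
open scoped ContDiff

namespace Pool.Agent.Lib.H37N

theorem zoomE (F : E6 × Pt → ℝ) (hF : ContDiff ℝ ∞ F) (x0 : Pt) :
    ∃ H : (ℝ × E6) × Pt → ℝ, ContDiff ℝ ∞ H ∧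
      (∀ (ρ : ℝ) (ε : E6) (ξ : Pt), F (ρ • ε, x0 + ρ • ξ) = F (0, x0) + ρ * H ((ρ, ε), ξ)) ∧
      ∀ ξ : Pt, H (0, ξ) = fderiv ℝ F (0, x0) (0, ξ) := by
  obtain ⟨H', hH', h1, h2⟩ := zoom hF x0
  refine ⟨fun q => H' (q.1.1, q.1.1 • q.1.2, q.1.2, q.2), ?_, ?_, ?_⟩
  · exact hH'.comp ((contDiff_fst.comp contDiff_fst).prodMk
      (((contDiff_fst.comp contDiff_fst).smul (contDiff_snd.comp contDiff_fst)).prodMk
        ((contDiff_snd.comp contDiff_fst).prodMk contDiff_snd)))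
  · intro ρ ε ξ
    have h := h1 ρ (ρ • ε) ε ξ rfl
    simp only [smul_eq_mul] at h
    simp only
    linarith
  · intro ξ
    have h := h2 ξ
    simp only [Prod.fst_zero, Prod.snd_zero, smul_zero]
    rw [h]
    have hd : HasFDerivAt F (fderiv ℝ F (0, x0)) ((0 : E6), x0) :=
      (hF.differentiable (by simp) _).hasFDerivAt
    have hl : HasFDerivAt (fun x : Pt => ((0 : E6), x)) (ContinuousLinearMap.inr ℝ E6 Pt) x0 :=
      hasFDerivAt_prodMk_right 0 x0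
    have hc := hd.comp x0 hl
    have he : fderiv ℝ (fun x => F (0, x)) x0 =
        (fderiv ℝ F (0, x0)).comp (ContinuousLinearMap.inr ℝ E6 Pt) := hc.fderiv
    rw [he]
    rfl

end Pool.Agent.Lib.H37N
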