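import Pool.Agent.Lib.H37P.Z20
import Pool.Agent.Lib.H37P.Z21
import Pool.Agent.Lib.H37N.T3

/-!
# H37N Z22 (M/L): the zoomed blocks

PROOF.md, S.1. `hs = h'(0)`, `c0 = B0 Y1(0) a Γ(0)`, `τ = B0 Y1(0) a Γ'(0)`, `B0 Y1(0) hs Γ(0) = -1`. Zoom `bX` and `bU` at `x0 = (a,0)`
(`zoomE`): `HX, HU`, and put, with `ξ = (hs (dj j + x.1), dj (j+1) + x.2)`,
`B_j((ρ,ε),q,x).1 = HX((ρ,ε),ξ)/hs - dj (j+1)` and `.2 = HU((ρ,ε),ξ) + qt e τ q j (.1) - dj (j+2)`.
At `(ρ,ε) = 0`: `HX = hs (dj (j+1) + x.2)`, so `.1 = x.2`; `HU = B0 Y1 Γ(0) hs (dj j + x.1) + τ (dj (j+1) + x.2) =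
-(dj j + x.1) + τ (dj (j+1) + x.2)`, so `.2 = - x.1 + tt x.2 + qpoly q j x.2`.
Jacobian: for `ρ ≠ 0` the zoomed block is the block conjugated by the affine maps `x ↦ (a + ρ hs (dj j + x.1), ρ (dj (j+1) + x.2))`
with the same linear part `diag(ρ hs, ρ)`, so its Jacobian is the Jacobian `JB(ε,V)` of `V ↦ (bX, bU + Q(bX))`, which is
the Jacobian of `V ↦ (bX (ε,V), bU (ε,V))` (shear), smooth, and `JB(0,(X,U)) = B0 Y1(0) hG(U) > 0` near `U = 0`, `= 1` at `0`. Let `LJ` be a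
global smooth function equal to `log JB` near `(0,(a,0))` (T3), zoom it: `HJ`, `J_j = HJ((ρ,ε),ξ)`. At `0`:
`J_j = (d/dU log hG)(0) (dj (j+1) + x.2)`. The identity `jac B_j = exp(ρ J_j)` holds near `0` for `ρ ≠ 0` and extends to
`ρ = 0` by continuity.
-/

open Set Filter Topology Asymptotics
open scoped ContDiff

namespace Pool.Agent.Lib.H37N

/-- affine substitution in the second variable -/
theorem z22_aff (G : E6 × Pt → ℝ) (hG : ContDiff ℝ ∞ G) (e0 : E6) (c1 c2 α β : ℝ) (x w : Pt) :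
    fderiv ℝ (fun x : Pt => G (e0, (c1 + α * x.1, c2 + β * x.2))) x w =
      fderiv ℝ G (e0, (c1 + α * x.1, c2 + β * x.2)) (0, (α * w.1, β * w.2)) := by
  have h1 : HasFDerivAt (fun x : Pt => ((e0, (c1 + α * x.1, c2 + β * x.2)) : E6 × Pt))
      ((0 : Pt →L[ℝ] E6).prod ((α • ContinuousLinearMap.fst ℝ ℝ ℝ).prod
        (β • ContinuousLinearMap.snd ℝ ℝ ℝ))) x := by
    refine (hasFDerivAt_const _ _).prodMk (HasFDerivAt.prodMk ?_ ?_)
    · exact ((hasFDerivAt_fst (𝕜 := ℝ) (p := x)).const_mul α).const_add c1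
    · exact ((hasFDerivAt_snd (𝕜 := ℝ) (p := x)).const_mul β).const_add c2
  have h2 := (hG.differentiable (by simp) (e0, (c1 + α * x.1, c2 + β * x.2))).hasFDerivAt
  have h3 := h2.comp x h1
  have h4 : (fun x : Pt => G (e0, (c1 + α * x.1, c2 + β * x.2))) =
    G ∘ (fun x : Pt => ((e0, (c1 + α * x.1, c2 + β * x.2)) : E6 × Pt)) := rfl
  rw [h4, h3.fderiv]
  simp

/-- the partial derivative in the second variable -/
theorem z22_part (G : E6 × Pt → ℝ) (hG : ContDiff ℝ ∞ G) (e0 : E6) (x w : Pt) :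
    fderiv ℝ (fun x : Pt => G (e0, x)) x w = fderiv ℝ G (e0, x) (0, w) := by
  have h := z22_aff G hG e0 0 0 1 1 x w
  simpa using h

theorem z22_shear {f1 f2 : Pt → ℝ} {φ : ℝ → ℝ} {x : Pt} (h1 : DifferentiableAt ℝ f1 x)
    (h2 : DifferentiableAt ℝ f2 x) (h3 : DifferentiableAt ℝ φ (f1 x)) :
    jac (fun v => (f1 v, f2 v + φ (f1 v))) x =
      fderiv ℝ f1 x (1, 0) * fderiv ℝ f2 x (0, 1) - fderiv ℝ f2 x (1, 0) * fderiv ℝ f1 x (0, 1) := by
  have h4 : HasFDerivAt (fun v => φ (f1 v)) (deriv φ (f1 x) • fderiv ℝ f1 x) x :=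
    h3.hasDerivAt.comp_hasFDerivAt x h1.hasFDerivAt
  have h5 : HasFDerivAt (fun v => (f1 v, f2 v + φ (f1 v)))
      ((fderiv ℝ f1 x).prod (fderiv ℝ f2 x + deriv φ (f1 x) • fderiv ℝ f1 x)) x :=
    h1.hasFDerivAt.prodMk (h2.hasFDerivAt.add h4)
  unfold jac
  rw [h5.fderiv]
  simp only [ContinuousLinearMap.prod_apply, add_apply,
    smul_apply, smul_eq_mul]
  ring

/-- the Jacobian of the uncorrected block -/
noncomputable def z22JB (G H : E6 × Pt → ℝ) (z : E6 × Pt) : ℝ :=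
  fderiv ℝ G z (0, (1, 0)) * fderiv ℝ H z (0, (0, 1)) - fderiv ℝ H z (0, (1, 0)) * fderiv ℝ G z (0, (0, 1))

theorem z22_fd (G : E6 × Pt → ℝ) (hG : ContDiff ℝ ∞ G) (w : E6 × Pt) :
    ContDiff ℝ ∞ (fun z => fderiv ℝ G z w) :=
  (hG.fderiv_right (m := ∞) (by simp)).clm_apply contDiff_const

theorem z22JB_contDiff {G H : E6 × Pt → ℝ} (hG : ContDiff ℝ ∞ G) (hH : ContDiff ℝ ∞ H) :
    ContDiff ℝ ∞ (z22JB G H) :=
  ((z22_fd G hG _).mul (z22_fd H hH _)).sub ((z22_fd H hH _).mul (z22_fd G hG _))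

/-- the Jacobian of the zoomed block -/
theorem z22_jac {G H : E6 × Pt → ℝ} (hG : ContDiff ℝ ∞ G) (hH : ContDiff ℝ ∞ H)
    {e0 : E6} {a hs ρ d0 d1 d2 c c0 : ℝ} (hhs : hs ≠ 0) (hρ : ρ ≠ 0) {φ : ℝ → ℝ}
    (hφ : Differentiable ℝ φ) (B : Pt → Pt)
    (hB1 : ∀ x : Pt, G (e0, (a + ρ * (hs * (d0 + x.1)), 0 + ρ * (d1 + x.2))) =
      a + ρ * (hs * (c + (B x).1)))
    (hB2 : ∀ x : Pt, H (e0, (a + ρ * (hs * (d0 + x.1)), 0 + ρ * (d1 + x.2))) =
      c0 + ρ * ((B x).2 - φ (B x).1 + d2)) (x : Pt) :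
    jac B x = z22JB G H (e0, (a + ρ * (hs * (d0 + x.1)), 0 + ρ * (d1 + x.2))) := by
  have e1 : ∀ x : Pt, a + ρ * (hs * (d0 + x.1)) = (a + ρ * (hs * d0)) + (ρ * hs) * x.1 :=
    fun x => by ring
  have e2 : ∀ x : Pt, 0 + ρ * (d1 + x.2) = (ρ * d1) + ρ * x.2 := fun x => by ring
  set G' : Pt → ℝ := fun x => G (e0, ((a + ρ * (hs * d0)) + (ρ * hs) * x.1, (ρ * d1) + ρ * x.2)) with hG'
  set H' : Pt → ℝ := fun x => H (e0, ((a + ρ * (hs * d0)) + (ρ * hs) * x.1, (ρ * d1) + ρ * x.2)) with hH'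
  have sG' : ContDiff ℝ ∞ G' := by
    refine hG.comp (contDiff_const.prodMk (ContDiff.prodMk ?_ ?_))
    · exact contDiff_const.add (contDiff_const.mul contDiff_fst)
    · exact contDiff_const.add (contDiff_const.mul contDiff_snd)
  have sH' : ContDiff ℝ ∞ H' := by
    refine hH.comp (contDiff_const.prodMk (ContDiff.prodMk ?_ ?_))
    · exact contDiff_const.add (contDiff_const.mul contDiff_fst)
    · exact contDiff_const.add (contDiff_const.mul contDiff_snd)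
  have hf : B = fun v => ((ρ * hs)⁻¹ * (G' v - a) - c,
      (ρ⁻¹ * (H' v - c0) - d2) + φ ((ρ * hs)⁻¹ * (G' v - a) - c)) := by
    funext v
    have b1 := hB1 v
    have b2 := hB2 v
    rw [e1 v, e2 v] at b1 b2
    have b1' : G' v = a + ρ * (hs * (c + (B v).1)) := b1
    have b2' : H' v = c0 + ρ * ((B v).2 - φ (B v).1 + d2) := b2
    have b3 : (ρ * hs)⁻¹ * (G' v - a) - c = (B v).1 := by
      rw [b1']
      field_simp
      ring
    have b4 : (ρ⁻¹ * (H' v - c0) - d2) + φ (B v).1 = (B v).2 := by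
      rw [b2']
      field_simp
      ring
    rw [b3, b4]
  have d1' : DifferentiableAt ℝ G' x := sG'.differentiable (by simp) x
  have d2' : DifferentiableAt ℝ H' x := sH'.differentiable (by simp) x
  have f1 : HasFDerivAt (fun v => (ρ * hs)⁻¹ * (G' v - a) - c) ((ρ * hs)⁻¹ • fderiv ℝ G' x) x :=
    ((d1'.hasFDerivAt.sub_const a).const_mul _).sub_const c
  have f2 : HasFDerivAt (fun v => ρ⁻¹ * (H' v - c0) - d2) (ρ⁻¹ • fderiv ℝ H' x) x :=
    ((d2'.hasFDerivAt.sub_const c0).const_mul _).sub_const d2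
  rw [hf, z22_shear f1.differentiableAt f2.differentiableAt (hφ _), f1.fderiv, f2.fderiv]
  simp only [smul_apply, smul_eq_mul]
  have g1 : ∀ w, fderiv ℝ G' x w = _ := fun w => z22_aff G hG e0 _ _ _ _ x w
  have g2 : ∀ w, fderiv ℝ H' x w = _ := fun w => z22_aff H hH e0 _ _ _ _ x w
  rw [g1, g1, g2, g2, e1 x, e2 x]
  unfold z22JB
  set p : E6 × Pt := (e0, ((a + ρ * (hs * d0)) + (ρ * hs) * x.1, (ρ * d1) + ρ * x.2)) with hp
  have s1 : ∀ (F : E6 × Pt → ℝ) (t : ℝ), fderiv ℝ F p (0, (t * (1 : ℝ), ρ * (0 : ℝ))) =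
      t * fderiv ℝ F p (0, (1, 0)) := by
    intro F t
    have h : (((0 : E6), ((t * (1 : ℝ), ρ * (0 : ℝ)) : Pt)) : E6 × Pt) = t • ((0 : E6), ((1, 0) : Pt)) := by
      ext <;> simp
    rw [h, map_smul, smul_eq_mul]
  have s2 : ∀ (F : E6 × Pt → ℝ) (t : ℝ), fderiv ℝ F p (0, (t * (0 : ℝ), ρ * (1 : ℝ))) =
      ρ * fderiv ℝ F p (0, (0, 1)) := by
    intro F t
    have h : (((0 : E6), ((t * (0 : ℝ), ρ * (1 : ℝ)) : Pt)) : E6 × Pt) = ρ • ((0 : E6), ((0, 1) : Pt)) := by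
      ext <;> simp
    rw [h, map_smul, smul_eq_mul]
  simp only [s1, s2]
  field_simp

theorem z22_qx (n e j i : ℕ) : ContDiff ℝ ∞ (fun q : QQ n e => qx q j i) := by
  by_cases h : j < 2 * n ∧ i < e + 1
  · have : (fun q : QQ n e => qx q j i) = fun q => q ⟨j, h.1⟩ ⟨i, h.2⟩ := by
      funext q
      simp [qx, h]
    rw [this]
    exact (contDiff_apply_apply ℝ ℝ (⟨j, h.1⟩ : Fin (2 * n)) (⟨i, h.2⟩ : Fin (e + 1)))
  · have : (fun q : QQ n e => qx q j i) = fun _ => 0 := by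
      funext q
      simp only [qx, dif_neg h]
    rw [this]
    exact contDiff_const

theorem z22_qt {E : Type} [NormedAddCommGroup E] [NormedSpace ℝ E] (e : ℕ) (τ : ℝ) (j : ℕ)
    {q : E → QQ (e + 3) e} {w : E → ℝ} (hq : ContDiff ℝ ∞ q) (hw : ContDiff ℝ ∞ w) :
    ContDiff ℝ ∞ (fun z => qt e τ (q z) j (w z)) := by
  unfold qt qpoly
  refine (contDiff_const.add (contDiff_const.mul hw)).add ?_
  exact ContDiff.sum fun i _ => ((z22_qx (e + 3) e j i).comp hq).mul (hw.pow i)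

theorem z22_hG {A : Pt → ℝ} (hA : ContDiff ℝ ∞ A) {Mh : ℝ × Pt → ℝ} (hM : ContDiff ℝ ∞ Mh) :
    ContDiff ℝ ∞ (hG A Mh) := by
  have h1 : ContDiff ℝ ∞ (fun t : ℝ => A (0, t)) := hA.comp (contDiff_const.prodMk contDiff_id)
  have h2 : ContDiff ℝ ∞ (deriv (fun t : ℝ => A (0, t))) := (contDiff_infty_iff_deriv.1 h1).2
  have h3 : ContDiff ℝ ∞ (fun U : ℝ => Mh (0, (0, U))) :=
    hM.comp (contDiff_const.prodMk (contDiff_const.prodMk contDiff_id))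
  exact (h2.mul h3).neg

theorem zoomed_blocks (e : ℕ) {f : PF} (h1 : ContDiff ℝ ∞ f.Th) (h2 : ContDiff ℝ ∞ f.Y1)
    (h3 : ContDiff ℝ ∞ f.W) (h4 : ContDiff ℝ ∞ f.Y2) (hW : f.W (0, 0) = 1) {A : Pt → ℝ}
    (hA : ContDiff ℝ ∞ A) (hA0 : A (0, 0) = 0) {Mh : ℝ × Pt → ℝ} (hM : ContDiff ℝ ∞ Mh)
    {a b B0 hs : ℝ} (hhs : hs = deriv (fun U => A (0, U)) 0)
    (hB : B0 * f.Y1 0 * hs * Mh (0, (0, 0)) = -1) {c0 τ s0 : ℝ}
    (hc0 : c0 = B0 * f.Y1 0 * a * Mh (0, (0, 0)))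
    (hτ : τ = B0 * f.Y1 0 * a * deriv (fun U => Mh (0, (0, U))) 0)
    (hs0 : s0 = deriv (fun U => Real.log (hG A Mh U)) 0) :
    ∃ (B : ℕ → ((ℝ × E6) × QQ (e + 3) e) × ℝ × ℝ → ℝ × ℝ)
      (J : ℕ → ((ℝ × E6) × QQ (e + 3) e) × ℝ × ℝ → ℝ),
      Blocks (e + 3) e s0 (dj e) B J ∧
      (∀ j < nb e, ∀ᶠ z : ((ℝ × E6) × QQ (e + 3) e) × ℝ × ℝ in 𝓝 ((0, 0), 0), z.1.1.1 ≠ 0 →
        jac (fun v => B j (z.1, v)) z.2 = Real.exp (z.1.1.1 * J j z)) ∧
      ∀ (ρ : ℝ) (ε : E6) (q : QQ (e + 3) e) (x : Pt) (j : ℕ), ρ ≠ 0 →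
        stp f a b B0 A Mh (Qj e a hs c0 τ ρ q) (ρ • ε) j
            (a + ρ * hs * (dj e j + x.1), ρ * (dj e (j + 1) + x.2)) =
          (a + ρ * hs * (dj e (j + 1) + (B j (((ρ, ε), q), x)).1),
            ρ * (dj e (j + 2) + (B j (((ρ, ε), q), x)).2)) := by
  have sX := contDiff_bX h1 h2 h3 h4 hA a b B0
  have sU := contDiff_bU h1 h2 h3 h4 hM b B0
  obtain ⟨HX, sHX, eHX, zHX⟩ := zoomE (bX f a b B0 A) sX (a, 0)
  obtain ⟨HU, sHU, eHU, zHU⟩ := zoomE (bU f b B0 Mh) sU (a, 0)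
  have hc : B0 * f.Y1 0 ≠ 0 := by
    intro h
    rw [h] at hB
    norm_num at hB
  have hhs0 : hs ≠ 0 := by
    intro h
    rw [h] at hB
    norm_num at hB
  have hM0 : Mh (0, (0, 0)) ≠ 0 := by
    intro h
    rw [h] at hB
    norm_num at hB
  have hX0 : bX f a b B0 A (0, (a, 0)) = a := by rw [bX_zero hW]; simp [hA0]
  have hU0 : bU f b B0 Mh (0, (a, 0)) = c0 := by rw [bU_zero hW, hc0]; ring
  have sA0 : ContDiff ℝ ∞ (fun t : ℝ => A (0, t)) := hA.comp (contDiff_const.prodMk contDiff_id)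
  have sM0 : ContDiff ℝ ∞ (fun U : ℝ => Mh (0, (0, U))) :=
    hM.comp (contDiff_const.prodMk (contDiff_const.prodMk contDiff_id))
  have dX : ∀ V ξ : Pt, fderiv ℝ (bX f a b B0 A) (0, V) (0, ξ) =
      deriv (fun U => A (0, U)) V.2 * ξ.2 := by
    intro V ξ
    rw [← z22_part _ sX]
    have e1 : (fun x : Pt => bX f a b B0 A (0, x)) = fun x => a + A (0, x.2) :=
      funext fun x => bX_zero hW A a b B0 x
    have e2 : HasFDerivAt (fun x : Pt => a + A (0, x.2))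
        (deriv (fun U => A (0, U)) V.2 • ContinuousLinearMap.snd ℝ ℝ ℝ) V := by
      have e3 : HasDerivAt (fun U => A (0, U)) (deriv (fun U => A (0, U)) V.2) V.2 :=
        (sA0.differentiable (by simp) _).hasDerivAt
      exact (e3.comp_hasFDerivAt V hasFDerivAt_snd).const_add a
    rw [e1, e2.fderiv]
    simp
  have dU : ∀ V ξ : Pt, fderiv ℝ (bU f b B0 Mh) (0, V) (0, ξ) =
      B0 * f.Y1 0 * (ξ.1 * Mh (0, (0, V.2)) +
        V.1 * (deriv (fun U => Mh (0, (0, U))) V.2 * ξ.2)) := by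
    intro V ξ
    rw [← z22_part _ sU]
    have e1 : (fun x : Pt => bU f b B0 Mh (0, x)) =
        fun x => B0 * f.Y1 0 * (x.1 * Mh (0, (0, x.2))) := by
      funext x
      rw [bU_zero hW Mh b B0 x]
      ring
    have e3 : HasDerivAt (fun U => Mh (0, (0, U))) (deriv (fun U => Mh (0, (0, U))) V.2) V.2 :=
      (sM0.differentiable (by simp) _).hasDerivAt
    have e4 : HasFDerivAt (fun x : Pt => Mh (0, (0, x.2)))
        (deriv (fun U => Mh (0, (0, U))) V.2 • ContinuousLinearMap.snd ℝ ℝ ℝ) V :=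
      e3.comp_hasFDerivAt V hasFDerivAt_snd
    have e5 := ((hasFDerivAt_fst (𝕜 := ℝ) (p := V)).mul e4).const_mul (B0 * f.Y1 0)
    have e6 : (fun x : Pt => B0 * f.Y1 0 * (x.1 * Mh (0, (0, x.2)))) =
      fun y => B0 * f.Y1 0 * ((Prod.fst : Pt → ℝ) * fun x : Pt => Mh (0, (0, x.2))) y := rfl
    rw [e1, e6, e5.fderiv]
    simp only [add_apply, smul_apply, smul_eq_mul, ContinuousLinearMap.coe_fst', ContinuousLinearMap.coe_snd']
    ring
  have vX : ∀ ξ : Pt, HX (0, ξ) = hs * ξ.2 := by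
    intro ξ
    rw [zHX, dX, hhs]
  have vU : ∀ ξ : Pt, HU (0, ξ) = B0 * f.Y1 0 * Mh (0, (0, 0)) * ξ.1 + τ * ξ.2 := by
    intro ξ
    rw [zHU, dU, hτ]
    ring
  -- the Jacobian
  have sJB := z22JB_contDiff sX sU
  have vJB : ∀ V : Pt, z22JB (bX f a b B0 A) (bU f b B0 Mh) (0, V) = B0 * f.Y1 0 * hG A Mh V.2 := by
    intro V
    unfold z22JB
    rw [dX, dX, dU, dU]
    unfold hG
    ring
  have hJB0 : B0 * f.Y1 0 * hG A Mh 0 = 1 := by
    unfold hG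
    rw [← hhs]
    linarith
  have hG0 : hG A Mh 0 ≠ 0 := by
    intro h
    rw [h] at hJB0
    norm_num at hJB0
  obtain ⟨LJ, sLJ, eLJ⟩ := localise_at (x₀ := ((0, (a, 0)) : E6 × Pt))
    (f := fun z => Real.log (z22JB (bX f a b B0 A) (bU f b B0 Mh) z)) (by
      have h5 : ∀ᶠ z in 𝓝 ((0, (a, 0)) : E6 × Pt), z22JB (bX f a b B0 A) (bU f b B0 Mh) z ≠ 0 := by
        refine sJB.continuous.continuousAt.eventually_ne ?_
        rw [vJB]
        show B0 * f.Y1 0 * hG A Mh 0 ≠ 0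
        rw [hJB0]
        norm_num
      filter_upwards [h5] with z hz
      exact sJB.contDiffAt.log hz)
  obtain ⟨HJ, sHJ, eHJ, zHJ⟩ := zoomE LJ sLJ (a, 0)
  have hL0 : LJ (0, (a, 0)) = 0 := by
    rw [eLJ.self_of_nhds]
    show Real.log (z22JB (bX f a b B0 A) (bU f b B0 Mh) (0, (a, 0))) = 0
    rw [vJB]
    show Real.log (B0 * f.Y1 0 * hG A Mh 0) = 0
    rw [hJB0, Real.log_one]
  have vJ : ∀ ξ : Pt, HJ (0, ξ) = s0 * ξ.2 := by
    intro ξ
    rw [zHJ, ← z22_part _ sLJ]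
    have t1 : Tendsto (fun x : Pt => ((0, x) : E6 × Pt)) (𝓝 (a, 0)) (𝓝 (0, (a, 0))) :=
      (Continuous.prodMk continuous_const continuous_id).tendsto _
    have t2 : (fun x : Pt => LJ (0, x)) =ᶠ[𝓝 ((a, 0) : Pt)]
        fun x => Real.log (B0 * f.Y1 0 * hG A Mh x.2) := by
      filter_upwards [t1.eventually eLJ] with x hx
      rw [hx, vJB]
    rw [t2.fderiv_eq]
    have dG : HasDerivAt (hG A Mh) (deriv (hG A Mh) 0) 0 :=
      ((z22_hG hA hM).differentiable (by simp) 0).hasDerivAt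
    have d1 : HasDerivAt (fun U => Real.log (hG A Mh U)) (deriv (hG A Mh) 0 / hG A Mh 0) 0 :=
      dG.log hG0
    have d2 : HasDerivAt (fun U => Real.log (B0 * f.Y1 0 * hG A Mh U))
        (B0 * f.Y1 0 * deriv (hG A Mh) 0 / (B0 * f.Y1 0 * hG A Mh 0)) 0 :=
      (dG.const_mul (B0 * f.Y1 0)).log (mul_ne_zero hc hG0)
    have d3 : HasFDerivAt (fun x : Pt => Real.log (B0 * f.Y1 0 * hG A Mh x.2))
        ((B0 * f.Y1 0 * deriv (hG A Mh) 0 / (B0 * f.Y1 0 * hG A Mh 0)) •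
          ContinuousLinearMap.snd ℝ ℝ ℝ) ((a, 0) : Pt) :=
      HasDerivAt.comp_hasFDerivAt (h₂ := fun U => Real.log (B0 * f.Y1 0 * hG A Mh U))
        ((a, 0) : Pt) d2 hasFDerivAt_snd
    rw [d3.fderiv, hs0, d1.deriv, mul_div_mul_left _ _ hc]
    simp
  set xi : ℕ → Pt → Pt := fun j x => (hs * (dj e j + x.1), dj e (j + 1) + x.2) with hxi
  set B1 : ℕ → ((ℝ × E6) × QQ (e + 3) e) × ℝ × ℝ → ℝ := fun j z =>
    hs⁻¹ * HX (z.1.1, xi j z.2) - dj e (j + 1) with hB1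
  have sxi : ∀ j, ContDiff ℝ ∞ (xi j) := fun j =>
    (contDiff_const.mul (contDiff_const.add contDiff_fst)).prodMk (contDiff_const.add contDiff_snd)
  have szz : ∀ j, ContDiff ℝ ∞ (fun z : ((ℝ × E6) × QQ (e + 3) e) × ℝ × ℝ =>
      (z.1.1, xi j z.2)) := fun j =>
    (contDiff_fst.comp contDiff_fst).prodMk ((sxi j).comp contDiff_snd)
  have sB1 : ∀ j, ContDiff ℝ ∞ (B1 j) := fun j =>
    (contDiff_const.mul (sHX.comp (szz j))).sub contDiff_const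
  refine ⟨fun j z => (B1 j z, HU (z.1.1, xi j z.2) + qt e τ z.1.2 j (B1 j z) - dj e (j + 2)),
    fun j z => HJ (z.1.1, xi j z.2), ⟨?_, ?_, ?_, ?_⟩, ?_, ?_⟩
  · intro j _
    exact (sB1 j).prodMk (((sHU.comp (szz j)).add
      (z22_qt e τ j (contDiff_snd.comp contDiff_fst) (sB1 j))).sub contDiff_const)
  · intro j _
    exact sHJ.comp (szz j)
  · intro j _ q x u
    have v1 : B1 j ((0, q), (x, u)) = u := by
      show hs⁻¹ * HX (0, xi j (x, u)) - dj e (j + 1) = u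
      rw [vX]
      show hs⁻¹ * (hs * (dj e (j + 1) + u)) - dj e (j + 1) = u
      field_simp
      ring
    refine Prod.ext v1 ?_
    show HU (0, xi j (x, u)) + qt e τ q j (B1 j ((0, q), (x, u))) - dj e (j + 2) = _
    rw [v1, vU]
    show B0 * f.Y1 0 * Mh (0, (0, 0)) * (hs * (dj e j + x)) + τ * (dj e (j + 1) + u) +
      (dj e j - τ * dj e (j + 1) + dj e (j + 2) + (ttc e - τ) * u + qpoly e q j u) -
        dj e (j + 2) = -x + 2 * Real.cos (sth (e + 3)) * u + qpoly e q j u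
    have e7 : B0 * f.Y1 0 * Mh (0, (0, 0)) * (hs * (dj e j + x)) = -(dj e j + x) := by
      calc B0 * f.Y1 0 * Mh (0, (0, 0)) * (hs * (dj e j + x))
          = (B0 * f.Y1 0 * hs * Mh (0, (0, 0))) * (dj e j + x) := by ring
        _ = _ := by rw [hB]; ring
    rw [e7]
    unfold ttc
    ring
  · intro j _ q x u
    show HJ (0, xi j (x, u)) = _
    rw [vJ]
    show s0 * (dj e (j + 1) + u) = _
    ring
  · intro j _
    have t1 : Tendsto (fun z : ((ℝ × E6) × QQ (e + 3) e) × ℝ × ℝ =>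
        ((z.1.1.1 • z.1.1.2, (a, 0) + z.1.1.1 • xi j z.2) : E6 × Pt))
        (𝓝 ((0, 0), 0)) (𝓝 (0, (a, 0))) := by
      have c1 : Continuous (fun z : ((ℝ × E6) × QQ (e + 3) e) × ℝ × ℝ =>
        ((z.1.1.1 • z.1.1.2, (a, 0) + z.1.1.1 • xi j z.2) : E6 × Pt)) := by
        have c2 := (sxi j).continuous
        fun_prop
      have c3 := c1.tendsto ((0, 0), 0)
      simpa using c3
    filter_upwards [t1.eventually eLJ, t1.eventually (sJB.continuous.continuousAt.eventually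
      (lt_mem_nhds (a := 0) (by
        rw [vJB]
        show 0 < B0 * f.Y1 0 * hG A Mh 0
        rw [hJB0]
        norm_num)))] with z hz hpos hρ
    obtain ⟨⟨⟨ρ, ε⟩, q⟩, x⟩ := z
    have hρ' : ρ ≠ 0 := hρ
    have hz' : LJ (ρ • ε, (a, 0) + ρ • xi j x) =
      Real.log (z22JB (bX f a b B0 A) (bU f b B0 Mh) (ρ • ε, (a, 0) + ρ • xi j x)) := hz
    have hpos' : 0 < z22JB (bX f a b B0 A) (bU f b B0 Mh) (ρ • ε, (a, 0) + ρ • xi j x) := hpos
    have hJ : ρ * HJ ((ρ, ε), xi j x) =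
        Real.log (z22JB (bX f a b B0 A) (bU f b B0 Mh) (ρ • ε, (a, 0) + ρ • xi j x)) := by
      rw [← hz', eHJ, hL0, zero_add]
    show jac (fun v : Pt => (B1 j (((ρ, ε), q), v), HU ((ρ, ε), xi j v) +
      qt e τ q j (B1 j (((ρ, ε), q), v)) - dj e (j + 2))) x = Real.exp (ρ * HJ ((ρ, ε), xi j x))
    rw [hJ, Real.exp_log hpos']
    have hxx : ∀ v : Pt, ((a, 0) : Pt) + ρ • xi j v =
        (a + ρ * (hs * (dj e j + v.1)), 0 + ρ * (dj e (j + 1) + v.2)) := fun v => rfl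
    rw [hxx]
    refine z22_jac sX sU hhs0 hρ' (φ := fun w => qt e τ q j w) (c := dj e (j + 1)) (c0 := c0)
      (d2 := dj e (j + 2)) ?_ _ ?_ ?_ x
    · exact (z22_qt e τ j contDiff_const contDiff_id).differentiable (by simp)
    · intro v
      rw [← hxx, eHX, hX0]
      show a + ρ * HX ((ρ, ε), xi j v) =
        a + ρ * (hs * (dj e (j + 1) + (hs⁻¹ * HX ((ρ, ε), xi j v) - dj e (j + 1))))
      field_simp
      ring
    · intro v
      rw [← hxx, eHU, hU0]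
      show c0 + ρ * HU ((ρ, ε), xi j v) =
        c0 + ρ * ((HU ((ρ, ε), xi j v) + qt e τ q j (B1 j (((ρ, ε), q), v)) - dj e (j + 2)) -
          qt e τ q j (B1 j (((ρ, ε), q), v)) + dj e (j + 2))
      ring
  · intro ρ ε q x j hρ
    have hxx : ((a, 0) : Pt) + ρ • xi j x =
        (a + ρ * hs * (dj e j + x.1), ρ * (dj e (j + 1) + x.2)) := by
      show (a + ρ * (hs * (dj e j + x.1)), 0 + ρ * (dj e (j + 1) + x.2)) = _
      rw [zero_add, mul_assoc]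
    rw [← hxx]
    unfold stp
    rw [eHX, eHU, hX0, hU0]
    have b1 : a + ρ * HX ((ρ, ε), xi j x) =
        a + ρ * hs * (dj e (j + 1) + B1 j (((ρ, ε), q), x)) := by
      show _ = a + ρ * hs * (dj e (j + 1) + (hs⁻¹ * HX ((ρ, ε), xi j x) - dj e (j + 1)))
      field_simp
      ring
    refine Prod.ext b1 ?_
    show c0 + ρ * HU ((ρ, ε), xi j x) + Qj e a hs c0 τ ρ q j (a + ρ * HX ((ρ, ε), xi j x)) =
      ρ * (dj e (j + 2) + (HU ((ρ, ε), xi j x) + qt e τ q j (B1 j (((ρ, ε), q), x)) -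
        dj e (j + 2)))
    unfold Qj
    have b2 : (a + ρ * HX ((ρ, ε), xi j x) - a) / (ρ * hs) - dj e (j + 1) =
        B1 j (((ρ, ε), q), x) := by
      rw [b1]
      field_simp
      ring
    rw [b2]
    ring

end Pool.Agent.Lib.H37N
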