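import Pool.Agent.Lib.H37P.ZDefs
import Pool.Agent.Lib.H37P.P04
import Pool.Agent.Lib.H37P.P09

/-!
# H37N Z24 (S/M): the block for an arbitrary admissible perturbation

`pass_XU` for `g`, the whole path is in `VO`, where `ψ ∘ g = g` (`Place.eqV`), so the same for `ψ ∘ g`; then
`Place.transition` for `v = (ξ,η) ∈ B`.
-/

open Set Filter Topology Asymptotics
open scoped ContDiff

namespace Pool.Agent.Lib.H37N

theorem block {g : Pt → Pt} {s : Fr} {Z : Set Pt} {b a : ℝ} {k l : ℕ} {r : ℝ} {D B : Set Pt}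
    {Li : Pt → Pt} (hN : Near g) (hs : IsFr g s) (hZ : Z ⊆ interior FF)
    (hp : Place g s Z b a k l r D B Li) {f : PF} {rf : ℝ} (hf : IsPF g s f rf) :
    ∃ δ > 0, ∀ ψ, Adm D ψ → ∀ (n m : ℕ) (X U : ℝ), |e1 s n| < δ → |e2 g s m| < δ →
      |X| ≤ 1 → |U + b| ≤ 1 →
      ((xi0 s m + (EE g s n m)⁻¹ * XiF f b (e1 s n) (e2 g s m) (e4 s n m) (BB g s n m) X U,
          etaF f b (e1 s n) (e2 g s m) X U) : Pt) ∈ B →
      (ψ ∘ g)^[n + s.kS + m + (k + 1 + l)] (s.κ Sy.P (Yc g s f b n m (X, U))) =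
        s.κ Sy.P (PlM g s l (ψ (Li (TT g s b k l
          (xi0 s m + (EE g s n m)⁻¹ * XiF f b (e1 s n) (e2 g s m) (e4 s n m) (BB g s n m) X U,
          etaF f b (e1 s n) (e2 g s m) X U))))) ∧
      ∀ i ≤ n + s.kS + m + (k + 1 + l),
        (ψ ∘ g)^[i] (s.κ Sy.P (Yc g s f b n m (X, U))) ∈ VO ∪ Z := by
  obtain ⟨δ, hδ, hpass⟩ := pass_XU hN hs hf
  refine ⟨δ, hδ, fun ψ hψ n m X U h1 h2 hX hU hB => ?_⟩
  obtain ⟨h3, h4⟩ := hpass n m b X U h1 h2 hX hU
  have hV : ∀ z ∈ VO, (ψ ∘ g) z = g z := fun z hz =>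
    hp.eqV hN hZ hψ z (hz.elim (fun h => Or.inl (interior_subset h))
      (fun h => Or.inr (interior_subset h)))
  have key : ∀ i ≤ n + s.kS + m,
      (ψ ∘ g)^[i] (s.κ Sy.P (Yc g s f b n m (X, U))) =
        g^[i] (s.κ Sy.P (Yc g s f b n m (X, U))) := by
    intro i
    induction i with
    | zero => intro _; rfl
    | succ i ih =>
      intro hi
      have ih' := ih (by omega)
      rw [Function.iterate_succ_apply', Function.iterate_succ_apply', ih']
      exact hV _ (h4 i (by omega))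
  obtain ⟨t1, t2, -, t4⟩ := hp.transition hN hZ hψ hB
  have h5 : (ψ ∘ g)^[n + s.kS + m] (s.κ Sy.P (Yc g s f b n m (X, U))) =
      s.κ Sy.Q (xi0 s m + (EE g s n m)⁻¹ * XiF f b (e1 s n) (e2 g s m) (e4 s n m) (BB g s n m) X U,
          b + etaF f b (e1 s n) (e2 g s m) X U) := by
    rw [key _ le_rfl]
    exact h3
  refine ⟨?_, fun i hi => ?_⟩
  · rw [add_comm (n + s.kS + m) (k + 1 + l), Function.iterate_add_apply, h5]
    rw [← t1]
    exact t2
  · rcases le_or_gt i (n + s.kS + m) with hle | hgt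
    · rw [key i hle]
      exact Or.inl (h4 i hle)
    · obtain ⟨j, rfl⟩ := Nat.exists_eq_add_of_lt hgt
      have e : n + s.kS + m + j + 1 = (j + 1) + (n + s.kS + m) := by omega
      rw [e, Function.iterate_add_apply, h5]
      exact t4 (j + 1) (by omega)

end Pool.Agent.Lib.H37N
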