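import Pool.Agent.Lib.H37P.ZDefs
import Pool.Agent.Lib.H37P.P05
import Pool.Agent.Lib.H37P.Z20

/-!
# H37N Z25 (M): the family of perturbations of Stage II

`χ_j` = smooth bump functions on the plane, `= 1` on `|X - X_j| ≤ ρ|hs|/5`, `|y| ≤ r1`, support in `|X - X_j| ≤ ρ|hs|/3`,
`|y| ≤ 2 r1`, `X_j = a + ρ hs dj (j+1)`; pairwise disjoint supports (`dj_sep`), all supports in the closed ball of radius
`min (r/2) (rF/2)` around `(a,0)` by the hypothesis on `ρ` and the choice of `r1`.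
`Ψ(p,(X,y)) = (X, y + ∑_j χ_j(X,y) phS_j(p,X))` is smooth, `Ψ(0,v) = v` because `Nn(0,X) = 0` for `|X - a| < rF`.
`Place.family`.
-/

open Set Filter Topology Asymptotics
open scoped ContDiff

namespace Pool.Agent.Lib.H37N

theorem z25_bump {r1 r2 : ℝ} (h1 : 0 < r1) (h2 : r1 < r2) : ∃ χ : ℝ → ℝ, ContDiff ℝ ∞ χ ∧
    (∀ x, |x| ≤ r1 → χ x = 1) ∧ ∀ x, r2 ≤ |x| → χ x = 0 := by
  let φ : ContDiffBump (0 : ℝ) := ⟨r1, r2, h1, h2⟩
  refine ⟨φ, φ.contDiff, fun x hx => ?_, fun x hx => ?_⟩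
  · apply φ.one_of_mem_closedBall
    rw [mem_closedBall_zero_iff, Real.norm_eq_abs]
    exact hx
  · apply φ.zero_of_le_dist
    rw [dist_zero_right, Real.norm_eq_abs]
    exact hx

theorem z25_dj_bound (e j : ℕ) : |dj e j| ≤ ((nb e : ℝ) - 1) / 2 := by
  have hpos : 0 < nb e := by unfold nb; omega
  have h1 : j % nb e < nb e := Nat.mod_lt _ hpos
  have h2 : ((j % nb e : ℕ) : ℝ) ≤ (nb e : ℝ) - 1 := by
    have h3 : j % nb e + 1 ≤ nb e := h1
    have h4 : ((j % nb e + 1 : ℕ) : ℝ) ≤ (nb e : ℝ) := Nat.cast_le.2 h3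
    rw [Nat.cast_add, Nat.cast_one] at h4
    linarith
  have h3 : (0 : ℝ) ≤ ((j % nb e : ℕ) : ℝ) := Nat.cast_nonneg _
  unfold dj
  rw [abs_le]
  constructor <;> linarith

theorem z25_qx_zero {n e : ℕ} (j i : ℕ) : qx (0 : QQ n e) j i = 0 := by
  unfold qx
  split_ifs <;> simp

theorem z25_qpoly_zero (e j : ℕ) (u : ℝ) : qpoly e 0 j u = 0 := by
  unfold qpoly
  simp [z25_qx_zero]

theorem z25_qx_smooth {n e : ℕ} (j i : ℕ) : ContDiff ℝ ∞ (fun q : QQ n e => qx q j i) := by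
  unfold qx
  split_ifs with h
  · fun_prop
  · exact contDiff_const

theorem z25_phS_smooth (e : ℕ) (s : Fr) {f : PF} (hTh : ContDiff ℝ ∞ f.Th) {Nn : Pt → ℝ}
    (hNn : ContDiff ℝ ∞ Nn) (a b hs c0 τ ρ : ℝ) (j : ℕ) :
    ContDiff ℝ ∞ (fun z : PS e × ℝ => phS e s f Nn a b hs c0 τ ρ j z.1 z.2) := by
  have hu : ContDiff ℝ ∞ (fun z : PS e × ℝ => (z.2 - a) / (ρ * hs) - dj e (j + 1)) :=
    ((contDiff_snd.sub contDiff_const).div_const _).sub contDiff_const
  have h1 : ContDiff ℝ ∞ (fun z : PS e × ℝ => Nn (z.1.1, z.2)) :=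
    hNn.comp ((contDiff_fst.comp contDiff_fst).prodMk contDiff_snd)
  have h2 : ContDiff ℝ ∞ (fun z : PS e × ℝ => z.1.2.1) := by fun_prop
  have h3 : ContDiff ℝ ∞ (fun z : PS e × ℝ => z.1.2.2.1 * z.2) := by fun_prop
  have h4 : ContDiff ℝ ∞ (fun z : PS e × ℝ => z.1.2.2.2.1) := by fun_prop
  have h5 : ContDiff ℝ ∞ (fun z : PS e × ℝ => z.1.2.2.2.2) := by fun_prop
  have hq : ContDiff ℝ ∞ (fun z : PS e × ℝ =>
      qpoly e z.1.2.2.2.2 j ((z.2 - a) / (ρ * hs) - dj e (j + 1))) := by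
    unfold qpoly
    refine ContDiff.sum fun i _ => ?_
    exact ((z25_qx_smooth j i).comp h5).mul (hu.pow i)
  have hqt : ContDiff ℝ ∞ (fun z : PS e × ℝ =>
      qt e τ 0 j ((z.2 - a) / (ρ * hs) - dj e (j + 1))) := by
    unfold qt
    simp only [z25_qpoly_zero, add_zero]
    exact contDiff_const.add (contDiff_const.mul hu)
  unfold phS
  exact ((h1.neg.add (h2.mul (contDiff_const.add (hTh.comp h3)))).add
    (h4.mul (contDiff_const.add (contDiff_const.mul hqt)))).add (contDiff_const.mul hq)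

theorem z25_phS_zero (e : ℕ) (s : Fr) (f : PF) {Nn : Pt → ℝ} (a b hs c0 τ ρ : ℝ) (j : ℕ) {X : ℝ}
    (hX : Nn (0, X) = 0) : phS e s f Nn a b hs c0 τ ρ j 0 X = 0 := by
  unfold phS
  simp [hX, z25_qpoly_zero]

theorem family_S {g : Pt → Pt} {s : Fr} {Z : Set Pt} {b a : ℝ} {k l : ℕ} {r : ℝ} {D B : Set Pt}
    {Li : Pt → Pt} (hp : Place g s Z b a k l r D B Li) {f : PF} (hTh : ContDiff ℝ ∞ f.Th)
    {Nn : Pt → ℝ} (hNn : ContDiff ℝ ∞ Nn) {rF : ℝ} (hrF : 0 < rF)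
    (hN0 : ∀ X : ℝ, |X - a| < rF → Nn (0, X) = 0) (e : ℕ) {hs c0 τ ρ : ℝ} (hhs : hs ≠ 0)
    (hρ : 0 < ρ) (hρr : ρ * |hs| * (nb e + 1) < r / 2) (hρF : ρ * |hs| * (nb e + 1) < rF) (R : ℕ) :
    ∃ r1 > 0, ∀ ε > 0, ∀ᶠ p in 𝓝 (0 : PS e), ∃ ψ : Pt → Pt, Small R ε ψ ∧ Adm D ψ ∧
      ∀ j < nb e, ∀ v : Pt, |v.1 - (a + ρ * hs * dj e (j + 1))| ≤ ρ * |hs| / 5 → |v.2| ≤ r1 →
        v ∈ Metric.ball ((a, 0) : Pt) (r / 2) ∧
        PlM g s l (ψ (Li v)) = (v.1, v.2 + phS e s f Nn a b hs c0 τ ρ j p v.1) := by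
  have hr := hp.r_pos
  set w : ℝ := ρ * |hs| with hw
  have hwpos : 0 < w := mul_pos hρ (abs_pos.2 hhs)
  set Xc : ℕ → ℝ := fun j => a + ρ * hs * dj e (j + 1) with hXc
  have hnb1 : (1 : ℝ) ≤ (nb e : ℝ) := by
    have : 1 ≤ nb e := by unfold nb; omega
    exact_mod_cast this
  have habs : ∀ j, |Xc j - a| ≤ w * (((nb e : ℝ) - 1) / 2) := by
    intro j
    have h1 : Xc j - a = ρ * hs * dj e (j + 1) := by simp [hXc]
    rw [h1, abs_mul, abs_mul, abs_of_pos hρ]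
    exact mul_le_mul_of_nonneg_left (z25_dj_bound e (j + 1)) hwpos.le
  -- a point close to a centre is close to a
  have hclose : ∀ (j : ℕ) (X : ℝ), |X - Xc j| ≤ w / 3 → |X - a| < w * ((nb e : ℝ) + 1) := by
    intro j X hX
    have h1 : |X - a| ≤ |X - Xc j| + |Xc j - a| := abs_sub_le _ _ _
    have h2 := habs j
    nlinarith
  obtain ⟨χ1, hχ1, hχ1one, hχ1zero⟩ := z25_bump (r1 := w / 5) (r2 := w / 3) (by positivity) (by linarith)
  obtain ⟨χ2, hχ2, hχ2one, hχ2zero⟩ := z25_bump (r1 := r / 8) (r2 := r / 4) (by positivity) (by linarith)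
  set Ψ : PS e × Pt → Pt := fun z => (z.2.1, z.2.2 + ∑ j ∈ Finset.range (nb e),
    (χ1 (z.2.1 - Xc j) * χ2 z.2.2) * phS e s f Nn a b hs c0 τ ρ j z.1 z.2.1) with hΨdef
  have hΨ : ContDiff ℝ ∞ Ψ := by
    refine ContDiff.prodMk (by fun_prop) (ContDiff.add (by fun_prop) (ContDiff.sum fun j _ => ?_))
    have h1 : ContDiff ℝ ∞ (fun z : PS e × Pt => z.2.1 - Xc j) := by fun_prop
    have h2 : ContDiff ℝ ∞ (fun z : PS e × Pt => z.2.2) := by fun_prop
    have h3 : ContDiff ℝ ∞ (fun z : PS e × Pt => (z.1, z.2.1)) := by fun_prop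
    exact ((hχ1.comp h1).mul (hχ2.comp h2)).mul
      ((z25_phS_smooth e s hTh hNn a b hs c0 τ ρ j).comp h3)
  have h0 : ∀ v, Ψ (0, v) = v := by
    intro v
    have hz : ∑ j ∈ Finset.range (nb e),
        (χ1 (v.1 - Xc j) * χ2 v.2) * phS e s f Nn a b hs c0 τ ρ j 0 v.1 = 0 := by
      refine Finset.sum_eq_zero fun j _ => ?_
      by_cases hX : w / 3 ≤ |v.1 - Xc j|
      · rw [hχ1zero _ hX]
        ring
      · have h1 := hclose j v.1 (not_le.1 hX).le
        rw [z25_phS_zero e s f a b hs c0 τ ρ j (hN0 _ (h1.trans hρF))]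
        ring
    show (v.1, v.2 + _) = v
    rw [hz, add_zero]
  have hsupp : ∀ (p : PS e) (v : Pt), v ∉ Metric.closedBall ((a, 0) : Pt) (r / 2) → Ψ (p, v) = v := by
    intro p v hv
    have hz : ∑ j ∈ Finset.range (nb e),
        (χ1 (v.1 - Xc j) * χ2 v.2) * phS e s f Nn a b hs c0 τ ρ j p v.1 = 0 := by
      refine Finset.sum_eq_zero fun j _ => ?_
      by_cases hX : w / 3 ≤ |v.1 - Xc j|
      · rw [hχ1zero _ hX]
        ring
      · have h1 := hclose j v.1 (not_le.1 hX).le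
        by_cases hY : r / 4 ≤ |v.2|
        · rw [hχ2zero _ hY]
          ring
        · exfalso
          apply hv
          rw [Metric.mem_closedBall, Prod.dist_eq]
          refine max_le ?_ ?_
          · show dist v.1 a ≤ r / 2
            rw [Real.dist_eq]
            linarith
          · show dist v.2 0 ≤ r / 2
            rw [Real.dist_eq, sub_zero]
            linarith [not_le.1 hY]
    show (v.1, v.2 + _) = v
    rw [hz, add_zero]
  refine ⟨r / 8, by positivity, fun ε hε => ?_⟩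
  filter_upwards [hp.family Ψ hΨ h0 hsupp R hε] with p hψ
  obtain ⟨ψ, hS, hA, hP⟩ := hψ
  refine ⟨ψ, hS, hA, fun j hj v hv1 hv2 => ?_⟩
  have hv1' : |v.1 - Xc j| ≤ w / 5 := hv1
  have h1 := hclose j v.1 (hv1'.trans (by linarith))
  have hball : v ∈ Metric.ball ((a, 0) : Pt) (r / 2) := by
    rw [Metric.mem_ball, Prod.dist_eq]
    refine max_lt ?_ ?_
    · show dist v.1 a < r / 2
      rw [Real.dist_eq]
      linarith
    · show dist v.2 0 < r / 2
      rw [Real.dist_eq, sub_zero]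
      linarith
  refine ⟨hball, ?_⟩
  rw [hP v (Metric.ball_subset_ball (by linarith) hball)]
  have hsum : ∑ i ∈ Finset.range (nb e),
      (χ1 (v.1 - Xc i) * χ2 v.2) * phS e s f Nn a b hs c0 τ ρ i p v.1 =
      phS e s f Nn a b hs c0 τ ρ j p v.1 := by
    rw [Finset.sum_eq_single j]
    · rw [hχ1one _ hv1', hχ2one _ hv2]
      ring
    · intro i hi hij
      have hi' : i < nb e := Finset.mem_range.1 hi
      have hmod : (i + 1) % nb e ≠ (j + 1) % nb e := by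
        intro h
        have hm : (i + 1) ≡ (j + 1) [MOD nb e] := h
        have hm2 : i ≡ j [MOD nb e] := Nat.ModEq.add_right_cancel' 1 hm
        exact hij (Nat.ModEq.eq_of_lt_of_lt hm2 hi' hj)
      have hsep := dj_sep e hmod
      have h2 : w ≤ |Xc i - Xc j| := by
        have h3 : Xc i - Xc j = ρ * hs * (dj e (i + 1) - dj e (j + 1)) := by
          simp only [hXc]
          ring
        rw [h3, abs_mul, abs_mul, abs_of_pos hρ]
        have := mul_le_mul_of_nonneg_left hsep hwpos.le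
        linarith
      have h4 : |Xc i - Xc j| ≤ |v.1 - Xc i| + |v.1 - Xc j| := by
        have := abs_sub_le (Xc i) v.1 (Xc j)
        rwa [abs_sub_comm (Xc i) v.1] at this
      rw [hχ1zero _ (by linarith)]
      ring
    · intro hn
      exact absurd (Finset.mem_range.2 hj) hn
  show (v.1, v.2 + _) = _
  rw [hsum]

end Pool.Agent.Lib.H37N
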