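import Pool.Agent.Lib.H37P.Z22
import Pool.Agent.Lib.H37N.SA7

/-!
# H37N Z23 (M): Stage II in the coordinates `(X,U)`

`zoomed_blocks` and `as2` (with `P = ℝ × E6`, `ρ = Prod.fst`, `d = dj e`, `n = e + 3`). Fix `δ1` so small that for `‖(ρ,ε')‖ < δ1`, `‖q‖ < δ1` the
zoomed orbit of `0` stays within `1/10` of `0` up to `N` (continuity), and AS2 gives `q`, `‖q‖ < min 1 δ1`. Take any
`0 < ρ < min δ1 ρ1`, `η = ρ δ1` (so `ε' = ρ⁻¹ ε` is small). The conclusion is transported by the affine zoom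
`x ↦ (a + ρ hs (dj 0 + x.1), ρ (dj 1 + x.2))` (`dj N = dj 0`, `dj (N+1) = dj 1`).
-/

open Set Filter Topology Asymptotics
open scoped ContDiff

namespace Pool.Agent.Lib.H37N

/-- the conjugation of the composition of the blocks by the affine zoom -/
theorem z23_conj {e : ℕ} {f : PF} {A : Pt → ℝ} {Mh : ℝ × Pt → ℝ} {a b B0 hs c0 τ : ℝ}
    {B : ℕ → ((ℝ × E6) × QQ (e + 3) e) × ℝ × ℝ → ℝ × ℝ}
    (hB : ∀ (ρ : ℝ) (ε : E6) (q : QQ (e + 3) e) (x : Pt) (j : ℕ), ρ ≠ 0 →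
        stp f a b B0 A Mh (Qj e a hs c0 τ ρ q) (ρ • ε) j
            (a + ρ * hs * (dj e j + x.1), ρ * (dj e (j + 1) + x.2)) =
          (a + ρ * hs * (dj e (j + 1) + (B j (((ρ, ε), q), x)).1),
            ρ * (dj e (j + 2) + (B j (((ρ, ε), q), x)).2)))
    {ρ : ℝ} (hρ : ρ ≠ 0) (ε : E6) (q : QQ (e + 3) e) (x : Pt) (j : ℕ) :
    sto f a b B0 A Mh (Qj e a hs c0 τ ρ q) (ρ • ε) j
        (a + ρ * hs * (dj e 0 + x.1), ρ * (dj e 1 + x.2)) =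
      (a + ρ * hs * (dj e j + (st B j (((ρ, ε), q), x)).1),
        ρ * (dj e (j + 1) + (st B j (((ρ, ε), q), x)).2)) := by
  induction j with
  | zero => rfl
  | succ j ih =>
    have h1 : sto f a b B0 A Mh (Qj e a hs c0 τ ρ q) (ρ • ε) (j + 1)
        (a + ρ * hs * (dj e 0 + x.1), ρ * (dj e 1 + x.2)) =
        stp f a b B0 A Mh (Qj e a hs c0 τ ρ q) (ρ • ε) j
          (sto f a b B0 A Mh (Qj e a hs c0 τ ρ q) (ρ • ε) j
            (a + ρ * hs * (dj e 0 + x.1), ρ * (dj e 1 + x.2))) := rfl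
    have h2 : st B (j + 1) (((ρ, ε), q), x) = B j (((ρ, ε), q), st B j (((ρ, ε), q), x)) := rfl
    rw [h1, ih, hB ρ ε q _ j hρ, h2]

theorem stageII_local {e : ℕ} (he : 1 ≤ e) {f : PF} (h1 : ContDiff ℝ ∞ f.Th)
    (h2 : ContDiff ℝ ∞ f.Y1) (h3 : ContDiff ℝ ∞ f.W) (h4 : ContDiff ℝ ∞ f.Y2)
    (hW : f.W (0, 0) = 1) {A : Pt → ℝ}
    (hA : ContDiff ℝ ∞ A) (hA0 : A (0, 0) = 0) {Mh : ℝ × Pt → ℝ} (hM : ContDiff ℝ ∞ Mh)
    {a b B0 hs : ℝ} (hhs : hs = deriv (fun U => A (0, U)) 0)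
    (hB : B0 * f.Y1 0 * hs * Mh (0, (0, 0)) = -1) {c0 τ s0 : ℝ}
    (hc0 : c0 = B0 * f.Y1 0 * a * Mh (0, (0, 0)))
    (hτ : τ = B0 * f.Y1 0 * a * deriv (fun U => Mh (0, (0, U))) 0)
    (hs0 : s0 = deriv (fun U => Real.log (hG A Mh U)) 0) (hne : s0 ≠ 0) {ρ1 : ℝ} (hρ1 : 0 < ρ1) :
    ∃ ρ : ℝ, 0 < ρ ∧ ρ < ρ1 ∧ ∃ η > 0, ∀ ε : E6, ‖ε‖ < η → ∃ q : QQ (e + 3) e, ‖q‖ < 1 ∧
      (∀ j ≤ nb e,
        |(sto f a b B0 A Mh (Qj e a hs c0 τ ρ q) ε j (a + ρ * hs * dj e 0, ρ * dj e 1)).1 -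
          (a + ρ * hs * dj e j)| < ρ * |hs| / 10 ∧
        |(sto f a b B0 A Mh (Qj e a hs c0 τ ρ q) ε j (a + ρ * hs * dj e 0, ρ * dj e 1)).2 -
          ρ * dj e (j + 1)| < ρ / 10) ∧
      (fun V : Pt => sto f a b B0 A Mh (Qj e a hs c0 τ ρ q) ε (nb e) V - V) =O[
        𝓝 (a + ρ * hs * dj e 0, ρ * dj e 1)]
        fun V => ‖V - (a + ρ * hs * dj e 0, ρ * dj e 1)‖ ^ (e + 1) := by
  have hhs0 : hs ≠ 0 := by
    rintro rfl
    simp at hB
  obtain ⟨B, J, hBl, hjac, hconj⟩ := zoomed_blocks e h1 h2 h3 h4 hW hA hA0 hM hhs hB hc0 hτ hs0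
  have hn2 : 2 ≤ e + 3 := by omega
  -- the orbit of `0` is small
  have hsm : ∀ᶠ z : (ℝ × E6) × QQ (e + 3) e in 𝓝 (0, 0), ∀ j ∈ Finset.range (nb e + 1),
      ‖st B j (z, 0)‖ < 1 / 10 := by
    rw [Filter.eventually_all_finset]
    intro j hj
    have hj' : j ≤ 2 * (e + 3) := by
      have := Finset.mem_range.1 hj
      unfold nb at this
      omega
    have hc : ContDiff ℝ ∞ (st B j) := st_contDiff (N := 2 * (e + 3)) hBl.smooth j hj'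
    have hc2 : Continuous fun z : (ℝ × E6) × QQ (e + 3) e => ‖st B j (z, 0)‖ :=
      (hc.continuous.comp (continuous_id.prodMk continuous_const)).norm
    refine hc2.continuousAt.eventually_lt continuousAt_const ?_
    have h0 : st B j (((0 : ℝ × E6), (0 : QQ (e + 3) e)), (0 : ℝ × ℝ)) = 0 := by
      rw [st_zero hn2 hBl 0 j hj']
      simp [spi]
    show ‖st B j (((0 : ℝ × E6), (0 : QQ (e + 3) e)), (0 : ℝ × ℝ))‖ < 1 / 10
    rw [h0, norm_zero]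
    norm_num
  obtain ⟨pa, hpa, pb, hpb, hpp⟩ := Filter.eventually_prod_iff.1
    ((nhds_prod_eq (x := (0 : ℝ × E6)) (y := (0 : QQ (e + 3) e))) ▸ hsm)
  have hVn : {q : QQ (e + 3) e | pb q} ∩ Metric.ball 0 1 ∈ 𝓝 (0 : QQ (e + 3) e) :=
    Filter.inter_mem hpb (Metric.ball_mem_nhds _ one_pos)
  have has := as2 (P := ℝ × E6) he rfl hBl hne (sum_dj e) (ρ := fun p => p.1)
    (fun j hj => hjac j hj) hVn
  obtain ⟨δ, hδ, hδs⟩ := Metric.eventually_nhds_iff.1 (hpa.and has)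
  have hm : 0 < min δ ρ1 := lt_min hδ hρ1
  obtain ⟨ρ, hρ, hρm⟩ := exists_between hm
  have hρδ : ρ < δ := hρm.trans_le (min_le_left _ _)
  refine ⟨ρ, hρ, hρm.trans_le (min_le_right _ _), ρ * δ, mul_pos hρ hδ, fun ε hε => ?_⟩
  obtain ⟨ε', hε'⟩ : ∃ ε' : E6, ε' = ρ⁻¹ • ε := ⟨_, rfl⟩
  have hεε : ρ • ε' = ε := by
    rw [hε', smul_smul, mul_inv_cancel₀ hρ.ne', one_smul]
  have hεn : ‖ε'‖ < δ := by
    rw [← hεε, norm_smul, Real.norm_eq_abs, abs_of_pos hρ] at hε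
    exact lt_of_mul_lt_mul_left hε hρ.le
  have hp : dist ((ρ, ε') : ℝ × E6) 0 < δ := by
    rw [dist_zero_right, Prod.norm_def]
    refine max_lt ?_ hεn
    show ‖ρ‖ < δ
    rw [Real.norm_eq_abs, abs_of_pos hρ]
    exact hρδ
  obtain ⟨hpa1, hp2⟩ := hδs hp
  obtain ⟨q, ⟨hq1, hq2⟩, hO⟩ := hp2 hρ.ne'
  have hsmall := hpp hpa1 hq1
  refine ⟨q, by simpa using hq2, fun j hj => ?_, ?_⟩
  · have hj2 := hsmall j (Finset.mem_range.2 (Nat.lt_succ_of_le hj))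
    have hc := z23_conj (B := B) hconj hρ.ne' ε' q (0 : Pt) j
    rw [hεε] at hc
    simp only [Prod.fst_zero, Prod.snd_zero, add_zero] at hc
    rw [hc]
    have h5 : ‖(st B j (((ρ, ε'), q), 0)).1‖ < 1 / 10 := (norm_fst_le _).trans_lt hj2
    have h6 : ‖(st B j (((ρ, ε'), q), 0)).2‖ < 1 / 10 := (norm_snd_le _).trans_lt hj2
    rw [Real.norm_eq_abs] at h5 h6
    have hρh : 0 < ρ * |hs| := mul_pos hρ (abs_pos.2 hhs0)
    constructor
    · have e1 : a + ρ * hs * (dj e j + (st B j (((ρ, ε'), q), 0)).1) - (a + ρ * hs * dj e j) =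
          ρ * hs * (st B j (((ρ, ε'), q), 0)).1 := by ring
      show |a + ρ * hs * (dj e j + (st B j (((ρ, ε'), q), 0)).1) - (a + ρ * hs * dj e j)| < _
      rw [e1, abs_mul, abs_mul, abs_of_pos hρ]
      calc ρ * |hs| * |(st B j (((ρ, ε'), q), 0)).1| < ρ * |hs| * (1 / 10) :=
            mul_lt_mul_of_pos_left h5 hρh
        _ = ρ * |hs| / 10 := by ring
    · have e1 : ρ * (dj e (j + 1) + (st B j (((ρ, ε'), q), 0)).2) - ρ * dj e (j + 1) =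
          ρ * (st B j (((ρ, ε'), q), 0)).2 := by ring
      show |ρ * (dj e (j + 1) + (st B j (((ρ, ε'), q), 0)).2) - ρ * dj e (j + 1)| < _
      rw [e1, abs_mul, abs_of_pos hρ]
      calc ρ * |(st B j (((ρ, ε'), q), 0)).2| < ρ * (1 / 10) := mul_lt_mul_of_pos_left h6 hρ
        _ = ρ / 10 := by ring
  · -- the zoom
    obtain ⟨V0, hV0⟩ : ∃ V0 : Pt, V0 = (a + ρ * hs * dj e 0, ρ * dj e 1) := ⟨_, rfl⟩
    rw [← hV0]
    have hρh0 : ρ * hs ≠ 0 := mul_ne_zero hρ.ne' hhs0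
    obtain ⟨Ψ, hΨ⟩ : ∃ Ψ : Pt → Pt, Ψ = fun V => ((V.1 - V0.1) / (ρ * hs), (V.2 - V0.2) / ρ) :=
      ⟨_, rfl⟩
    have hΨc : Continuous Ψ := by
      rw [hΨ]
      fun_prop
    have hΨ0 : Ψ V0 = 0 := by
      rw [hΨ]
      simp
    have hΨt : Tendsto Ψ (𝓝 V0) (𝓝 0) := by
      have := hΨc.tendsto V0
      rwa [hΨ0] at this
    have hO2 := hO.comp_tendsto hΨt
    have hd0 : dj e (nb e) = dj e 0 := by
      have := dj_add e 0
      rwa [zero_add] at this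
    have hd1 : dj e (nb e + 1) = dj e 1 := by
      have := dj_add e 1
      rwa [add_comm] at this
    -- the difference
    have hdiff : ∀ V : Pt, sto f a b B0 A Mh (Qj e a hs c0 τ ρ q) ε (nb e) V - V =
        (ρ * hs * ((st B (nb e) (((ρ, ε'), q), Ψ V)).1 - (Ψ V).1),
          ρ * ((st B (nb e) (((ρ, ε'), q), Ψ V)).2 - (Ψ V).2)) := by
      intro V
      have hc := z23_conj (B := B) hconj hρ.ne' ε' q (Ψ V) (nb e)
      rw [hεε, hd0, hd1] at hc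
      have hV : (a + ρ * hs * (dj e 0 + (Ψ V).1), ρ * (dj e 1 + (Ψ V).2)) = V := by
        rw [hΨ, hV0]
        ext
        · simp only
          field_simp
          ring
        · simp only
          field_simp
          ring
      rw [hV] at hc
      rw [hc]
      have hV1 : a + ρ * hs * (dj e 0 + (Ψ V).1) = V.1 := congrArg Prod.fst hV
      have hV2 : ρ * (dj e 1 + (Ψ V).2) = V.2 := congrArg Prod.snd hV
      ext
      · show a + ρ * hs * (dj e 0 + (st B (nb e) (((ρ, ε'), q), Ψ V)).1) - V.1 =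
          ρ * hs * ((st B (nb e) (((ρ, ε'), q), Ψ V)).1 - (Ψ V).1)
        rw [← hV1]
        ring
      · show ρ * (dj e 1 + (st B (nb e) (((ρ, ε'), q), Ψ V)).2) - V.2 =
          ρ * ((st B (nb e) (((ρ, ε'), q), Ψ V)).2 - (Ψ V).2)
        rw [← hV2]
        ring
    have hb1 : (fun V : Pt => sto f a b B0 A Mh (Qj e a hs c0 τ ρ q) ε (nb e) V - V) =O[𝓝 V0]
        ((fun v : ℝ × ℝ => st B (2 * (e + 3)) (((ρ, ε'), q), v) - v) ∘ Ψ) := by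
      refine IsBigO.of_bound (max |ρ * hs| |ρ|) (Eventually.of_forall fun V => ?_)
      rw [hdiff V, Prod.norm_def]
      show max ‖ρ * hs * ((st B (nb e) (((ρ, ε'), q), Ψ V)).1 - (Ψ V).1)‖
        ‖ρ * ((st B (nb e) (((ρ, ε'), q), Ψ V)).2 - (Ψ V).2)‖ ≤
        max |ρ * hs| |ρ| * ‖st B (nb e) (((ρ, ε'), q), Ψ V) - Ψ V‖
      have e1 : ‖(st B (nb e) (((ρ, ε'), q), Ψ V)).1 - (Ψ V).1‖ ≤
          ‖st B (nb e) (((ρ, ε'), q), Ψ V) - Ψ V‖ :=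
        norm_fst_le (st B (nb e) (((ρ, ε'), q), Ψ V) - Ψ V)
      have e2 : ‖(st B (nb e) (((ρ, ε'), q), Ψ V)).2 - (Ψ V).2‖ ≤
          ‖st B (nb e) (((ρ, ε'), q), Ψ V) - Ψ V‖ :=
        norm_snd_le (st B (nb e) (((ρ, ε'), q), Ψ V) - Ψ V)
      refine max_le ?_ ?_
      · rw [norm_mul, Real.norm_eq_abs (ρ * hs)]
        exact mul_le_mul (le_max_left _ _) e1 (norm_nonneg _)
          ((abs_nonneg _).trans (le_max_left _ _))
      · rw [norm_mul, Real.norm_eq_abs ρ]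
        exact mul_le_mul (le_max_right _ _) e2 (norm_nonneg _)
          ((abs_nonneg _).trans (le_max_left _ _))
    refine (hb1.trans hO2).trans ?_
    show (fun V : Pt => ‖Ψ V‖ ^ (e + 1)) =O[𝓝 V0] fun V => ‖V - V0‖ ^ (e + 1)
    refine IsBigO.pow ?_ (e + 1)
    refine IsBigO.of_bound (max |ρ * hs|⁻¹ |ρ|⁻¹) (Eventually.of_forall fun V => ?_)
    rw [norm_norm, norm_norm]
    have e1 : ‖(V - V0).1‖ ≤ ‖V - V0‖ := norm_fst_le _
    have e2 : ‖(V - V0).2‖ ≤ ‖V - V0‖ := norm_snd_le _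
    have e3 : Ψ V = ((V - V0).1 / (ρ * hs), (V - V0).2 / ρ) := by
      rw [hΨ]
      rfl
    rw [e3]
    have e0 : (0 : ℝ) ≤ |ρ * hs|⁻¹ := inv_nonneg.2 (abs_nonneg _)
    refine max_le ?_ ?_
    · show ‖(V - V0).1 / (ρ * hs)‖ ≤ _
      rw [norm_div, div_eq_inv_mul, Real.norm_eq_abs (ρ * hs)]
      exact mul_le_mul (le_max_left _ _) e1 (norm_nonneg _) (e0.trans (le_max_left _ _))
    · show ‖(V - V0).2 / ρ‖ ≤ _
      rw [norm_div, div_eq_inv_mul, Real.norm_eq_abs ρ]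
      exact mul_le_mul (le_max_right _ _) e2 (norm_nonneg _) (e0.trans (le_max_left _ _))

end Pool.Agent.Lib.H37N
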