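import Pool.Agent.Lib.H37P.Z26
import Pool.Agent.Lib.H37P.Z23
import Pool.Agent.Lib.H37P.P10

/-!
# H37N Z27 (L): the perturbed map with the return map `sto`

Data: a place, pass functions, a flat arc with `s0 ≠ 0`; `g ∈ U`, `U` PertOpen `R`. `B0 = d_S/(detDS detDT)`-like: `B0` is the positive
number with `B0 Y1(0) h'(0) Γ(0) = -1` (`Y1(0) > 0`, `h'(0) Γ(0) < 0`). `stageII_local` with `ρ1` so small that the
hypotheses on `ρ` of `family_S` hold and all base regions `|X - X_j| ≤ ρ|hs|/5`, `|U - ρ dj| ≤ ρ/5` are in `|X| ≤ 1`, `|U+b| ≤ 1`, and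
`(0,U)` in `B ∩ ball 0 rF`. Then `(n,m)` from `exists_nm`, large: `‖epsv‖ < η`, the parameters `p` of `family_S` are small
(`q` is bounded by `1`), `(ξ,η) ∈ B ∩ ball 0 rF` on the base regions (uniformly close to `(0,U)`), the second
coordinate of `TT` is `< r1`. So for every `j` and every `V` in the base region of the block `j` whose image `stp j V` has its
first coordinate in the base region of `j+1`: the step is realised (`block_step`, `family_S`). The statement is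
formulated for a further admissible perturbation `χ` (the flat correction of S28) which acts trivially on the
points with first coordinate in the base regions `j+1 < N`: the total perturbation is `χ ∘ ψ`.
-/

open Set Filter Topology Asymptotics
open scoped ContDiff

namespace Pool.Agent.Lib.H37N

theorem z27_dj_abs (e j : ℕ) : |dj e j| ≤ (nb e : ℝ) / 2 := by
  have hN : 0 < nb e := by unfold nb; omega
  have h1 : j % nb e < nb e := Nat.mod_lt _ hN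
  have h2 : ((j % nb e : ℕ) : ℝ) + 1 ≤ (nb e : ℝ) := by exact_mod_cast h1
  have h3 : (0 : ℝ) ≤ ((j % nb e : ℕ) : ℝ) := Nat.cast_nonneg _
  unfold dj
  rw [abs_le]
  constructor <;> linarith

theorem z27_qpoly_zero (e j : ℕ) (w : ℝ) : qpoly e (0 : QQ (e + 3) e) j w = 0 := by
  unfold qpoly
  refine Finset.sum_eq_zero fun i _ => ?_
  have h3 := qx_smul (0 : QQ (e + 3) e) 0 j i
  rw [smul_zero, zero_mul] at h3
  rw [h3, zero_mul]

theorem z27_qpoly_smul (e j : ℕ) (c : ℝ) (q : QQ (e + 3) e) (w : ℝ) :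
    qpoly e (c • q) j w = c * qpoly e q j w := by
  unfold qpoly
  rw [Finset.mul_sum]
  refine Finset.sum_congr rfl fun i _ => ?_
  rw [qx_smul]
  ring

/-- the shear brings the point to the coordinates of the next block -/
theorem z27_shear {g : Pt → Pt} {s : Fr} {f : PF} (e : ℕ) {a b hs c0 τ ρ B0 : ℝ}
    {A Nn : Pt → ℝ} {Mh : ℝ × Pt → ℝ} (n m : ℕ) (q : QQ (e + 3) e) (j : ℕ) (V : Pt) :
    ((bX f a b B0 A (epsv g s B0 n m, V),
      Nn (xi0 s m, bX f a b B0 A (epsv g s B0 n m, V)) +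
        (EE g s n m)⁻¹ * bU f b B0 Mh (epsv g s B0 n m, V) +
        phS e s f Nn a b hs c0 τ ρ j (xi0 s m, (s.mu Sy.P ^ n)⁻¹, e1 s n, (EE g s n m)⁻¹,
          (EE g s n m)⁻¹ • q) (bX f a b B0 A (epsv g s B0 n m, V))) : Pt) =
      Yc g s f b n m (stp f a b B0 A Mh (Qj e a hs c0 τ ρ q) (epsv g s B0 n m) j V) := by
  set X := bX f a b B0 A (epsv g s B0 n m, V) with hX
  set Uu := bU f b B0 Mh (epsv g s B0 n m, V) with hUu
  have h1 : stp f a b B0 A Mh (Qj e a hs c0 τ ρ q) (epsv g s B0 n m) j V =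
      (X, Uu + Qj e a hs c0 τ ρ q j X) := rfl
  rw [h1]
  unfold Yc yF phS Qj
  refine Prod.ext rfl ?_
  simp only
  rw [z27_qpoly_smul]
  unfold qt
  rw [z27_qpoly_zero]
  generalize qpoly e q j ((X - a) / (ρ * hs) - dj e (j + 1)) = Qv
  generalize (X - a) / (ρ * hs) - dj e (j + 1) = w
  rw [div_eq_mul_inv, div_eq_mul_inv]
  ring

theorem z27_adm {D : Set Pt} {ψ χ : Pt → Pt} (h1 : Adm D ψ) (h2 : Adm D χ) : Adm D (χ ∘ ψ) := by
  refine ⟨fun w hw => ?_, fun w hw => h2.2 _ (h1.2 w hw)⟩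
  show χ (ψ w) = w
  rw [h1.1 w hw, h2.1 w hw]

/-- the entrance point of the place, as a function of the parameters and of the point -/
noncomputable def z27_w (f : PF) (b B0 : ℝ) (ε : E6) (V : Pt) : Pt :=
  (ε 4 + ε 3 * XiF f b (ε 0) (ε 1) (ε 2) (B0 + ε 5) V.1 V.2, etaF f b (ε 0) (ε 1) V.1 V.2)

/-- one step of the perturbed map -/
theorem z27_step {g : Pt → Pt} {s : Fr} {Z : Set Pt} {b a : ℝ} {k l : ℕ} {r : ℝ}
    {D B : Set Pt} {Li : Pt → Pt} (hN : Near g) (hs : IsFr g s) (hZ : Z ⊆ interior FF)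
    (hp : Place g s Z b a k l r D B Li) {f : PF} {rf : ℝ} (hf : IsPF g s f rf)
    {A Nn : Pt → ℝ} {Mh : ℝ × Pt → ℝ} {rF : ℝ} (hF : Flat g s b a k l A Nn Mh rF)
    (e : ℕ) {hs' c0 τ ρ B0 : ℝ} :
    ∃ δ > 0, ∀ (n m : ℕ), |e1 s n| < δ → |e2 g s m| < δ →
      ∀ (q : QQ (e + 3) e) (j : ℕ) (V : Pt) (ψ χ : Pt → Pt),
      Adm D ψ → Adm D χ → |V.1| ≤ 1 → |V.2 + b| ≤ 1 →
      z27_w f b B0 (epsv g s B0 n m) V ∈ B → |(z27_w f b B0 (epsv g s B0 n m) V).1| < rF →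
      |(z27_w f b B0 (epsv g s B0 n m) V).2| < rF → |epsv g s B0 n m 4| < rF →
      |epsv g s B0 n m 3 * XiF f b (epsv g s B0 n m 0) (epsv g s B0 n m 1) (epsv g s B0 n m 2)
        (B0 + epsv g s B0 n m 5) V.1 V.2| < rF →
      (∀ v : Pt, v.1 = bX f a b B0 A (epsv g s B0 n m, V) →
        v.2 = Nn (epsv g s B0 n m 4, bX f a b B0 A (epsv g s B0 n m, V)) +
          epsv g s B0 n m 3 * bU f b B0 Mh (epsv g s B0 n m, V) →
        PlM g s l (ψ (Li v)) = (v.1, v.2 + phS e s f Nn a b hs' c0 τ ρ j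
          (xi0 s m, (s.mu Sy.P ^ n)⁻¹, e1 s n, (EE g s n m)⁻¹, (EE g s n m)⁻¹ • q) v.1)) →
      ((χ ∘ ψ) ∘ g)^[n + s.kS + m + (k + 1 + l)] (s.κ Sy.P (Yc g s f b n m V)) =
        s.κ Sy.P (PlM g s l (χ (Li (Yc g s f b n m
          (stp f a b B0 A Mh (Qj e a hs' c0 τ ρ q) (epsv g s B0 n m) j V))))) ∧
      Yc g s f b n m (stp f a b B0 A Mh (Qj e a hs' c0 τ ρ q) (epsv g s B0 n m) j V) ∈
        Metric.ball ((a, 0) : Pt) r ∧
      ∀ i ≤ n + s.kS + m + (k + 1 + l),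
        ((χ ∘ ψ) ∘ g)^[i] (s.κ Sy.P (Yc g s f b n m V)) ∈ VO ∪ Z := by
  obtain ⟨δ, hδ, H⟩ := block hN hs hZ hp hf
  refine ⟨δ, hδ, ?_⟩
  intro n m he1 he2 q j V ψ χ hψ hχ hV1 hV2 hwB hw1 hw2 h4 hz hsh
  have e0 : epsv g s B0 n m 0 = e1 s n := rfl
  have e1' : epsv g s B0 n m 1 = e2 g s m := rfl
  have e2' : epsv g s B0 n m 2 = e4 s n m := rfl
  have e3' : epsv g s B0 n m 3 = (EE g s n m)⁻¹ := rfl
  have e4' : epsv g s B0 n m 4 = xi0 s m := rfl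
  have e5' : B0 + epsv g s B0 n m 5 = BB g s n m := by
    show B0 + (BB g s n m - B0) = BB g s n m
    ring
  have hw : z27_w f b B0 (epsv g s B0 n m) V =
      (xi0 s m + (EE g s n m)⁻¹ * XiF f b (e1 s n) (e2 g s m) (e4 s n m) (BB g s n m) V.1 V.2,
        etaF f b (e1 s n) (e2 g s m) V.1 V.2) := by
    unfold z27_w
    rw [e0, e1', e2', e3', e4', e5']
  have hB := H (χ ∘ ψ) (z27_adm hψ hχ) n m V.1 V.2 he1 he2 hV1 hV2 (by rw [← hw]; exact hwB)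
  rw [← hw] at hB
  obtain ⟨hB1, hB2⟩ := hB
  set w := z27_w f b B0 (epsv g s B0 n m) V with hwdef
  have hTB : TT g s b k l w ∈ Metric.ball ((a, 0) : Pt) (r / 2) := hp.TB w hwB
  have hTr : TT g s b k l w ∈ Metric.ball ((a, 0) : Pt) r :=
    Metric.ball_subset_ball (by linarith [hp.r_pos]) hTB
  -- the coordinates of `TT w`
  have hT1 : (TT g s b k l w).1 = bX f a b B0 A (epsv g s B0 n m, V) := by
    have h := hF.fst w.1 w.2 hw1 hw2
    rw [Prod.mk.eta] at h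
    rw [h]
    rfl
  have hT2 : (TT g s b k l w).2 = Nn (epsv g s B0 n m 4, bX f a b B0 A (epsv g s B0 n m, V)) +
      epsv g s B0 n m 3 * bU f b B0 Mh (epsv g s B0 n m, V) := by
    have h := hF.snd (epsv g s B0 n m 4) (epsv g s B0 n m 3 *
      XiF f b (epsv g s B0 n m 0) (epsv g s B0 n m 1) (epsv g s B0 n m 2)
        (B0 + epsv g s B0 n m 5) V.1 V.2) w.2 h4 hz hw2
    have h5 : ((epsv g s B0 n m 4 + epsv g s B0 n m 3 *
      XiF f b (epsv g s B0 n m 0) (epsv g s B0 n m 1) (epsv g s B0 n m 2)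
        (B0 + epsv g s B0 n m 5) V.1 V.2, w.2) : Pt) = w := rfl
    rw [h5] at h
    rw [h]
    have h6 : a + A w = bX f a b B0 A (epsv g s B0 n m, V) := rfl
    rw [h6, mul_assoc]
    rfl
  have hP := hsh _ hT1 hT2
  have hY : PlM g s l (ψ (Li (TT g s b k l w))) = Yc g s f b n m
      (stp f a b B0 A Mh (Qj e a hs' c0 τ ρ q) (epsv g s B0 n m) j V) := by
    rw [hP, ← z27_shear (hs := hs') (c0 := c0) (τ := τ) (ρ := ρ) (Nn := Nn) e n m q j V]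
    refine Prod.ext ?_ ?_
    · exact hT1
    · show (TT g s b k l w).2 + _ = _
      rw [hT1, hT2]
      rfl
  have hD1 : Li (TT g s b k l w) ∈ D := hp.Li_mem _ hTr
  have hD2 : ψ (Li (TT g s b k l w)) ∈ D := hψ.2 _ hD1
  have hYD : Li (Yc g s f b n m
      (stp f a b B0 A Mh (Qj e a hs' c0 τ ρ q) (epsv g s B0 n m) j V)) =
      ψ (Li (TT g s b k l w)) := by
    rw [← hY, hp.Li_Pl _ hD2]
  refine ⟨?_, ?_, ?_⟩
  · have h7 := hB1
    rw [Prod.mk.eta] at h7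
    rw [h7, hYD]
    rfl
  · rw [← hY]
    exact hp.Pl_mem _ hD2
  · intro i hi
    have h7 := hB2 i hi
    rw [Prod.mk.eta] at h7
    exact h7

theorem z27_tube_lt {K : Set (Pt × ℝ)} (hK : IsCompact K) {φ : E6 × (Pt × ℝ) → ℝ}
    (hφ : Continuous φ) {c : ℝ} (h : ∀ p ∈ K, φ (0, p) < c) :
    ∀ᶠ ε : E6 in 𝓝 0, ∀ p ∈ K, φ (ε, p) < c := by
  apply hK.eventually_forall_of_forall_eventually
  intro p hp
  exact hφ.continuousAt.eventually_lt continuousAt_const (h p hp)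

theorem z27_w_cont {f : PF} (h1 : ContDiff ℝ ∞ f.Th) (h2 : ContDiff ℝ ∞ f.Y1)
    (h3 : ContDiff ℝ ∞ f.W) (h4 : ContDiff ℝ ∞ f.Y2) (b B0 : ℝ) :
    Continuous fun z : E6 × Pt => z27_w f b B0 z.1 z.2 := by
  have c1 : Continuous fun z : E6 × Pt => (z27_w f b B0 z.1 z.2).1 := by
    have h := (contDiff_bX h1 h2 h3 h4 (A := Prod.fst) contDiff_fst 0 b B0).continuous
    have e : (fun z : E6 × Pt => (z27_w f b B0 z.1 z.2).1) = bX f 0 b B0 Prod.fst := by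
      funext z
      show _ = (0 : ℝ) + _
      rw [zero_add]
      rfl
    rw [e]
    exact h
  have c2 : Continuous fun z : E6 × Pt => (z27_w f b B0 z.1 z.2).2 := by
    have h := (contDiff_bX h1 h2 h3 h4 (A := Prod.snd) contDiff_snd 0 b B0).continuous
    have e : (fun z : E6 × Pt => (z27_w f b B0 z.1 z.2).2) = bX f 0 b B0 Prod.snd := by
      funext z
      show _ = (0 : ℝ) + _
      rw [zero_add]
      rfl
    rw [e]
    exact h
  exact c1.prodMk c2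

theorem z27_w_zero {f : PF} (hW : f.W (0, 0) = 1) (b B0 : ℝ) (V : Pt) :
    z27_w f b B0 0 V = (0, V.2) := by
  unfold z27_w etaF
  simp [hW]

/-- uniform smallness of all the quantities of a step -/
theorem z27_tube {f : PF} (h1 : ContDiff ℝ ∞ f.Th) (h2 : ContDiff ℝ ∞ f.Y1)
    (h3 : ContDiff ℝ ∞ f.W) (h4 : ContDiff ℝ ∞ f.Y2) (hW : f.W (0, 0) = 1) {Nn : Pt → ℝ}
    (hNn : ContDiff ℝ ∞ Nn) {Mh : ℝ × Pt → ℝ} (hM : ContDiff ℝ ∞ Mh) {a b B0 rF rB ρU ρX r1 : ℝ}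
    (hr1 : 0 < r1) (hrF : 0 < rF) (hUB : ρU < rB) (hUF : ρU < rF) (hXF : ρX < rF)
    (hN0 : ∀ X : ℝ, |X - a| < rF → Nn (0, X) = 0) :
    ∀ᶠ ε : E6 in 𝓝 0, ∀ V : Pt, |V.1| ≤ 1 → |V.2| ≤ ρU → ∀ X : ℝ, |X - a| ≤ ρX →
      ‖z27_w f b B0 ε V‖ < rB ∧ ‖z27_w f b B0 ε V‖ < rF ∧ |ε 4| < rF ∧
      |ε 3 * XiF f b (ε 0) (ε 1) (ε 2) (B0 + ε 5) V.1 V.2| < rF ∧
      |Nn (ε 4, X) + ε 3 * bU f b B0 Mh (ε, V)| < r1 := by
  have cw := z27_w_cont h1 h2 h3 h4 b B0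
  have cb := (contDiff_bU h1 h2 h3 h4 hM b B0).continuous
  have cN := hNn.continuous
  have cwp : Continuous fun z : E6 × (Pt × ℝ) => z27_w f b B0 z.1 z.2.1 :=
    cw.comp (continuous_fst.prodMk (continuous_fst.comp continuous_snd))
  have cbp : Continuous fun z : E6 × (Pt × ℝ) => bU f b B0 Mh (z.1, z.2.1) :=
    cb.comp (continuous_fst.prodMk (continuous_fst.comp continuous_snd))
  have c4 : Continuous fun z : E6 × (Pt × ℝ) => z.1 4 := (continuous_apply 4).comp continuous_fst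
  have c3 : Continuous fun z : E6 × (Pt × ℝ) => z.1 3 := (continuous_apply 3).comp continuous_fst
  have cNp : Continuous fun z : E6 × (Pt × ℝ) => Nn (z.1 4, z.2.2) :=
    cN.comp (c4.prodMk (continuous_snd.comp continuous_snd))
  set K : Set (Pt × ℝ) := (Icc (-1 : ℝ) 1 ×ˢ Icc (-ρU) ρU) ×ˢ Icc (a - ρX) (a + ρX) with hKdef
  have hK : IsCompact K := (isCompact_Icc.prod isCompact_Icc).prod isCompact_Icc
  have hw0 : ∀ p ∈ K, ‖z27_w f b B0 0 p.1‖ ≤ ρU := by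
    rintro ⟨⟨x, u⟩, X⟩ ⟨⟨hx, hu⟩, hX⟩
    rw [z27_w_zero hW, Prod.norm_def]
    simp only [norm_zero, Real.norm_eq_abs]
    exact max_le (le_trans (abs_nonneg u) (abs_le.2 hu)) (abs_le.2 hu)
  have T1 := z27_tube_lt hK cwp.norm (c := rB) fun p hp => lt_of_le_of_lt (hw0 p hp) hUB
  have T2 := z27_tube_lt hK cwp.norm (c := rF) fun p hp => lt_of_le_of_lt (hw0 p hp) hUF
  have T3 := z27_tube_lt hK c4.norm (c := rF) fun p hp => by
    show ‖((0 : E6) 4 : ℝ)‖ < rF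
    rw [Pi.zero_apply, norm_zero]
    exact hrF
  have T4 := z27_tube_lt hK ((cwp.fst.sub c4).norm) (c := rF) fun p hp => by
    show ‖(z27_w f b B0 0 p.1).1 - ((0 : E6) 4 : ℝ)‖ < rF
    rw [z27_w_zero hW, Pi.zero_apply, sub_zero, norm_zero]
    exact hrF
  have T5 := z27_tube_lt hK ((cNp.add (c3.mul cbp)).norm) (c := r1) fun p hp => by
    show ‖Nn ((0 : E6) 4, p.2) + (0 : E6) 3 * bU f b B0 Mh (0, p.1)‖ < r1
    obtain ⟨-, hX⟩ := hp
    have hX' : |p.2 - a| < rF := by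
      refine lt_of_le_of_lt (abs_le.2 ⟨?_, ?_⟩) hXF
      · linarith [hX.1]
      · linarith [hX.2]
    rw [Pi.zero_apply, Pi.zero_apply, hN0 p.2 hX', zero_mul, add_zero, norm_zero]
    exact hr1
  filter_upwards [T1, T2, T3, T4, T5] with ε t1 t2 t3 t4 t5 V hV1 hV2 X hX
  have hmem : ((V, X) : Pt × ℝ) ∈ K := by
    refine ⟨⟨abs_le.1 hV1, abs_le.1 hV2⟩, ?_, ?_⟩
    · linarith [(abs_le.1 hX).1]
    · linarith [(abs_le.1 hX).2]
  refine ⟨t1 _ hmem, t2 _ hmem, t3 _ hmem, ?_, t5 _ hmem⟩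
  have h := t4 _ hmem
  have e : (z27_w f b B0 ε V).1 - ε 4 =
      ε 3 * XiF f b (ε 0) (ε 1) (ε 2) (B0 + ε 5) V.1 V.2 := by
    unfold z27_w
    ring
  have h' : ‖(z27_w f b B0 ε V).1 - ε 4‖ < rF := h
  rw [e] at h'
  exact h'

theorem z27_contDiff_Qj (e : ℕ) (a hs c0 τ ρ : ℝ) (q : QQ (e + 3) e) (j : ℕ) :
    ContDiff ℝ ∞ (Qj e a hs c0 τ ρ q j) := by
  unfold Qj qt qpoly
  have h1 : ContDiff ℝ ∞ fun X : ℝ => (X - a) / (ρ * hs) - dj e (j + 1) := by fun_prop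
  have h2 : ContDiff ℝ ∞ fun X : ℝ => ∑ i ∈ Finset.range (e + 1),
      qx q j i * ((X - a) / (ρ * hs) - dj e (j + 1)) ^ i :=
    ContDiff.sum fun i _ => contDiff_const.mul (h1.pow i)
  exact contDiff_const.add (contDiff_const.mul ((contDiff_const.add
    (contDiff_const.mul h1)).add h2))

theorem z27_contDiff_sto {f : PF} (h1 : ContDiff ℝ ∞ f.Th) (h2 : ContDiff ℝ ∞ f.Y1)
    (h3 : ContDiff ℝ ∞ f.W) (h4 : ContDiff ℝ ∞ f.Y2) {A : Pt → ℝ} (hA : ContDiff ℝ ∞ A)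
    {Mh : ℝ × Pt → ℝ} (hM : ContDiff ℝ ∞ Mh) (e : ℕ) (a b B0 hs c0 τ ρ : ℝ)
    (q : QQ (e + 3) e) (ε : E6) :
    ∀ j, ContDiff ℝ ∞ (sto f a b B0 A Mh (Qj e a hs c0 τ ρ q) ε j) := by
  intro j
  induction j with
  | zero => exact contDiff_id
  | succ j ih =>
    have c1 : ContDiff ℝ ∞ fun V : Pt =>
        bX f a b B0 A (ε, sto f a b B0 A Mh (Qj e a hs c0 τ ρ q) ε j V) :=
      (contDiff_bX h1 h2 h3 h4 hA a b B0).comp (contDiff_const.prodMk ih)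
    have c2 : ContDiff ℝ ∞ fun V : Pt =>
        bU f b B0 Mh (ε, sto f a b B0 A Mh (Qj e a hs c0 τ ρ q) ε j V) :=
      (contDiff_bU h1 h2 h3 h4 hM b B0).comp (contDiff_const.prodMk ih)
    exact c1.prodMk (c2.add ((z27_contDiff_Qj e a hs c0 τ ρ q j).comp c1))

/-- smoothness of the coordinates `Y` and of their inverse -/
theorem z27_coords {g : Pt → Pt} {s : Fr} {f : PF} (h1 : ContDiff ℝ ∞ f.Th) (b : ℝ) (n m : ℕ)
    (hE : EE g s n m ≠ 0) :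
    ∃ Yi : Pt → Pt, ContDiff ℝ ∞ (Yc g s f b n m) ∧ ContDiff ℝ ∞ Yi ∧
      (∀ V, Yi (Yc g s f b n m V) = V) ∧ ∀ v, Yc g s f b n m (Yi v) = v := by
  have c1 : ContDiff ℝ ∞ fun V : Pt => f.Th (e1 s n * V.1) :=
    h1.comp (contDiff_const.mul contDiff_fst)
  refine ⟨fun v => (v.1, EE g s n m * (v.2 - (s.uS + f.Th (e1 s n * v.1)) / s.mu Sy.P ^ n) - b),
    ?_, ?_, ?_, ?_⟩
  · unfold Yc yF
    exact contDiff_fst.prodMk (((contDiff_snd.add contDiff_const).div_const _).add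
      ((contDiff_const.add c1).div_const _))
  · exact contDiff_fst.prodMk ((contDiff_const.mul (contDiff_snd.sub
      ((contDiff_const.add c1).div_const _))).sub contDiff_const)
  · intro V
    unfold Yc yF
    refine Prod.ext rfl ?_
    simp only
    rw [add_sub_cancel_right, mul_div_cancel₀ _ hE, add_sub_cancel_right]
  · intro v
    unfold Yc yF
    refine Prod.ext rfl ?_
    simp only
    rw [sub_add_cancel, mul_div_cancel_left₀ _ hE, sub_add_cancel]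

theorem z27_eps_tendsto {g : Pt → Pt} {s : Fr} {B0 : ℝ} {n m : ℕ → ℕ}
    (hBB : Tendsto (fun j => BB g s (n j) (m j)) atTop (𝓝 B0))
    (he1 : Tendsto (fun j => e1 s (n j)) atTop (𝓝 0))
    (he2 : Tendsto (fun j => e2 g s (m j)) atTop (𝓝 0))
    (he4 : Tendsto (fun j => e4 s (n j) (m j)) atTop (𝓝 0))
    (hxi : Tendsto (fun j => xi0 s (m j)) atTop (𝓝 0))
    (hEE : Tendsto (fun j => EE g s (n j) (m j)) atTop atTop) :
    Tendsto (fun j => epsv g s B0 (n j) (m j)) atTop (𝓝 0) := by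
  rw [tendsto_pi_nhds]
  intro i
  fin_cases i
  · exact he1
  · exact he2
  · exact he4
  · exact tendsto_inv_atTop_zero.comp hEE
  · exact hxi
  · have h := hBB.sub_const B0
    rw [sub_self] at h
    exact h

theorem realize {R e : ℕ} (he : 1 ≤ e) {U : Set (Pt → Pt)} (hU : PertOpen R U)
    {g : Pt → Pt} (hg : g ∈ U) {s : Fr} {Z : Set Pt}
    {b a : ℝ} {k l : ℕ} {r : ℝ} {D B : Set Pt} {Li : Pt → Pt} (hN : Near g) (hs : IsFr g s)
    (hZ : Z ⊆ interior FF) (hb : |b| < 1) (hp : Place g s Z b a k l r D B Li)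
    {A Nn : Pt → ℝ} {Mh : ℝ × Pt → ℝ} {rF : ℝ} (hF : Flat g s b a k l A Nn Mh rF)
    (hne : deriv (fun U => Real.log (hG A Mh U)) 0 ≠ 0) :
    ∃ (ψ : Pt → Pt) (K : ℕ) (Y : Pt → Pt) (S : ℕ → Pt → Pt) (V0 : Pt) (W : ℕ → Set Pt),
      ψ ∘ g ∈ U ∧ Adm D ψ ∧ 0 < K ∧
      -- the coordinates `Y` are a smooth diffeomorphism near `V0`, with values in the ball
      (∃ Yi : Pt → Pt, ContDiff ℝ ∞ Y ∧ ContDiff ℝ ∞ Yi ∧ (∀ V, Yi (Y V) = V) ∧
        ∀ v, Y (Yi v) = v) ∧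
      (∀ j, ContDiff ℝ ∞ (S j)) ∧ S 0 = id ∧
      Y (S (nb e) V0) ∈ Metric.ball ((a, 0) : Pt) r ∧ |(Y V0).1| < 1 ∧ |(Y V0).2| < 1 ∧
      (fun V : Pt => S (nb e) V - V) =O[𝓝 V0] (fun V => ‖V - V0‖ ^ (e + 1)) ∧
      -- the regions of the intermediate points are disjoint from a neighbourhood of the last one
      (∀ j, IsOpen (W j)) ∧ V0 ∈ W 0 ∧
      (∀ j ≤ nb e, ∀ᶠ V in 𝓝 V0, S j V ∈ W j) ∧
      (∃ O ∈ 𝓝 (Y V0), ∀ j, 0 < j → j < nb e → ∀ V ∈ W j, Y V ∉ O) ∧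
      ∀ χ : Pt → Pt, Adm D χ → (∀ v ∈ Metric.ball ((a, 0) : Pt) r, ∀ j, 0 < j → j < nb e →
        (∃ V ∈ W j, Y V = v) → PlM g s l (χ (Li v)) = v) →
        ∀ᶠ V in 𝓝 V0,
          (∀ j, j + 1 < nb e → ((χ ∘ ψ) ∘ g)^[K] (s.κ Sy.P (Y (S j V))) = s.κ Sy.P (Y (S (j + 1) V))) ∧
          ((χ ∘ ψ) ∘ g)^[K] (s.κ Sy.P (Y (S (nb e - 1) V))) =
            s.κ Sy.P (PlM g s l (χ (Li (Y (S (nb e) V))))) ∧
          ∀ j < nb e, ∀ i ≤ K, ((χ ∘ ψ) ∘ g)^[i] (s.κ Sy.P (Y (S j V))) ∈ VO ∪ Z := by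
  obtain ⟨f, rf, hf⟩ := exists_PF hN hs
  have hdS : 0 < dS g s := hs.sdata.d_pos
  have hjS : 0 < jac (SS g s) 0 := hs.sdata.jac_pos
  have hY10 : 0 < f.Y1 0 := by
    rw [hf.Y10]
    exact div_pos hjS hdS
  have hrF := hF.r_pos
  have hr := hp.r_pos
  -- the constants
  obtain ⟨h0, hh0def⟩ : ∃ h0, h0 = deriv (fun U => A (0, U)) 0 := ⟨_, rfl⟩
  have hneg : h0 * Mh (0, (0, 0)) < 0 := by
    rw [hh0def]
    exact hF.neg
  have hh0 : h0 ≠ 0 := by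
    intro h
    rw [h, zero_mul] at hneg
    exact lt_irrefl _ hneg
  have hh0a : 0 < |h0| := abs_pos.2 hh0
  have hneg2 : f.Y1 0 * (h0 * Mh (0, (0, 0))) < 0 := mul_neg_of_pos_of_neg hY10 hneg
  obtain ⟨B0, hB0⟩ : ∃ B0, B0 = -1 / (f.Y1 0 * (h0 * Mh (0, (0, 0)))) := ⟨_, rfl⟩
  have hB0pos : 0 < B0 := by
    rw [hB0]
    exact div_pos_of_neg_of_neg (by norm_num) hneg2
  have hB : B0 * f.Y1 0 * h0 * Mh (0, (0, 0)) = -1 := by
    have h1 : B0 * (f.Y1 0 * (h0 * Mh (0, (0, 0)))) = -1 := by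
      rw [hB0]
      exact div_mul_cancel₀ _ (ne_of_lt hneg2)
    linarith [h1, mul_assoc (B0 * f.Y1 0) h0 (Mh (0, (0, 0))),
      mul_assoc B0 (f.Y1 0) (h0 * Mh (0, (0, 0)))]
  obtain ⟨c0, hc0⟩ : ∃ c0, c0 = B0 * f.Y1 0 * a * Mh (0, (0, 0)) := ⟨_, rfl⟩
  obtain ⟨τ, hτ⟩ : ∃ τ, τ = B0 * f.Y1 0 * a * deriv (fun U => Mh (0, (0, U))) 0 := ⟨_, rfl⟩
  obtain ⟨s0, hs0⟩ : ∃ s0, s0 = deriv (fun U => Real.log (hG A Mh U)) 0 := ⟨_, rfl⟩
  have hs0ne : s0 ≠ 0 := by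
    rw [hs0]
    exact hne
  -- the radii
  obtain ⟨rB, hrB, hBB⟩ := Metric.mem_nhds_iff.1 hp.nhB
  obtain ⟨N1, hN1⟩ : ∃ N1 : ℝ, N1 = (nb e : ℝ) + 1 := ⟨_, rfl⟩
  have hNpos : (0 : ℝ) ≤ (nb e : ℝ) := Nat.cast_nonneg _
  have hN1pos : 0 < N1 := by rw [hN1]; linarith
  have hhN : 0 < |h0| * N1 := mul_pos hh0a hN1pos
  have hb1 : 0 < 1 - |b| := by linarith
  obtain ⟨ρ1, hρ1def⟩ : ∃ ρ1 : ℝ, ρ1 = min (min (r / 2 / (|h0| * N1)) (rF / (|h0| * N1)))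
      (min ((1 - |b|) / N1) (min (rB / N1) (rF / N1))) := ⟨_, rfl⟩
  have hρ1 : 0 < ρ1 := by
    rw [hρ1def]
    refine lt_min (lt_min ?_ ?_) (lt_min ?_ (lt_min ?_ ?_))
    · exact div_pos (by linarith) hhN
    · exact div_pos hrF hhN
    · exact div_pos hb1 hN1pos
    · exact div_pos hrB hN1pos
    · exact div_pos hrF hN1pos
  obtain ⟨ρ, hρ0, hρlt, η, hη, Hloc⟩ := stageII_local he hf.smTh hf.smY1 hf.smW hf.smY2 hf.W0
    hF.smA hF.A0 hF.smM (b := b) hh0def hB hc0 hτ hs0 hs0ne hρ1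
  rw [hρ1def] at hρlt
  obtain ⟨hρa, hρb⟩ := lt_min_iff.1 hρlt
  obtain ⟨hρa1, hρa2⟩ := lt_min_iff.1 hρa
  obtain ⟨hρb1, hρb2⟩ := lt_min_iff.1 hρb
  obtain ⟨hρb2, hρb3⟩ := lt_min_iff.1 hρb2
  have hA1 : ρ * |h0| * N1 < r / 2 := by
    have := (lt_div_iff₀ hhN).1 hρa1
    rw [mul_assoc]
    exact this
  have hA2 : ρ * |h0| * N1 < rF := by
    have := (lt_div_iff₀ hhN).1 hρa2
    rw [mul_assoc]
    exact this
  have hA3 : ρ * N1 < 1 - |b| := (lt_div_iff₀ hN1pos).1 hρb1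
  have hA4 : ρ * N1 < rB := (lt_div_iff₀ hN1pos).1 hρb2
  have hA5 : ρ * N1 < rF := (lt_div_iff₀ hN1pos).1 hρb3
  have hρh : 0 < ρ * |h0| := mul_pos hρ0 hh0a
  -- the family of perturbations
  obtain ⟨r1, hr1, Hfam⟩ := family_S hp hf.smTh hF.smN hF.r_pos hF.N0 e (hs := h0) (c0 := c0)
    (τ := τ) (ρ := ρ) hh0 hρ0 (by rw [← hN1]; exact hA1) (by rw [← hN1]; exact hA2) R
  obtain ⟨εU, hεU, HU⟩ := hU g hg
  obtain ⟨δp, hδp, Hp⟩ := Metric.eventually_nhds_iff.1 (Hfam εU hεU)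
  obtain ⟨δ, hδ, Hstep⟩ := z27_step (hs' := h0) (c0 := c0) (τ := τ) (ρ := ρ) (B0 := B0)
    hN hs hZ hp hf hF e
  have Htube := z27_tube (a := a) (b := b) (B0 := B0) (rF := rF) (rB := rB) (ρU := ρ * N1)
    (ρX := ρ * |h0| * N1) (r1 := r1) hf.smTh hf.smY1 hf.smW hf.smY2 hf.W0 hF.smN hF.smM hr1 hrF
    hA4 hA5 hA2 hF.N0
  -- the choice of `n, m`
  obtain ⟨n, m, -, -, hBBt, he1, he2, he4, hxi, hEE, hmu⟩ := exists_nm hs hB0pos
  have hεt := z27_eps_tendsto (B0 := B0) hBBt he1 he2 he4 hxi hEE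
  have hEinv : Tendsto (fun j => (EE g s (n j) (m j))⁻¹) atTop (𝓝 0) :=
    tendsto_inv_atTop_zero.comp hEE
  have hminv : Tendsto (fun j => (s.mu Sy.P ^ (n j))⁻¹) atTop (𝓝 0) :=
    tendsto_inv_atTop_zero.comp hmu
  have hsmall : ∀ {u : ℕ → ℝ}, Tendsto u atTop (𝓝 0) → ∀ {c : ℝ}, 0 < c →
      ∀ᶠ j in atTop, |u j| < c := by
    intro u hu c hc
    have h := hu.abs
    rw [abs_zero] at h
    exact h.eventually_lt tendsto_const_nhds hc
  have hev1 : ∀ᶠ j in atTop, ‖epsv g s B0 (n j) (m j)‖ < η := by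
    have h := hεt.norm
    rw [norm_zero] at h
    exact h.eventually_lt tendsto_const_nhds hη
  obtain ⟨i, hi1, hi2, hi3, hi4, hi5, hi6, hi7, hi8, hi9⟩ := (hev1.and ((hεt.eventually Htube).and
    ((hsmall he1 hδ).and ((hsmall he2 hδ).and ((hsmall hxi hδp).and ((hsmall hminv hδp).and
    ((hsmall he1 hδp).and ((hsmall hEinv hδp).and
    (hEE.eventually (eventually_gt_atTop 0)))))))))).exists
  obtain ⟨nn, hnn⟩ : ∃ nn, nn = n i := ⟨_, rfl⟩
  obtain ⟨mm, hmm⟩ : ∃ mm, mm = m i := ⟨_, rfl⟩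
  rw [← hnn, ← hmm] at hi1 hi2 hi8 hi9
  rw [← hnn] at hi3 hi6 hi7
  rw [← hmm] at hi4 hi5
  obtain ⟨ε, hεdef⟩ : ∃ ε, ε = epsv g s B0 nn mm := ⟨_, rfl⟩
  obtain ⟨q, hq, hclose, hO⟩ := Hloc ε (by rw [hεdef]; exact hi1)
  -- the perturbation
  obtain ⟨ψ, hψs, hψ, hψfam⟩ := @Hp (xi0 s mm, (s.mu Sy.P ^ nn)⁻¹, e1 s nn, (EE g s nn mm)⁻¹,
    (EE g s nn mm)⁻¹ • q) (by
      rw [dist_zero_right]
      rw [Prod.norm_def, Prod.norm_def, Prod.norm_def, Prod.norm_def]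
      refine max_lt hi5 (max_lt hi6 (max_lt hi7 (max_lt hi8 ?_)))
      have h1 : ‖(EE g s nn mm)⁻¹ • q‖ ≤ ‖(EE g s nn mm)⁻¹‖ * ‖q‖ := norm_smul_le _ _
      have h2 : ‖(EE g s nn mm)⁻¹‖ * ‖q‖ ≤ ‖(EE g s nn mm)⁻¹‖ * 1 :=
        mul_le_mul_of_nonneg_left hq.le (norm_nonneg _)
      rw [mul_one] at h2
      exact lt_of_le_of_lt (h1.trans h2) hi8)
  have hE0 : EE g s nn mm ≠ 0 := ne_of_gt hi9
  obtain ⟨Yi, hYs, hYis, hYi1, hYi2⟩ := z27_coords (g := g) (s := s) hf.smTh b nn mm hE0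
  -- the objects
  obtain ⟨S, hS⟩ : ∃ S : ℕ → Pt → Pt, S = fun j => sto f a b B0 A Mh (Qj e a h0 c0 τ ρ q) ε j :=
    ⟨_, rfl⟩
  have hS1 : ∀ j V, S (j + 1) V =
      stp f a b B0 A Mh (Qj e a h0 c0 τ ρ q) ε j (S j V) := by
    intro j V
    rw [hS]
    rfl
  have hSsm : ∀ j, ContDiff ℝ ∞ (S j) := by
    intro j
    rw [hS]
    exact z27_contDiff_sto hf.smTh hf.smY1 hf.smW hf.smY2 hF.smA hF.smM e a b B0 h0 c0 τ ρ q ε j
  obtain ⟨V0, hV0⟩ : ∃ V0 : Pt, V0 = (a + ρ * h0 * dj e 0, ρ * dj e 1) := ⟨_, rfl⟩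
  obtain ⟨W, hW⟩ : ∃ W : ℕ → Set Pt, W = fun j => {V : Pt |
      |V.1 - (a + ρ * h0 * dj e j)| < ρ * |h0| / 5 ∧ |V.2 - ρ * dj e (j + 1)| < ρ / 5} :=
    ⟨_, rfl⟩
  have hWmem : ∀ j V, V ∈ W j ↔ |V.1 - (a + ρ * h0 * dj e j)| < ρ * |h0| / 5 ∧
      |V.2 - ρ * dj e (j + 1)| < ρ / 5 := by
    intro j V
    rw [hW]
    rfl
  have hWo : ∀ j, IsOpen (W j) := by
    intro j
    have e1 : W j = {V : Pt | |V.1 - (a + ρ * h0 * dj e j)| < ρ * |h0| / 5} ∩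
        {V : Pt | |V.2 - ρ * dj e (j + 1)| < ρ / 5} := by
      ext V
      rw [hWmem]
      rfl
    rw [e1]
    exact (isOpen_lt (by fun_prop) continuous_const).inter
      (isOpen_lt (by fun_prop) continuous_const)
  have hSW : ∀ j ≤ nb e, ∀ᶠ V in 𝓝 V0, S j V ∈ W j := by
    intro j hj
    have h1 : S j V0 ∈ W j := by
      rw [hWmem]
      obtain ⟨c1, c2⟩ := hclose j hj
      rw [← hV0] at c1 c2
      rw [hS]
      exact ⟨lt_of_lt_of_le c1 (by linarith), lt_of_lt_of_le c2 (by linarith)⟩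
    exact (hSsm j).continuous.continuousAt.eventually ((hWo j).mem_nhds h1)
  -- bounds in the regions
  have hWb : ∀ j V, V ∈ W j → |V.1 - a| ≤ ρ * |h0| * N1 ∧ |V.2| ≤ ρ * N1 := by
    intro j V hV
    rw [hWmem] at hV
    have d1 := z27_dj_abs e j
    have d2 := z27_dj_abs e (j + 1)
    constructor
    · have t1 : |V.1 - a| ≤ |V.1 - (a + ρ * h0 * dj e j)| + |ρ * h0 * dj e j| := by
        have := abs_add_le (V.1 - (a + ρ * h0 * dj e j)) (ρ * h0 * dj e j)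
        rwa [show V.1 - (a + ρ * h0 * dj e j) + ρ * h0 * dj e j = V.1 - a by ring] at this
      have t2 : |ρ * h0 * dj e j| ≤ ρ * |h0| * ((nb e : ℝ) / 2) := by
        rw [abs_mul, abs_mul, abs_of_pos hρ0]
        exact mul_le_mul_of_nonneg_left d1 hρh.le
      have t3 : ρ * |h0| / 5 + ρ * |h0| * ((nb e : ℝ) / 2) ≤ ρ * |h0| * N1 := by
        have : ρ * |h0| * N1 - (ρ * |h0| / 5 + ρ * |h0| * ((nb e : ℝ) / 2)) =
            ρ * |h0| * ((nb e : ℝ) / 2 + 4 / 5) := by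
          rw [hN1]
          ring
        have h2 : 0 ≤ ρ * |h0| * ((nb e : ℝ) / 2 + 4 / 5) := mul_nonneg hρh.le (by linarith)
        linarith
      linarith [hV.1]
    · have t1 : |V.2| ≤ |V.2 - ρ * dj e (j + 1)| + |ρ * dj e (j + 1)| := by
        have := abs_add_le (V.2 - ρ * dj e (j + 1)) (ρ * dj e (j + 1))
        rwa [sub_add_cancel] at this
      have t2 : |ρ * dj e (j + 1)| ≤ ρ * ((nb e : ℝ) / 2) := by
        rw [abs_mul, abs_of_pos hρ0]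
        exact mul_le_mul_of_nonneg_left d2 hρ0.le
      have t3 : ρ / 5 + ρ * ((nb e : ℝ) / 2) ≤ ρ * N1 := by
        have : ρ * N1 - (ρ / 5 + ρ * ((nb e : ℝ) / 2)) = ρ * ((nb e : ℝ) / 2 + 4 / 5) := by
          rw [hN1]
          ring
        have h2 : 0 ≤ ρ * ((nb e : ℝ) / 2 + 4 / 5) := mul_nonneg hρ0.le (by linarith)
        linarith
      linarith [hV.2]
  have hWX : ∀ j V, V ∈ W j → |V.1| ≤ 1 := by
    intro j V hV
    have h1 := (hWb j V hV).1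
    have h2 := hp.r_lt
    have h3 : |V.1| ≤ |V.1 - a| + |a| := by
      have := abs_add_le (V.1 - a) a
      rwa [sub_add_cancel] at this
    linarith
  have hWU : ∀ j V, V ∈ W j → |V.2 + b| ≤ 1 := by
    intro j V hV
    have h1 := (hWb j V hV).2
    have h3 := abs_add_le V.2 b
    linarith
  -- one step
  have hone : ∀ χ, Adm D χ → ∀ j < nb e, ∀ V, S j V ∈ W j → S (j + 1) V ∈ W (j + 1) →
      ((χ ∘ ψ) ∘ g)^[nn + s.kS + mm + (k + 1 + l)] (s.κ Sy.P (Yc g s f b nn mm (S j V))) =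
        s.κ Sy.P (PlM g s l (χ (Li (Yc g s f b nn mm (S (j + 1) V))))) ∧
      Yc g s f b nn mm (S (j + 1) V) ∈ Metric.ball ((a, 0) : Pt) r ∧
      ∀ i ≤ nn + s.kS + mm + (k + 1 + l),
        ((χ ∘ ψ) ∘ g)^[i] (s.κ Sy.P (Yc g s f b nn mm (S j V))) ∈ VO ∪ Z := by
    intro χ hχ j hj V hVj hVj1
    have hbX : (S (j + 1) V).1 = bX f a b B0 A (ε, S j V) := by
      rw [hS1]
      rfl
    have hX := (hWb _ _ hVj1).1
    have hT := hi2 (S j V) (hWX _ _ hVj) (hWb _ _ hVj).2 (S (j + 1) V).1 hX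
    rw [← hεdef] at hT
    obtain ⟨t1, t2, t3, t4, t5⟩ := hT
    have hst := Hstep nn mm hi3 hi4 q j (S j V) ψ χ hψ hχ (hWX _ _ hVj) (hWU _ _ hVj)
    rw [← hεdef, ← hS1] at hst
    refine hst ?_ ?_ ?_ t3 t4 ?_
    · apply hBB
      rw [Metric.mem_ball, dist_zero_right]
      exact t1
    · have h := norm_fst_le (z27_w f b B0 ε (S j V))
      rw [Real.norm_eq_abs] at h
      exact lt_of_le_of_lt h t2
    · have h := norm_snd_le (z27_w f b B0 ε (S j V))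
      rw [Real.norm_eq_abs] at h
      exact lt_of_le_of_lt h t2
    · intro v hv1 hv2
      refine (hψfam j hj v ?_ ?_).2
      · rw [hv1, ← hbX]
        exact ((hWmem _ _).1 hVj1).1.le
      · rw [hv2, ← hbX]
        exact t5.le
  have hSN : S (nb e) V0 = V0 := by
    have h1 := hO
    rw [← hV0] at h1
    have h2 := h1.eq_zero_imp.self_of_nhds
    have h3 : sto f a b B0 A Mh (Qj e a h0 c0 τ ρ q) ε (nb e) V0 - V0 = 0 := by
      apply h2
      rw [sub_self, norm_zero, zero_pow (Nat.succ_ne_zero e)]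
    rw [hS]
    exact sub_eq_zero.1 h3
  have hNe : 0 < nb e := by unfold nb; omega
  have hNe1 : nb e - 1 + 1 = nb e := by omega
  have hidA : Adm D id := ⟨fun w _ => rfl, fun w hw => hw⟩
  have hYball : Yc g s f b nn mm (S (nb e) V0) ∈ Metric.ball ((a, 0) : Pt) r := by
    have h1 := (hSW (nb e - 1) (by omega)).self_of_nhds
    have h2 := (hSW (nb e) le_rfl).self_of_nhds
    have h3 := hone id hidA (nb e - 1) (by omega) V0 h1 (by rw [hNe1]; exact h2)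
    rw [hNe1] at h3
    exact h3.2.1
  refine ⟨ψ, nn + s.kS + mm + (k + 1 + l), Yc g s f b nn mm, S, V0, W, HU ψ hψs, hψ, by omega,
    ⟨Yi, hYs, hYis, hYi1, hYi2⟩, hSsm, ?_, hYball, ?_, ?_, ?_, hWo, ?_, hSW, ?_, ?_⟩
  · rw [hS]
    rfl
  · have h1 : V0 ∈ W 0 := by
      have h := (hSW 0 (Nat.zero_le _)).self_of_nhds
      rw [hS] at h
      exact h
    have h2 := (hWb 0 V0 h1).1
    have h3 := hp.r_lt
    show |V0.1| < 1
    have h4 : |V0.1| ≤ |V0.1 - a| + |a| := by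
      have := abs_add_le (V0.1 - a) a
      rwa [sub_add_cancel] at this
    linarith
  · rw [hSN, Metric.mem_ball, dist_eq_norm] at hYball
    have h1 := lt_of_le_of_lt (norm_snd_le _) hYball
    have h2 : ‖(Yc g s f b nn mm V0).2 - 0‖ < r := h1
    rw [sub_zero] at h2
    have h3 := hp.r_lt
    have h4 := abs_nonneg a
    have h5 : |(Yc g s f b nn mm V0).2| < r := h2
    linarith
  · rw [hS, hV0]
    exact hO
  · have h := (hSW 0 (Nat.zero_le _)).self_of_nhds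
    rw [hS] at h
    exact h
  · refine ⟨{v : Pt | |v.1 - V0.1| < ρ * |h0| / 5}, ?_, ?_⟩
    · refine (isOpen_lt (by fun_prop) continuous_const).mem_nhds ?_
      show |V0.1 - V0.1| < ρ * |h0| / 5
      rw [sub_self, abs_zero]
      linarith
    · intro j hj0 hjN V hV hVO
      have h1 : |V.1 - V0.1| < ρ * |h0| / 5 := hVO
      have h2 := ((hWmem _ _).1 hV).1
      have h3 : 1 ≤ |dj e j - dj e 0| := by
        apply dj_sep
        rw [Nat.mod_eq_of_lt hjN, Nat.zero_mod]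
        omega
      have h4 : ρ * |h0| * |dj e j - dj e 0| = |(a + ρ * h0 * dj e j) - V0.1| := by
        have h5 : (a + ρ * h0 * dj e j) - V0.1 = ρ * h0 * (dj e j - dj e 0) := by
          rw [hV0]
          ring
        rw [h5, abs_mul, abs_mul, abs_of_pos hρ0]
      have h5 : |(a + ρ * h0 * dj e j) - V0.1| ≤
          |V.1 - V0.1| + |V.1 - (a + ρ * h0 * dj e j)| := by
        have := abs_sub_le (a + ρ * h0 * dj e j) V.1 V0.1
        rw [abs_sub_comm (a + ρ * h0 * dj e j) V.1] at this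
        linarith
      have h6 : ρ * |h0| * 1 ≤ ρ * |h0| * |dj e j - dj e 0| :=
        mul_le_mul_of_nonneg_left h3 hρh.le
      linarith
  · intro χ hχ hχt
    have hall : ∀ᶠ V in 𝓝 V0, ∀ j ∈ Finset.range (nb e + 1), S j V ∈ W j := by
      rw [Filter.eventually_all_finset]
      intro j hj
      exact hSW j (by
        have := Finset.mem_range.1 hj
        omega)
    filter_upwards [hall] with V hV
    have hV' : ∀ j ≤ nb e, S j V ∈ W j := fun j hj => hV j (Finset.mem_range.2 (by omega))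
    refine ⟨?_, ?_, ?_⟩
    · intro j hj
      have h1 := hone χ hχ j (by omega) V (hV' j (by omega)) (hV' (j + 1) (by omega))
      rw [h1.1, hχt _ h1.2.1 (j + 1) (by omega) hj ⟨_, hV' (j + 1) (by omega), rfl⟩]
    · have h1 := hone χ hχ (nb e - 1) (by omega) V (hV' _ (by omega))
        (by rw [hNe1]; exact hV' _ le_rfl)
      rw [hNe1] at h1
      exact h1.1
    · intro j hj i hi
      exact (hone χ hχ j hj V (hV' j hj.le) (hV' (j + 1) (by omega))).2.2 i hi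

end Pool.Agent.Lib.H37N
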