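import Pool.Agent.Lib.H37P.P02
import Pool.Agent.Lib.H37P.P03
import Pool.Agent.Lib.H37P.P04
import Pool.Agent.Lib.H37P.P05
import Pool.Agent.Lib.H37P.J01

/-!
# H37N F02 (M): the slope of the logarithmic Jacobian along the arc

`L(t) = log(-h'(t) Γ(t))`, `h(t) = (TT (0,t)).1`, `Γ(t) = ∂_ξ (TT (0,t)).2`; `-h' Γ = jac TT (0,t) > 0` because the arc is flat. If `L'(0) ≠ 0`
take `g' = g`. Otherwise `Ψ(p,(X,y)) = (X, y + y p (X-a) χ(X,y))`, `χ` a bump at `(a,0)` with support in the ball of radius `r/2`,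
`Place.family` with a small `p ≠ 0`: `g' = ψ ∘ g`, `TT g' = Ψ_p (TT g)` near `0`, so `h` is the same and `Γ' = Γ (1 + p (h - a))` near `0`
(the arc is on `y = 0`), `L' (0)` changes by `p h'(0) ≠ 0`. The arc stays flat, `TD` holds for `g'` (`ψ (g z) = g z`).
-/

open Set Filter Topology Asymptotics
open scoped ContDiff

namespace Pool.Agent.Lib.H37N

/-- the Jacobian along the flat arc -/
noncomputable def f02_M (T : Pt → Pt) (t : ℝ) : ℝ :=
  -(deriv (fun t : ℝ => (T (0, t)).1) t * (fderiv ℝ T (0, t) (1, 0)).2)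

theorem f02_line : Continuous (fun t : ℝ => (((0 : ℝ), t) : Pt)) := by fun_prop

theorem f02_deriv {T : Pt → Pt} {t : ℝ} (h : DifferentiableAt ℝ T ((0 : ℝ), t)) :
    HasDerivAt (fun t : ℝ => (T (0, t)).1) (fderiv ℝ T (0, t) (0, 1)).1 t := by
  have hline : HasDerivAt (fun t : ℝ => ((0 : ℝ), t)) ((0 : ℝ), (1 : ℝ)) t :=
    (hasDerivAt_const t (0 : ℝ)).prodMk (hasDerivAt_id t)
  exact (h.hasFDerivAt.comp_hasDerivAt t hline).fst

theorem f02_M_diff {T : Pt → Pt} {O : Set Pt} (hO : IsOpen O) (h0 : (0 : Pt) ∈ O)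
    (hT : ContDiffOn ℝ ∞ T O) : DifferentiableAt ℝ (f02_M T) 0 := by
  have h1 : ∀ᶠ t : ℝ in 𝓝 0, (((0 : ℝ), t) : Pt) ∈ O :=
    f02_line.continuousAt.eventually_mem (hO.mem_nhds h0)
  have h2 : f02_M T =ᶠ[𝓝 0] fun t : ℝ =>
      -((fderiv ℝ T (0, t) (0, 1)).1 * (fderiv ℝ T (0, t) (1, 0)).2) := by
    filter_upwards [h1] with t ht
    unfold f02_M
    rw [(f02_deriv ((hT.contDiffAt (hO.mem_nhds ht)).differentiableAt (by simp))).deriv]
  refine DifferentiableAt.congr_of_eventuallyEq ?_ h2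
  have h3 : ContDiffAt ℝ ∞ (fderiv ℝ T) (0 : Pt) :=
    (hT.contDiffAt (hO.mem_nhds h0)).fderiv_right (by simp)
  have h4 : DifferentiableAt ℝ (fun t : ℝ => fderiv ℝ T (((0 : ℝ), t) : Pt)) 0 := by
    have h5 : DifferentiableAt ℝ (fderiv ℝ T) (((0 : ℝ), (0 : ℝ)) : Pt) :=
      h3.differentiableAt (by simp)
    exact h5.comp (0 : ℝ) ((hasDerivAt_const (0 : ℝ) (0 : ℝ)).prodMk
      (hasDerivAt_id (0 : ℝ))).differentiableAt
  exact ((h4.clm_apply (differentiableAt_const _)).fst.mul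
    (h4.clm_apply (differentiableAt_const _)).snd).neg

theorem flat_slope {R m : ℕ} (hm : 1 ≤ m) {U : Set (Pt → Pt)} (hU : PertOpen R U)
    (hUN : ∀ g ∈ U, Near g) {g : Pt → Pt} (hg : g ∈ U) {s : Fr} (hs : IsFr g s) {Z : Set Pt}
    {b a : ℝ} {k l : ℕ} (ht : TD g s Z m b a k l)
    (hfl : ∀ᶠ t : ℝ in 𝓝 0, (TT g s b k l (0, t)).2 = 0) :
    ∃ g' ∈ U, EqOff Z g g' ∧ TD g' s Z m b a k l ∧
      (∀ᶠ t : ℝ in 𝓝 0, (TT g' s b k l (0, t)).2 = 0) ∧
      deriv (fun t : ℝ => Real.log (-(deriv (fun t : ℝ => (TT g' s b k l (0, t)).1) t *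
        (fderiv ℝ (TT g' s b k l) (0, t) (1, 0)).2))) 0 ≠ 0 := by
  have hN := hUN g hg
  by_cases hL : deriv (fun t : ℝ => Real.log (-(deriv (fun t : ℝ => (TT g s b k l (0, t)).1) t *
        (fderiv ℝ (TT g s b k l) (0, t) (1, 0)).2))) 0 = 0
  swap
  · exact ⟨g, hg, fun _ _ _ => rfl, ht, hfl, hL⟩
  obtain ⟨⟨O, hO, h0, hc, -⟩, hTT0⟩ := tt_regular hN hs ht
  obtain ⟨α, hα, hX⟩ := j01_alpha hN hs hm ht
  obtain ⟨r, D, B, Li, hp⟩ := exists_place hN hs ht
  have hr := hp.r_pos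
  obtain ⟨χ, hχ, -, hχs, -, hχ1⟩ := exists_cutoff (E := Pt) (C := {((a, 0) : Pt)})
    (O := Metric.ball ((a, 0) : Pt) (r / 2)) isCompact_singleton Metric.isOpen_ball
    (singleton_subset_iff.2 (Metric.mem_ball_self (by linarith)))
  rw [nhdsSet_singleton] at hχ1
  obtain ⟨ε, hε, hUε⟩ := hU g hg
  have hfam := Place.family hp (P := ℝ)
    (fun q : ℝ × Pt => ((q.2.1, q.2.2 + q.2.2 * q.1 * (q.2.1 - a) * χ q.2) : Pt))
    (by
      refine (contDiff_fst.comp contDiff_snd).prodMk ((contDiff_snd.comp contDiff_snd).add ?_)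
      exact (((contDiff_snd.comp contDiff_snd).mul contDiff_fst).mul
        ((contDiff_fst.comp contDiff_snd).sub contDiff_const)).mul (hχ.comp contDiff_snd))
    (fun v => by ext <;> simp)
    (fun p v hv => by
      have : χ v = 0 := by
        by_contra hc
        exact hv (Metric.ball_subset_closedBall (hχs (subset_tsupport χ hc)))
      ext <;> simp [this]) R hε
  obtain ⟨p, ⟨ψ, hSm, hAdm, hform⟩, hp0⟩ :=
    ((hfam.filter_mono (nhdsWithin_le_nhds (s := {(0 : ℝ)}ᶜ))).and self_mem_nhdsWithin).exists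
  have hp0' : p ≠ 0 := hp0
  have hball : Metric.ball ((a, 0) : Pt) (r / 2) ⊆ Metric.ball ((a, 0) : Pt) r :=
    Metric.ball_subset_ball (by linarith)
  have hTTc : ContinuousAt (TT g s b k l) 0 := (hc.contDiffAt (hO.mem_nhds h0)).continuousAt
  have hχt : ∀ᶠ v : Pt in 𝓝 0, χ (TT g s b k l v) = 1 := by
    have hc : Tendsto (TT g s b k l) (𝓝 0) (𝓝 (a, 0)) := by
      have h := hTTc.tendsto
      rwa [hTT0] at h
    exact hc.eventually hχ1
  have hTT' : ∀ᶠ v : Pt in 𝓝 0, TT (ψ ∘ g) s b k l v =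
      ((TT g s b k l v).1, (TT g s b k l v).2 * (1 + p * ((TT g s b k l v).1 - a))) := by
    filter_upwards [hp.nhB, hχt] with v h1 h2
    rw [(Place.transition hN ht.subZ hp hAdm h1).1, hform _ (hball (hp.TB _ h1))]
    simp only [h2, mul_one]
    ext
    · rfl
    · simp only
      ring
  have hline : Tendsto (fun t : ℝ => (((0 : ℝ), t) : Pt)) (𝓝 0) (𝓝 0) := f02_line.continuousAt
  have hev : ∀ᶠ t : ℝ in 𝓝 0, ∀ᶠ v : Pt in 𝓝 ((0 : ℝ), t), TT (ψ ∘ g) s b k l v =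
      ((TT g s b k l v).1, (TT g s b k l v).2 * (1 + p * ((TT g s b k l v).1 - a))) :=
    hline.eventually (eventually_eventually_nhds.mpr hTT')
  have hflat' : ∀ᶠ t : ℝ in 𝓝 0, (TT (ψ ∘ g) s b k l (0, t)).2 = 0 := by
    filter_upwards [hfl, hline.eventually hTT'] with t h1 h2
    rw [h2, h1, zero_mul]
  have hTd : ∀ᶠ t : ℝ in 𝓝 0, DifferentiableAt ℝ (TT g s b k l) (((0 : ℝ), t) : Pt) := by
    filter_upwards [hline.eventually (hO.mem_nhds h0)] with t h1
    exact (hc.contDiffAt (hO.mem_nhds h1)).differentiableAt (by simp)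
  -- the new Jacobian
  have hM' : f02_M (TT (ψ ∘ g) s b k l) =ᶠ[𝓝 0] fun t : ℝ =>
      f02_M (TT g s b k l) t * (1 + p * ((TT g s b k l (0, t)).1 - a)) := by
    filter_upwards [hev, hfl, hTd] with t h1 h2 h3
    have e1 : deriv (fun t : ℝ => (TT (ψ ∘ g) s b k l (0, t)).1) t =
        deriv (fun t : ℝ => (TT g s b k l (0, t)).1) t := by
      refine EventuallyEq.deriv_eq ?_
      filter_upwards [f02_line.continuousAt.eventually h1] with u hu
      rw [hu]
    have e2 : (fderiv ℝ (TT (ψ ∘ g) s b k l) (0, t) (1, 0)).2 =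
        (fderiv ℝ (TT g s b k l) (0, t) (1, 0)).2 * (1 + p * ((TT g s b k l (0, t)).1 - a)) := by
      have d0 := h3.hasFDerivAt
      have d1 : HasFDerivAt (fun v : Pt => (TT g s b k l v).1)
          ((ContinuousLinearMap.fst ℝ ℝ ℝ).comp (fderiv ℝ (TT g s b k l) (0, t))) (0, t) := d0.fst
      have d2 : HasFDerivAt (fun v : Pt => (TT g s b k l v).2)
          ((ContinuousLinearMap.snd ℝ ℝ ℝ).comp (fderiv ℝ (TT g s b k l) (0, t))) (0, t) := d0.snd
      have d3 := d2.mul (((d1.sub_const a).const_mul p).const_add 1)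
      have d4 := (d1.prodMk d3).congr_of_eventuallyEq h1
      rw [d4.fderiv]
      simp [h2, mul_comm]
    unfold f02_M
    rw [e1, e2]
    ring
  have hMd := f02_M_diff hO h0 hc
  have hM0 : 0 < f02_M (TT g s b k l) 0 := by
    obtain ⟨-, h2, h3⟩ := tt_deriv hN hs hm ht
    unfold f02_M
    have e : deriv (fun t : ℝ => (TT g s b k l (0, t)).1) 0 =
        (fderiv ℝ (TT g s b k l) 0 (0, 1)).1 :=
      (f02_deriv ((hc.contDiffAt (hO.mem_nhds h0)).differentiableAt (by simp))).deriv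
    have e' : (((0 : ℝ), (0 : ℝ)) : Pt) = 0 := rfl
    rw [e, e', h2, neg_neg]
    exact h3
  have ha : (TT g s b k l (0, (0 : ℝ))).1 = a := by
    have : TT g s b k l (0, (0 : ℝ)) = TT g s b k l 0 := rfl
    rw [this, hTT0]
  have hf : HasDerivAt (fun t : ℝ => 1 + p * ((TT g s b k l (0, t)).1 - a)) (p * α) 0 :=
    ((hX.sub_const a).const_mul p).const_add 1
  have hf0 : (1 : ℝ) + p * ((TT g s b k l (0, (0 : ℝ))).1 - a) = 1 := by
    rw [ha]
    ring
  refine ⟨ψ ∘ g, hUε ψ hSm, Place.eqOff hN ht.subZ hp hAdm, ?_, hflat', ?_⟩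
  · refine j01_td hN ht hp hAdm (j01_fix hN hs ht hp hAdm ?_) ?_
    · rw [hform _ (Metric.mem_ball_self hr)]
      ext <;> simp
    · have h1 : (fun t : ℝ => (TT (ψ ∘ g) s b k l (0, t)).2) =ᶠ[𝓝 0] fun _ => (0 : ℝ) := hflat'
      exact h1.trans_isBigO (isBigO_zero _ _)
  · have h1 : (fun t : ℝ => Real.log (f02_M (TT (ψ ∘ g) s b k l) t)) =ᶠ[𝓝 0] fun t =>
        Real.log (f02_M (TT g s b k l) t) +
          Real.log (1 + p * ((TT g s b k l (0, t)).1 - a)) := by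
      have hpos : (0 : ℝ) < (fun t : ℝ => 1 + p * ((TT g s b k l (0, t)).1 - a)) 0 := by
        show (0 : ℝ) < 1 + p * ((TT g s b k l (0, (0 : ℝ))).1 - a)
        rw [hf0]
        exact one_pos
      filter_upwards [hM', hMd.continuousAt.eventually (lt_mem_nhds hM0),
        hf.continuousAt.eventually (lt_mem_nhds hpos)] with t h1 h2 h3
      rw [h1, Real.log_mul h2.ne' h3.ne']
    have h2 : deriv (fun t : ℝ => Real.log (f02_M (TT g s b k l) t)) 0 = 0 := hL
    have h3 : HasDerivAt (fun t : ℝ => Real.log (f02_M (TT g s b k l) t)) 0 0 := by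
      have := (hMd.log hM0.ne').hasDerivAt
      rwa [h2] at this
    have h4 : HasDerivAt (fun t : ℝ => Real.log (1 + p * ((TT g s b k l (0, t)).1 - a)))
        (p * α) 0 := by
      have h := hf.log (by rw [hf0]; exact one_ne_zero)
      rwa [hf0, div_one] at h
    have h5 : HasDerivAt (fun t : ℝ => Real.log (f02_M (TT (ψ ∘ g) s b k l) t)) (p * α) 0 := by
      have h := (h3.add h4).congr_of_eventuallyEq h1
      rwa [zero_add] at h
    have h6 : deriv (fun t : ℝ => Real.log (f02_M (TT (ψ ∘ g) s b k l) t)) 0 ≠ 0 := by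
      rw [h5.deriv]
      exact mul_ne_zero hp0' hα
    exact h6

end Pool.Agent.Lib.H37N
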