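import Pool.Agent.Lib.H37P.P02
import Pool.Agent.Lib.H37P.KDefs
import Pool.Agent.Lib.H37N.T10b
import Pool.Agent.Lib.H37N.T2

/-!
# H37N F03 (M): the local form near a flat arc

`TT` is smooth near `0` (`tt_regular`); localise (T3): `A(ξ,U) = (TT (ξ,U)).1 - a`, `Y(ξ,U) = (TT (ξ,U)).2` near `0`. `Y(0,U) = 0`. For `ξ⁰` near
`0` let `θ(ξ⁰,X)` be the solution near `0` of `a + A(ξ⁰,θ) = X` (`∂_U A(0,0) ≠ 0`; T10), `Nn(ξ⁰,X) = Y(ξ⁰,θ(ξ⁰,X))`, `Nn(0,X) = 0`.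
`M(ξ⁰,ζ,U) = Y(ξ⁰+ζ,U) - Nn(ξ⁰, a + A(ξ⁰+ζ,U))` vanishes for `ζ = 0`, so `M = ζ Mh` (T2 after localisation), and `Mh(0,(0,U)) =
∂_ξ Y(0,U)` since `Nn(0,·) = 0`. `deriv A(0,·) (0) Mh(0,(0,0)) = - jac TT 0 < 0`.
-/

open Set Filter Topology Asymptotics
open scoped ContDiff

namespace Pool.Agent.Lib.H37N

theorem f03_vert {H : Pt → Pt} {x y : ℝ} (h : DifferentiableAt ℝ H (x, y)) :
    HasDerivAt (fun t : ℝ => (H (x, t)).1) (fderiv ℝ H (x, y) (0, 1)).1 y := by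
  have h1 : HasDerivAt (fun t : ℝ => ((x, t) : Pt)) (0, 1) y :=
    (hasDerivAt_const y x).prodMk (hasDerivAt_id y)
  have h2 : HasDerivAt (fun t : ℝ => H (x, t)) (fderiv ℝ H (x, y) (0, 1)) y :=
    h.hasFDerivAt.comp_hasDerivAt y h1
  exact (ContinuousLinearMap.fst ℝ ℝ ℝ).hasFDerivAt.comp_hasDerivAt y h2

theorem f03_hor {H : Pt → Pt} {x y : ℝ} (h : DifferentiableAt ℝ H (x, y)) :
    HasDerivAt (fun t : ℝ => (H (t, y)).2) (fderiv ℝ H (x, y) (1, 0)).2 x := by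
  have h1 : HasDerivAt (fun t : ℝ => ((t, y) : Pt)) (1, 0) x :=
    (hasDerivAt_id x).prodMk (hasDerivAt_const x y)
  have h2 : HasDerivAt (fun t : ℝ => H (t, y)) (fderiv ℝ H (x, y) (1, 0)) x :=
    h.hasFDerivAt.comp_hasDerivAt x h1
  exact (ContinuousLinearMap.snd ℝ ℝ ℝ).hasFDerivAt.comp_hasDerivAt x h2

theorem f03_core {T : Pt → Pt} {a : ℝ} (hTev : ∀ᶠ v in 𝓝 (0 : Pt), ContDiffAt ℝ ∞ T v)
    (hT0 : T 0 = (a, 0)) (hd2 : (fderiv ℝ T 0 (0, 1)).1 * (fderiv ℝ T 0 (1, 0)).2 < 0)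
    (hfl : ∀ᶠ t : ℝ in 𝓝 0, (T (0, t)).2 = 0) :
    ∃ (A Nn : Pt → ℝ) (Mh : ℝ × Pt → ℝ) (r : ℝ), 0 < r ∧ ContDiff ℝ ∞ A ∧ ContDiff ℝ ∞ Nn ∧
      ContDiff ℝ ∞ Mh ∧
      (∀ ξ t : ℝ, |ξ| < r → |t| < r → (T (ξ, t)).1 = a + A (ξ, t)) ∧
      (∀ ξ0 ζ t : ℝ, |ξ0| < r → |ζ| < r → |t| < r →
        (T (ξ0 + ζ, t)).2 = Nn (ξ0, a + A (ξ0 + ζ, t)) + ζ * Mh (ξ0, (ζ, t))) ∧
      (∀ X : ℝ, |X - a| < r → Nn (0, X) = 0) ∧ A (0, 0) = 0 ∧
      deriv (fun t => A (0, t)) 0 * Mh (0, (0, 0)) < 0 ∧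
      ∀ᶠ t : ℝ in 𝓝 0, deriv (fun t => A (0, t)) t * Mh (0, (0, t)) =
        deriv (fun t : ℝ => (T (0, t)).1) t * (fderiv ℝ T (0, t) (1, 0)).2 := by
  obtain ⟨Tg, hTg, hTgeq⟩ := localise_at hTev
  have hTgd : Differentiable ℝ Tg := hTg.differentiable (by simp)
  have hTg0 : Tg (0, 0) = (a, 0) := by
    have h1 : Tg 0 = T 0 := hTgeq.eq_of_nhds
    rw [hT0] at h1
    exact h1
  set A : Pt → ℝ := fun v => (Tg v).1 - a with hA
  set Y : Pt → ℝ := fun v => (Tg v).2 with hY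
  have hAs : ContDiff ℝ ∞ A := (contDiff_fst.comp hTg).sub contDiff_const
  have hYs : ContDiff ℝ ∞ Y := contDiff_snd.comp hTg
  have hA0 : A (0, 0) = 0 := by simp [hA, hTg0]
  -- vertical line through zero
  have hvert : Tendsto (fun t : ℝ => ((0, t) : Pt)) (𝓝 0) (𝓝 (0 : Pt)) := by
    have h1 : Continuous (fun t : ℝ => ((0, t) : Pt)) := by fun_prop
    exact h1.tendsto 0
  have hY0 : ∀ᶠ t : ℝ in 𝓝 0, Y (0, t) = 0 := by
    filter_upwards [hfl, hvert.eventually hTgeq] with t h1 h2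
    show (Tg (0, t)).2 = 0
    rw [h2, h1]
  -- derivatives
  have hfd : ∀ᶠ v in 𝓝 (0 : Pt), Tg =ᶠ[𝓝 v] T := hTgeq.eventuallyEq_nhds
  have hfd0 : fderiv ℝ Tg (0, 0) = fderiv ℝ T 0 := (hfd.self_of_nhds).fderiv_eq
  have hdA : ∀ t : ℝ, HasDerivAt (fun t : ℝ => A (0, t)) (fderiv ℝ Tg (0, t) (0, 1)).1 t := by
    intro t
    exact (f03_vert (hTgd (0, t))).sub_const a
  have hdA0 : deriv (fun t : ℝ => A (0, t)) 0 ≠ 0 := by
    rw [(hdA 0).deriv, hfd0]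
    intro h
    rw [h, zero_mul] at hd2
    exact lt_irrefl _ hd2
  -- the implicit function
  have hFs : ContDiff ℝ ∞ (fun q : ℝ × ℝ => a + A q) := contDiff_const.add hAs
  obtain ⟨θ, hθ, hθ0, hθ1, hθ2⟩ := inverse_param (F := fun q : ℝ × ℝ => a + A q) (p₀ := (0 : ℝ)) (t₀ := (0 : ℝ))
    (Eventually.of_forall fun q => hFs.contDiffAt) (by
      have h1 : (fun t : ℝ => a + A (0, t)) = fun t : ℝ => a + (fun t => A (0, t)) t := rfl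
      rw [show deriv (fun t : ℝ => (fun q : ℝ × ℝ => a + A q) (0, t)) 0 = deriv (fun t : ℝ => A (0, t)) 0 from ?_]
      · exact hdA0
      · show deriv (fun t : ℝ => a + A (0, t)) 0 = _
        rw [((hdA 0).const_add a).deriv, (hdA 0).deriv])
  simp only [hA0, add_zero] at hθ0 hθ2
  set Nn : Pt → ℝ := fun q => Y (q.1, θ q) with hNn
  have hNs : ContDiff ℝ ∞ Nn := hYs.comp (contDiff_fst.prodMk hθ)
  have hN0 : ∀ᶠ X : ℝ in 𝓝 a, Nn (0, X) = 0 := by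
    have h1 : Tendsto (fun X : ℝ => θ (0, X)) (𝓝 a) (𝓝 0) := by
      have h2 : Continuous (fun X : ℝ => θ (0, X)) := hθ.continuous.comp (by fun_prop)
      have h3 := h2.tendsto a
      rwa [hθ0] at h3
    filter_upwards [h1.eventually hY0] with X hX
    exact hX
  -- the remainder
  set M : (ℝ × ℝ) × ℝ → ℝ := fun q => Y (q.1.1 + q.2, q.1.2) - Nn (q.1.1, a + A (q.1.1 + q.2, q.1.2)) with hM
  have hMs : ContDiff ℝ ∞ M := by
    have h1 : ContDiff ℝ ∞ (fun q : (ℝ × ℝ) × ℝ => ((q.1.1 + q.2, q.1.2) : ℝ × ℝ)) := by fun_prop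
    have h2 : ContDiff ℝ ∞ (fun q : (ℝ × ℝ) × ℝ => q.1.1) := by fun_prop
    exact (hYs.comp h1).sub (hNs.comp (h2.prodMk (contDiff_const.add (hAs.comp h1))))
  obtain ⟨G, hG, hG1, hG2⟩ := hadamard1 hMs
  have hM0 : ∀ᶠ p : ℝ × ℝ in 𝓝 (0, 0), M (p, 0) = 0 := by
    filter_upwards [hθ1] with p hp
    show Y (p.1 + 0, p.2) - Y (p.1, θ (p.1, a + A (p.1 + 0, p.2))) = 0
    have h1 : θ (p.1, a + A (p.1, p.2)) = p.2 := hp
    rw [add_zero, h1, sub_self]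
  set Mh : ℝ × Pt → ℝ := fun q => G ((q.1, q.2.2), q.2.1) with hMh
  have hMhs : ContDiff ℝ ∞ Mh := by
    have h1 : ContDiff ℝ ∞ (fun q : ℝ × Pt => (((q.1, q.2.2), q.2.1) : (ℝ × ℝ) × ℝ)) := by fun_prop
    exact hG.comp h1
  -- the value of Mh on the arc
  have hMh0 : ∀ᶠ t : ℝ in 𝓝 0, Mh (0, (0, t)) = (fderiv ℝ Tg (0, t) (1, 0)).2 := by
    have hat : Tendsto (fun t : ℝ => a + A (0, t)) (𝓝 0) (𝓝 a) := by
      have h2 : Continuous (fun t : ℝ => a + A (0, t)) := by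
        have := hAs.continuous
        fun_prop
      have h3 := h2.tendsto 0
      simp only [hA0, add_zero] at h3
      exact h3
    filter_upwards [hat.eventually hN0.eventually_nhds] with t h1
    show G ((0, t), 0) = _
    rw [hG2 (0, t)]
    have h2 : (fun ζ : ℝ => M ((0, t), ζ)) =ᶠ[𝓝 0] fun ζ : ℝ => (Tg (ζ, t)).2 := by
      have h3 : Tendsto (fun ζ : ℝ => a + A (ζ, t)) (𝓝 0) (𝓝 (a + A (0, t))) := by
        have h4 : Continuous (fun ζ : ℝ => a + A (ζ, t)) := by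
          have := hAs.continuous
          fun_prop
        exact h4.tendsto 0
      filter_upwards [h3.eventually h1] with ζ hζ
      show Y (0 + ζ, t) - Nn (0, a + A (0 + ζ, t)) = (Tg (ζ, t)).2
      rw [zero_add, hζ, sub_zero]
    rw [h2.deriv_eq]
    exact (f03_hor (hTgd (0, t))).deriv
  -- the radius
  obtain ⟨r1, hr1, H1⟩ := Metric.eventually_nhds_iff.1 hTgeq
  obtain ⟨r2, hr2, H2⟩ := Metric.eventually_nhds_iff.1 hM0
  obtain ⟨r3, hr3, H3⟩ := Metric.eventually_nhds_iff.1 hN0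
  have hpos : 0 < min (r1 / 2) (min r2 r3) := lt_min (half_pos hr1) (lt_min hr2 hr3)
  refine ⟨A, Nn, Mh, min (r1 / 2) (min r2 r3), hpos, hAs, hNs, hMhs, ?_, ?_, ?_, hA0, ?_, ?_⟩
  · intro ξ t hξ ht
    have h1 : |ξ| < r1 := by linarith [lt_min_iff.1 hξ |>.1]
    have h2 : |t| < r1 := by linarith [lt_min_iff.1 ht |>.1]
    have h3 : dist ((ξ, t) : Pt) 0 < r1 := by
      rw [Prod.dist_eq]
      simp [h1, h2]
    have h4 := H1 h3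
    show (T (ξ, t)).1 = a + ((Tg (ξ, t)).1 - a)
    rw [h4]
    ring
  · intro ξ0 ζ t h0 hζ ht
    obtain ⟨h01, h02⟩ := lt_min_iff.1 h0
    obtain ⟨h11, h12⟩ := lt_min_iff.1 hζ
    obtain ⟨h21, h22⟩ := lt_min_iff.1 ht
    have h1 : |ξ0 + ζ| < r1 := by
      have := abs_add_le ξ0 ζ
      linarith
    have h2 : |t| < r1 := by linarith
    have h3 : dist ((ξ0 + ζ, t) : Pt) 0 < r1 := by
      rw [Prod.dist_eq]
      simp [h1, h2]
    have h4 := H1 h3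
    have h5 : dist ((ξ0, t) : ℝ × ℝ) (0, 0) < r2 := by
      rw [Prod.dist_eq]
      simp [(lt_min_iff.1 h02).1, (lt_min_iff.1 h22).1]
    have h6 := H2 h5
    have h7 := hG1 (ξ0, t) ζ
    rw [h6, zero_add, smul_eq_mul] at h7
    have h8 : M ((ξ0, t), ζ) = Y (ξ0 + ζ, t) - Nn (ξ0, a + A (ξ0 + ζ, t)) := rfl
    rw [h8] at h7
    rw [← h4]
    show Y (ξ0 + ζ, t) = Nn (ξ0, a + A (ξ0 + ζ, t)) + ζ * G ((ξ0, t), ζ)
    linarith
  · intro X hX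
    refine H3 ?_
    rw [Real.dist_eq]
    exact (lt_min_iff.1 (lt_min_iff.1 hX).2).2
  · rw [(hdA 0).deriv, hMh0.self_of_nhds, hfd0]
    exact hd2
  · filter_upwards [hMh0, hvert.eventually hfd] with t h1 h2
    rw [(hdA t).deriv, h1, ← h2.fderiv_eq]
    congr 1
    have h3 : (fun t : ℝ => (T (0, t)).1) =ᶠ[𝓝 t] fun t : ℝ => (Tg (0, t)).1 := by
      have h4 : Tendsto (fun t : ℝ => ((0, t) : Pt)) (𝓝 t) (𝓝 ((0, t) : Pt)) := by
        have h5 : Continuous (fun t : ℝ => ((0, t) : Pt)) := by fun_prop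
        exact h5.tendsto t
      filter_upwards [h4.eventually h2] with u hu
      rw [hu]
    rw [h3.deriv_eq]
    exact (f03_vert (hTgd (0, t))).deriv.symm

theorem exists_flat {g : Pt → Pt} {s : Fr} {Z : Set Pt} {m : ℕ} {b a : ℝ} {k l : ℕ}
    (hN : Near g) (hs : IsFr g s) (hm : 1 ≤ m) (ht : TD g s Z m b a k l)
    (hfl : ∀ᶠ t : ℝ in 𝓝 0, (TT g s b k l (0, t)).2 = 0) :
    ∃ (A Nn : Pt → ℝ) (Mh : ℝ × Pt → ℝ) (rF : ℝ), Flat g s b a k l A Nn Mh rF ∧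
      ∀ᶠ t : ℝ in 𝓝 0, hG A Mh t = -(deriv (fun t : ℝ => (TT g s b k l (0, t)).1) t *
        (fderiv ℝ (TT g s b k l) (0, t) (1, 0)).2) := by
  obtain ⟨⟨O, hO, h0O, hTO, -⟩, hT0⟩ := tt_regular hN hs ht
  obtain ⟨-, hd2, hjac⟩ := tt_deriv hN hs hm ht
  have hTev : ∀ᶠ v in 𝓝 (0 : Pt), ContDiffAt ℝ ∞ (TT g s b k l) v := by
    filter_upwards [hO.mem_nhds h0O] with v hv
    exact hTO.contDiffAt (hO.mem_nhds hv)
  obtain ⟨A, Nn, Mh, r, hr, h1, h2, h3, h4, h5, h6, h7, h8, h9⟩ :=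
    f03_core hTev hT0 (by rw [hd2]; linarith) hfl
  refine ⟨A, Nn, Mh, r, ⟨hr, h1, h2, h3, h4, h5, h6, h7, h8⟩, ?_⟩
  filter_upwards [h9] with t ht
  unfold hG
  rw [ht]

end Pool.Agent.Lib.H37N
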