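import Pool.Agent.Lib.H37P.F01
import Pool.Agent.Lib.H37P.F02
import Pool.Agent.Lib.H37P.F03
import Pool.Agent.Lib.H37P.Z28
import Pool.Agent.Lib.H37P.P01

/-!
# H37N F04: from a tangency of high order to a spot
-/

open Set Filter Topology Asymptotics
open scoped ContDiff

namespace Pool.Agent.Lib.H37N

theorem EqOff.eqV {Z : Set Pt} {g g' : Pt → Pt} (h : EqOff Z g g') (hZ : Z ⊆ interior FF) :
    ∀ z ∈ VV Sy.P ∪ VV Sy.Q, g' z = g z := by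
  intro z hz
  refine h z (Or.inl hz) fun hz2 => ?_
  have h2 := interior_subset (hZ hz2)
  obtain ⟨⟨h3, h4⟩, -⟩ := h2
  rcases hz with ⟨⟨h5, h6⟩, -⟩ | ⟨⟨h5, h6⟩, -⟩
  · norm_num [xc, u0, al, pw, del] at h3 h4 h5 h6
    linarith
  · norm_num [xc, u0, al, pw, del] at h3 h4 h5 h6
    linarith

theorem spot_of_order {R m : ℕ} (hm : R + 1 ≤ m) {U : Set (Pt → Pt)} (hU : PertOpen R U)
    (hUN : ∀ g ∈ U, Near g) {g : Pt → Pt} (hg : g ∈ U) {s : Fr} (hs : IsFr g s) {Z : Set Pt}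
    {b a : ℝ} {k l : ℕ} (ht : TD g s Z m b a k l) : ∃ g' ∈ U, LocalSpot g' := by
  obtain ⟨g1, hg1, he1, ht1, hfl1⟩ := flat_arc hm hU hUN hg hs ht
  have hs1 : IsFr g1 s := isFr_congr (hUN g hg) hs (he1.eqV ht.subZ)
  obtain ⟨g2, hg2, he2, ht2, hfl2, hsl⟩ :=
    flat_slope (by omega) hU hUN hg1 hs1 ht1 hfl1
  have hs2 : IsFr g2 s := isFr_congr (hUN g1 hg1) hs1 (he2.eqV ht.subZ)
  obtain ⟨A, Nn, Mh, rF, hF, hGF⟩ := exists_flat (hUN g2 hg2) hs2 (by omega) ht2 hfl2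
  obtain ⟨r, D, B, Li, hp⟩ := exists_place (hUN g2 hg2) hs2 ht2
  refine spot_of_flat hU hg2 (hUN g2 hg2) hs2 ht2.subZ ht2.b_lt hp hF ?_
  have hEq : (fun U => Real.log (hG A Mh U)) =ᶠ[𝓝 0]
      fun t : ℝ => Real.log (-(deriv (fun t : ℝ => (TT g2 s b k l (0, t)).1) t *
        (fderiv ℝ (TT g2 s b k l) (0, t) (1, 0)).2)) := by
    filter_upwards [hGF] with t ht
    rw [ht]
  rw [hEq.deriv_eq]
  exact hsl

end Pool.Agent.Lib.H37N
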