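import Pool.Agent.Lib.H37N.CDefs
import Pool.Agent.Lib.H37N.C01
import Pool.Agent.Lib.H37N.IPar
import Pool.Agent.Lib.H37N.I0b

/-!
# H37N J09m: the composed orbit, in terms of `mid`
-/

open Set Filter Topology Asymptotics
open scoped ContDiff

namespace Pool.Agent.Lib.H37N

theorem j09_iter_congr {g g' : Pt → Pt} {z : Pt} {N : ℕ} (hp : ∀ i < N, g' (g^[i] z) = g (g^[i] z)) :
    ∀ i ≤ N, g'^[i] z = g^[i] z := by
  intro i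
  induction i with
  | zero => intro _; rfl
  | succ i ih =>
    intro hi
    rw [Function.iterate_succ_apply', ih (by omega), hp i (by omega), ← Function.iterate_succ_apply' g]

theorem j09_injOn {g : Pt → Pt} (hN : Near g) : InjOn g (VV Sy.P ∪ VV Sy.Q ∪ FF) := by
  obtain ⟨O, hO, hsub, hs, hi, -⟩ := hN.smooth
  exact hi.mono hsub

theorem j09_VO_sub : VO ⊆ VV Sy.P ∪ VV Sy.Q := union_subset_union interior_subset interior_subset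

theorem j09_VO_dom : VO ⊆ VV Sy.P ∪ VV Sy.Q ∪ FF := j09_VO_sub.trans subset_union_left

theorem j09_Z_dom {Z : Set Pt} (hZ : Z ⊆ interior FF) : Z ⊆ VV Sy.P ∪ VV Sy.Q ∪ FF :=
  (hZ.trans interior_subset).trans subset_union_right

theorem j09_VO_Z {Z : Set Pt} (hZ : Z ⊆ interior FF) {z : Pt} (h1 : z ∈ VO) (h2 : z ∈ Z) : False :=
  (Set.disjoint_left.1 VV_FF_disjoint) (j09_VO_sub h1) (interior_subset (hZ h2))

/-- a point of the domain whose image is in `g '' Z` is in `Z` -/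
theorem j09_mem {g : Pt → Pt} (hN : Near g) {Z : Set Pt} (hZ : Z ⊆ interior FF) {z : Pt}
    (hz : z ∈ VV Sy.P ∪ VV Sy.Q ∪ FF) (h : g z ∈ g '' Z) : z ∈ Z := by
  obtain ⟨z', hz', he⟩ := h
  rwa [← j09_injOn hN (j09_Z_dom hZ hz') hz he]

/-- the composed orbit -/
theorem composed_mid {g : Pt → Pt} {s : Fr} {Z1 Z2 : Set Pt} {b1 a1 b2 a2 : ℝ} {k1 l1 k2 l2 : ℕ}
    {r1 r2 : ℝ} {D1 B1 D2 B2 : Set Pt} {L1 L2 : Pt → Pt} (hN : Near g)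
    (hZ1 : Z1 ⊆ interior FF) (hZ2 : Z2 ⊆ interior FF) (hd : Disjoint Z1 Z2)
    (p1 : Place g s Z1 b1 a1 k1 l1 r1 D1 B1 L1) (p2 : Place g s Z2 b2 a2 k2 l2 r2 D2 B2 L2)
    {ψ1 ψ2 : Pt → Pt} (h1 : Adm D1 ψ1) (h2 : Adm D2 ψ2) {M : ℕ} {v u w : Pt} (hv : v ∈ B1)
    (hu : u = PlM g s l1 (ψ1 (L1 (TT g s b1 k1 l1 v))))
    (hpath : ∀ i ≤ M, g^[i] (s.κ Sy.P u) ∈ VO) (hend : g^[M] (s.κ Sy.P u) = s.κ Sy.Q (w.1, b2 + w.2)) (hw : w ∈ B2) :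
    (∀ i ≤ k1 + 1 + l1 + M, InM (ψ1 ∘ ψ2 ∘ g) s b1 i v ∈ VO ∪ Z1) ∧
    (∀ i ≤ k2, InM (ψ1 ∘ ψ2 ∘ g) s b1 (k1 + 1 + l1 + M + i) v = InM g s b2 i w) ∧
    TT (ψ1 ∘ ψ2 ∘ g) s b1 (k1 + 1 + l1 + M + k2) l2 v = PlM g s l2 (ψ2 (L2 (TT g s b2 k2 l2 w))) ∧
    (∀ i ≤ l2, (ψ1 ∘ ψ2 ∘ g)^[i] ((ψ1 ∘ ψ2 ∘ g) (InM (ψ1 ∘ ψ2 ∘ g) s b1 (k1 + 1 + l1 + M + k2) v)) ∈ VO) ∧
    (ψ1 ∘ ψ2 ∘ g)^[l2] ((ψ1 ∘ ψ2 ∘ g) (InM (ψ1 ∘ ψ2 ∘ g) s b1 (k1 + 1 + l1 + M + k2) v)) =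
      s.κ Sy.P (PlM g s l2 (ψ2 (L2 (TT g s b2 k2 l2 w)))) := by
  set g' : Pt → Pt := ψ1 ∘ ψ2 ∘ g with hg'
  -- disjointness of the supports
  have hDD : ∀ y, y ∈ D1 → y ∈ D2 → False := by
    intro y hy1 hy2
    obtain ⟨z1, hz1, e1⟩ := p1.subD hy1
    obtain ⟨z2, hz2, e2⟩ := p2.subD hy2
    have : z1 = z2 := j09_injOn hN (j09_Z_dom hZ1 hz1) (j09_Z_dom hZ2 hz2) (e1.trans e2.symm)
    exact (Set.disjoint_left.1 hd) hz1 (this ▸ hz2)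
  -- values of g'
  have e0 : ∀ z, g z ∉ D1 → g z ∉ D2 → g' z = g z := by
    intro z ha hb
    simp only [hg', Function.comp_apply]
    rw [h2.1 _ hb, h1.1 _ ha]
  have e1 : ∀ z, g z ∈ D1 → g' z = ψ1 (g z) := by
    intro z ha
    simp only [hg', Function.comp_apply]
    rw [h2.1 _ fun hb => hDD _ ha hb]
  have e2 : ∀ z, g z ∈ D2 → g' z = ψ2 (g z) := by
    intro z hb
    simp only [hg', Function.comp_apply]
    rw [h1.1 _ fun ha => hDD _ ha (h2.2 _ hb)]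
  have eV : ∀ z ∈ VO, g' z = g z := by
    intro z hz
    refine e0 z (fun ha => ?_) fun hb => ?_
    · exact j09_VO_Z hZ1 hz (j09_mem hN hZ1 (j09_VO_dom hz) (p1.subD ha))
    · exact j09_VO_Z hZ2 hz (j09_mem hN hZ2 (j09_VO_dom hz) (p2.subD hb))
  -- an orbit segment of g' starting at κQ (v + (0,b)), v in B, of a place
  have seg1 : ∀ i ≤ k1, g'^[i] (s.κ Sy.Q (v.1, b1 + v.2)) = g^[i] (s.κ Sy.Q (v.1, b1 + v.2)) := by
    refine j09_iter_congr fun i hi => ?_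
    refine e0 _ (p1.notD v hv i hi) fun hb => ?_
    have hm := p1.pathB v hv i hi.le
    have hz2 : g^[i] (s.κ Sy.Q (v.1, b1 + v.2)) ∈ Z2 :=
      j09_mem hN hZ2 (hm.elim (fun h => j09_VO_dom h) fun h => j09_Z_dom hZ1 h) (p2.subD hb)
    exact hm.elim (fun h => j09_VO_Z hZ2 h hz2) fun h => (Set.disjoint_left.1 hd) h hz2
  have seg2 : ∀ i ≤ k2, g'^[i] (s.κ Sy.Q (w.1, b2 + w.2)) = g^[i] (s.κ Sy.Q (w.1, b2 + w.2)) := by
    refine j09_iter_congr fun i hi => ?_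
    refine e0 _ (fun ha => ?_) (p2.notD w hw i hi)
    have hm := p2.pathB w hw i hi.le
    have hz1 : g^[i] (s.κ Sy.Q (w.1, b2 + w.2)) ∈ Z1 :=
      j09_mem hN hZ1 (hm.elim (fun h => j09_VO_dom h) fun h => j09_Z_dom hZ2 h) (p1.subD ha)
    exact hm.elim (fun h => j09_VO_Z hZ1 h hz1) fun h => (Set.disjoint_left.1 hd) hz1 h
  have hx1 : g (InM g s b1 k1 v) ∈ D1 := p1.inD v hv
  have hx2 : g (InM g s b2 k2 w) ∈ D2 := p2.inD w hw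
  have hL1 : L1 (TT g s b1 k1 l1 v) = g (InM g s b1 k1 v) := p1.Li_Pl _ hx1
  have hL2 : L2 (TT g s b2 k2 l2 w) = g (InM g s b2 k2 w) := p2.Li_Pl _ hx2
  rw [hL1] at hu
  rw [hL2]
  set y1 := ψ1 (g (InM g s b1 k1 v)) with hy1
  set y2 := ψ2 (g (InM g s b2 k2 w)) with hy2
  have hy1D : y1 ∈ D1 := h1.2 _ hx1
  have hy2D : y2 ∈ D2 := h2.2 _ hx2
  have pl1 : ∀ i ≤ l1, g'^[i] y1 = g^[i] y1 :=
    j09_iter_congr fun i hi => eV _ (p1.path y1 hy1D i hi.le)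
  have pl2 : ∀ i ≤ l2, g'^[i] y2 = g^[i] y2 :=
    j09_iter_congr fun i hi => eV _ (p2.path y2 hy2D i hi.le)
  have pm : ∀ i ≤ M, g'^[i] (s.κ Sy.P u) = g^[i] (s.κ Sy.P u) :=
    j09_iter_congr fun i hi => eV _ (hpath i hi.le)
  -- the times k1, k1+1, k1+1+l1
  set x0 : Pt := s.κ Sy.Q (v.1, b1 + v.2) with hx0
  have t1 : g'^[k1 + 1] x0 = y1 := by
    rw [Function.iterate_succ_apply', seg1 k1 le_rfl]
    exact e1 _ hx1
  have t2 : ∀ j ≤ l1, g'^[k1 + 1 + j] x0 = g^[j] y1 := by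
    intro j hj
    rw [add_comm (k1 + 1) j, Function.iterate_add_apply, t1, pl1 j hj]
  have t3 : g'^[k1 + 1 + l1] x0 = s.κ Sy.P u := by
    rw [t2 l1 le_rfl, p1.land y1 hy1D, ← hu]
  have t4 : ∀ j ≤ M, g'^[k1 + 1 + l1 + j] x0 = g^[j] (s.κ Sy.P u) := by
    intro j hj
    rw [add_comm (k1 + 1 + l1) j, Function.iterate_add_apply, t3, pm j hj]
  have t5 : g'^[k1 + 1 + l1 + M] x0 = s.κ Sy.Q (w.1, b2 + w.2) := by
    rw [t4 M le_rfl, hend]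
  have t6 : ∀ j ≤ k2, g'^[k1 + 1 + l1 + M + j] x0 = g^[j] (s.κ Sy.Q (w.1, b2 + w.2)) := by
    intro j hj
    rw [add_comm (k1 + 1 + l1 + M) j, Function.iterate_add_apply, t5, seg2 j hj]
  have t7 : g' (g'^[k1 + 1 + l1 + M + k2] x0) = y2 := by
    rw [t6 k2 le_rfl]
    exact e2 _ hx2
  refine ⟨?_, fun i hi => t6 i hi, ?_, ?_, ?_⟩
  · intro i hi
    show g'^[i] x0 ∈ VO ∪ Z1
    rcases le_or_gt i k1 with h | h
    · rw [seg1 i h]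
      exact p1.pathB v hv i h
    · obtain ⟨j, rfl⟩ := Nat.exists_eq_add_of_lt h
      rcases le_or_gt j l1 with h' | h'
      · left
        have := t2 j h'
        rw [show k1 + j + 1 = k1 + 1 + j by ring, this]
        exact p1.path y1 hy1D j h'
      · obtain ⟨j', rfl⟩ := Nat.exists_eq_add_of_lt h'
        left
        rw [show k1 + (l1 + j' + 1) + 1 = k1 + 1 + l1 + (j' + 1) by ring, t4 (j' + 1) (by omega)]
        exact hpath (j' + 1) (by omega)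
  · show s.c Sy.P (g'^[l2] (g' (g'^[k1 + 1 + l1 + M + k2] x0))) = s.c Sy.P (g^[l2] y2)
    rw [t7, pl2 l2 le_rfl]
  · intro i hi
    show g'^[i] (g' (g'^[k1 + 1 + l1 + M + k2] x0)) ∈ VO
    rw [t7, pl2 i hi]
    exact p2.path y2 hy2D i hi
  · show g'^[l2] (g' (g'^[k1 + 1 + l1 + M + k2] x0)) = _
    rw [t7, pl2 l2 le_rfl]
    exact p2.land y2 hy2D

end Pool.Agent.Lib.H37N
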