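import Pool.Agent.Lib.H37N.T3
import Pool.Agent.Lib.H37P.P05

/-!
# H37N J09v: vertical perturbations at a place
-/

open Set Filter Topology Asymptotics
open scoped ContDiff

namespace Pool.Agent.Lib.H37N

theorem place_vert {g : Pt → Pt} {s : Fr} {Z : Set Pt} {b a : ℝ} {k l : ℕ} {r : ℝ} {D B : Set Pt}
    {Li : Pt → Pt} (hp : Place g s Z b a k l r D B Li) {P : Type} [NormedAddCommGroup P]
    [NormedSpace ℝ P] [FiniteDimensional ℝ P] (Φ : P × ℝ → ℝ) (hΦ : ContDiff ℝ ∞ Φ)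
    (h0 : ∀ X, Φ (0, X) = 0) :
    ∃ ρ > (0 : ℝ), ρ ≤ r ∧ ∀ (R : ℕ) {ε : ℝ}, 0 < ε → ∀ᶠ p in 𝓝 (0 : P), ∃ ψ : Pt → Pt, Small R ε ψ ∧ Adm D ψ ∧
      ∀ v ∈ Metric.ball ((a, 0) : Pt) ρ, PlM g s l (ψ (Li v)) = (v.1, v.2 + Φ (p, v.1)) := by
  have hr := hp.r_pos
  obtain ⟨χ, hχ, -, hts, -, h1⟩ := exists_cutoff (E := Pt) (C := {((a, 0) : Pt)})
    (O := Metric.ball ((a, 0) : Pt) (r / 2)) isCompact_singleton Metric.isOpen_ball
    (by simp [hr])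
  rw [nhdsSet_singleton] at h1
  obtain ⟨ρ, hρ, hball⟩ := Metric.eventually_nhds_iff_ball.1 h1
  refine ⟨min ρ r, lt_min hρ hr, min_le_right _ _, fun R ε hε => ?_⟩
  have hΨ : ContDiff ℝ ∞ (fun q : P × Pt => ((q.2.1, q.2.2 + χ q.2 * Φ (q.1, q.2.1)) : Pt)) := by
    have e1 : ContDiff ℝ ∞ (fun q : P × Pt => χ q.2) := hχ.comp contDiff_snd
    have e2 : ContDiff ℝ ∞ (fun q : P × Pt => Φ (q.1, q.2.1)) := hΦ.comp (by fun_prop)
    fun_prop
  have hfam := hp.family (fun q : P × Pt => ((q.2.1, q.2.2 + χ q.2 * Φ (q.1, q.2.1)) : Pt)) hΨ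
    (fun v => by simp [h0]) (fun p v hv => by
      have hz : χ v = 0 := by
        by_contra hne
        exact hv (Metric.ball_subset_closedBall (hts (subset_tsupport χ hne)))
      simp [hz]) R hε
  filter_upwards [hfam] with p hp'
  obtain ⟨ψ, hs1, hs2, hs3⟩ := hp'
  refine ⟨ψ, hs1, hs2, fun v hv => ?_⟩
  rw [hs3 v (Metric.ball_subset_ball (min_le_right _ _) hv)]
  simp [hball v (Metric.ball_subset_ball (min_le_left _ _) hv)]

end Pool.Agent.Lib.H37N
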