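import Pool.Agent.Lib.H37N.I4a
import Pool.Agent.Lib.H37N.I0b
import Pool.Agent.Lib.H37N.I1d
import Pool.Agent.Lib.H37P.J09m
import Pool.Agent.Lib.H37P.J09v
import Pool.Agent.Lib.H37P.P01
import Pool.Agent.Lib.H37P.P02
import Pool.Agent.Lib.H37P.P03
import Pool.Agent.Lib.H37P.P11

/-!
# H37N J10 (L): Stage I for nondegenerate data

Places for both data (`exists_place`), the analytic core (`core`, I4a), vertical perturbations at the two places (`place_vert`),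
the composed orbit (`composed_mid`), the pass (`pass_path`).
-/

open Set Filter Topology Asymptotics
open scoped ContDiff

namespace Pool.Agent.Lib.H37N

/-- the transition map is smooth near `0`, has the value `(a,0)` and nonzero derivatives -/
theorem j10_tt {g : Pt → Pt} {s : Fr} {Z : Set Pt} {m : ℕ} {b a : ℝ} {k l : ℕ}
    (hN : Near g) (hs : IsFr g s) (hm : 1 ≤ m) (ht : TD g s Z m b a k l) :
    (∀ᶠ v in 𝓝 (0 : Pt), ContDiffAt ℝ ∞ (TT g s b k l) v) ∧ TT g s b k l 0 = (a, 0) ∧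
      (fderiv ℝ (TT g s b k l) 0 (0, 1)).1 ≠ 0 ∧ (fderiv ℝ (TT g s b k l) 0 (1, 0)).2 ≠ 0 := by
  obtain ⟨⟨O, hO, h0, hsm, -⟩, h1⟩ := tt_regular hN hs ht
  obtain ⟨-, h2, h3⟩ := tt_deriv hN hs hm ht
  refine ⟨?_, h1, ?_, ?_⟩
  · filter_upwards [hO.mem_nhds h0] with v hv
    exact hsm.contDiffAt (hO.mem_nhds hv)
  · intro h
    rw [h, zero_mul] at h2
    linarith
  · intro h
    rw [h, mul_zero] at h2
    linarith

theorem j10_small_mono {R : ℕ} {ε ε' : ℝ} {ψ : Pt → Pt} (h : Small R ε ψ) (he : ε ≤ ε') : Small R ε' ψ :=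
  ⟨h.smooth, h.supp, fun j hj z => (h.bound j hj z).trans he⟩

theorem stageI_nondeg {R m : ℕ} (hm : 1 ≤ m) {U : Set (Pt → Pt)} (hU : PertOpen R U)
    (hUN : ∀ g ∈ U, Near g) {g : Pt → Pt} (hg : g ∈ U) {s : Fr} (hs : IsFr g s)
    {Z1 Z2 : Set Pt} (hd : Disjoint Z1 Z2) {b1 a1 b2 a2 : ℝ} {k1 l1 k2 l2 : ℕ}
    (ht1 : TD g s Z1 m b1 a1 k1 l1) (ht2 : TD g s Z2 m b2 a2 k2 l2) {κ1 κ2 : ℝ} (hκ1 : κ1 ≠ 0)
    (hκ2 : κ2 ≠ 0)
    (h1 : (fun t : ℝ => (TT g s b1 k1 l1 (0, t)).2 - κ1 * t ^ (m + 1)) =O[𝓝 0]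
      fun t => |t| ^ (m + 2))
    (h2 : (fun t : ℝ => (TT g s b2 k2 l2 (0, t)).2 - κ2 * t ^ (m + 1)) =O[𝓝 0]
      fun t => |t| ^ (m + 2)) :
    ∃ g' ∈ U, EqOff (Z1 ∪ Z2) g g' ∧ ∃ (b a : ℝ) (k l : ℕ),
      TD g' s (Z1 ∪ Z2) (m + 1) b a k l := by
  have hN : Near g := hUN g hg
  have hZ1 := ht1.subZ
  have hZ2 := ht2.subZ
  obtain ⟨r1, D1, B1, L1, p1⟩ := exists_place hN hs ht1
  obtain ⟨r2, D2, B2, L2, p2⟩ := exists_place hN hs ht2
  obtain ⟨hT1s, hT10, hal1, -⟩ := j10_tt hN hs hm ht1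
  obtain ⟨hT2s, hT20, hal2, hgm2⟩ := j10_tt hN hs hm ht2
  have habs : (fun t : ℝ => |t| ^ (m + 2)) =O[𝓝 0] fun t : ℝ => t ^ (m + 2) := by
    refine IsBigO.of_bound 1 (Eventually.of_forall fun t => ?_)
    rw [one_mul, norm_pow, norm_pow, Real.norm_eq_abs, Real.norm_eq_abs, abs_abs]
  set S : Pt → Pt := SM g (s.κ Sy.P) (s.c Sy.Q) s.kS s.uS with hSdef
  obtain ⟨Φ1, Φ2, hΦ1, hΦ2, hz1, hz2, hcore⟩ := core hm hs.toRates (S := S) (T1 := TT g s b1 k1 l1)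
    (T2 := TT g s b2 k2 l2) (dS := (fderiv ℝ S 0 (0, 1)).2) hs.sdata.smooth hs.sdata.S0 rfl hs.sdata.d_pos hs.sdata.jac_pos
    hT1s hT10 rfl hal1 (h1.trans habs) hκ1 hT2s hT20 rfl hal2 rfl hgm2 (h2.trans habs) hκ2 b2 s.uS
  obtain ⟨ρ1, hρ1, hρ1r, hv1⟩ := place_vert p1 Φ1 hΦ1 hz1
  obtain ⟨ρ2, hρ2, hρ2r, hv2⟩ := place_vert p2 Φ2 hΦ2 hz2
  obtain ⟨ε, hε, hUε⟩ := hU g hg
  obtain ⟨r, hr, hpass⟩ := pass_path hs
  -- the neighbourhood N
  have hc2 : ContinuousAt (TT g s b2 k2 l2) 0 := hT2s.self_of_nhds.continuousAt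
  have hN0 : {v : Pt | (|v.1| < r ∧ |v.2| < r ∧ |v.2| < 1 ∧ |v.1| < 1 - |a2| ∧ |b2 + v.2| < 2) ∧
      ContDiffAt ℝ ∞ S v ∧ ContDiffAt ℝ ∞ (TT g s b2 k2 l2) v ∧
      TT g s b2 k2 l2 v ∈ Metric.ball ((a2, 0) : Pt) ρ2} ∩ B2 ∈ 𝓝 (0 : Pt) := by
    refine inter_mem ?_ p2.nhB
    have c1 : ∀ᶠ v : Pt in 𝓝 0, |v.1| < r := by
      have : Continuous fun v : Pt => |v.1| := by fun_prop
      exact this.continuousAt.eventually_lt continuousAt_const (by simpa using hr)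
    have c2 : ∀ᶠ v : Pt in 𝓝 0, |v.2| < r := by
      have : Continuous fun v : Pt => |v.2| := by fun_prop
      exact this.continuousAt.eventually_lt continuousAt_const (by simpa using hr)
    have c3 : ∀ᶠ v : Pt in 𝓝 0, |v.2| < 1 := by
      have : Continuous fun v : Pt => |v.2| := by fun_prop
      exact this.continuousAt.eventually_lt continuousAt_const (by simp)
    have c4 : ∀ᶠ v : Pt in 𝓝 0, |v.1| < 1 - |a2| := by
      have : Continuous fun v : Pt => |v.1| := by fun_prop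
      exact this.continuousAt.eventually_lt continuousAt_const (by have := ht2.a_lt; simp; linarith)
    have c5 : ∀ᶠ v : Pt in 𝓝 0, |b2 + v.2| < 2 := by
      have : Continuous fun v : Pt => |b2 + v.2| := by fun_prop
      exact this.continuousAt.eventually_lt continuousAt_const (by have := ht2.b_lt; simp; linarith)
    have c6 : ∀ᶠ v : Pt in 𝓝 0, TT g s b2 k2 l2 v ∈ Metric.ball ((a2, 0) : Pt) ρ2 := by
      refine hc2.eventually_mem ?_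
      rw [hT20]
      exact Metric.ball_mem_nhds _ hρ2
    filter_upwards [c1, c2, c3, c4, c5, c6, hs.sdata.smooth, hT2s] with v d1 d2 d3 d4 d5 d6 d7 d8
    exact ⟨⟨d1, d2, d3, d4, d5⟩, d7, d8, d6⟩
  obtain ⟨N, hNsub, hNo, hN0'⟩ := mem_nhds_iff.1 hN0
  obtain ⟨n, ν, q1, ⟨ψ1, hS1, hA1, hψ1⟩, q2, ⟨ψ2, hS2, hA2, hψ2⟩, k01, k02, k03, k04, k05, k06⟩ :=
    hcore _ (hv1 R (half_pos hε)) _ (hv2 R (half_pos hε)) N (hNo.mem_nhds hN0')
  set φ1 : ℝ → ℝ := fun X => Φ1 (q1, X) with hφ1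
  set φ2 : ℝ → ℝ := fun X => Φ2 (q2, X) with hφ2
  set lP := s.lam Sy.P
  set mP := s.mu Sy.P
  set lQ := s.lam Sy.Q
  set mQ := s.mu Sy.Q
  -- disjoint supports
  have hDD : Disjoint D1 D2 := by
    rw [Set.disjoint_left]
    intro y hy1 hy2
    obtain ⟨z1, hz1, e1⟩ := p1.subD hy1
    obtain ⟨z2, hz2, e2⟩ := p2.subD hy2
    have : z1 = z2 := j09_injOn hN (j09_Z_dom hZ1 hz1) (j09_Z_dom hZ2 hz2) (e1.trans e2.symm)
    exact (Set.disjoint_left.1 hd) hz1 (this ▸ hz2)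
  set g' : Pt → Pt := ψ1 ∘ ψ2 ∘ g with hg'
  have hgU : g' ∈ U := by
    have h12 : Small R (ε / 2 + ε / 2) (ψ1 ∘ ψ2) := small_comp hS1 hS2 hA1 hA2 hDD
    rw [add_halves] at h12
    exact hUε _ h12
  have hoff : EqOff (Z1 ∪ Z2) g g' := by
    intro z hz hzn
    have n1 : g z ∉ D1 := fun h => hzn (Or.inl (j09_mem hN hZ1 hz (p1.subD h)))
    have n2 : g z ∉ D2 := fun h => hzn (Or.inr (j09_mem hN hZ2 hz (p2.subD h)))
    simp only [hg', Function.comp_apply]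
    rw [hA2.1 _ n2, hA1.1 _ n1]
  -- the curve
  have hcv : Tendsto (fun t : ℝ => ((0, t) : Pt)) (𝓝 0) (𝓝 0) := by
    have h : Continuous fun t : ℝ => ((0, t) : Pt) := by fun_prop
    exact h.tendsto' 0 0 rfl
  have hT1c : ContinuousAt (fun t : ℝ => TT g s b1 k1 l1 (0, t)) 0 := by
    have h3 : ContinuousAt (TT g s b1 k1 l1) ((0 : ℝ), (0 : ℝ)) := hT1s.self_of_nhds.continuousAt
    have h4 : ContinuousAt (fun t : ℝ => (((0 : ℝ), t) : Pt)) 0 := by fun_prop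
    exact ContinuousAt.comp (f := fun t : ℝ => (((0 : ℝ), t) : Pt)) (g := TT g s b1 k1 l1) h3 h4
  have hφ1c : Continuous φ1 := hΦ1.continuous.comp (by fun_prop)
  have hφ2c : Continuous φ2 := hΦ2.continuous.comp (by fun_prop)
  set u : ℝ → Pt := fun t => vert (TT g s b1 k1 l1) φ1 (0, t) with hu
  have huc : ContinuousAt u 0 := by
    simp only [hu, vert]
    have e1 : ContinuousAt (fun t : ℝ => (TT g s b1 k1 l1 (0, t)).1) 0 := hT1c.fst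
    have e2 : ContinuousAt (fun t : ℝ => (TT g s b1 k1 l1 (0, t)).2) 0 := hT1c.snd
    exact e1.prodMk (e2.add (hφ1c.continuousAt.comp e1))
  set st : ℝ → Pt := fun t => (lP ^ n * (u t).1, mP ^ n * (u t).2 - s.uS) with hst
  have hstc : ContinuousAt st 0 :=
    (continuousAt_const.mul huc.fst).prodMk ((continuousAt_const.mul huc.snd).sub continuousAt_const)
  have hst0 : st 0 ∈ N := k02
  set w : ℝ → Pt := fun t => mid lP mP lQ mQ s.uS S n ν (u t) - (0, b2) with hw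
  have hwc : ContinuousAt w 0 := by
    have e1 : ContinuousAt (fun t => S (st t)) 0 :=
      ContinuousAt.comp (f := st) (g := S) (hNsub hst0).1.2.1.continuousAt hstc
    have e2 : w = fun t => ((lQ ^ ν * (S (st t)).1, mQ ^ ν * (S (st t)).2) : Pt) - (0, b2) := rfl
    rw [e2]
    exact ((continuousAt_const.mul e1.fst).prodMk (continuousAt_const.mul e1.snd)).sub continuousAt_const
  have hw0 : w 0 ∈ N := k03
  -- conditions near t = 0
  have hev : ∀ᶠ t : ℝ in 𝓝 0, ((0, t) : Pt) ∈ B1 ∧ TT g s b1 k1 l1 (0, t) ∈ Metric.ball ((a1, 0) : Pt) ρ1 ∧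
      |(u t).1| < 2 ∧ st t ∈ N ∧ w t ∈ N := by
    have d1 : ∀ᶠ t : ℝ in 𝓝 0, ((0, t) : Pt) ∈ B1 := hcv.eventually p1.nhB
    have d2 : ∀ᶠ t : ℝ in 𝓝 0, TT g s b1 k1 l1 (0, t) ∈ Metric.ball ((a1, 0) : Pt) ρ1 := by
      refine hT1c.eventually_mem ?_
      have : TT g s b1 k1 l1 (0, 0) = (a1, 0) := hT10
      rw [this]
      exact Metric.ball_mem_nhds _ hρ1
    have d3 : ∀ᶠ t : ℝ in 𝓝 0, |(u t).1| < 2 := by
      have : ContinuousAt (fun t => |(u t).1|) 0 := huc.fst.abs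
      refine this.eventually_lt continuousAt_const ?_
      have h0 : (u 0).1 = a1 := k01
      rw [h0]
      linarith [ht1.a_lt]
    have d4 : ∀ᶠ t : ℝ in 𝓝 0, st t ∈ N := hstc.eventually_mem (hNo.mem_nhds hst0)
    have d5 : ∀ᶠ t : ℝ in 𝓝 0, w t ∈ N := hwc.eventually_mem (hNo.mem_nhds hw0)
    filter_upwards [d1, d2, d3, d4, d5] with t e1 e2 e3 e4 e5
    exact ⟨e1, e2, e3, e4, e5⟩
  -- the composed orbit for such t
  set M : ℕ := n + s.kS + ν with hM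
  have hcomp : ∀ t : ℝ, ((0, t) : Pt) ∈ B1 → TT g s b1 k1 l1 (0, t) ∈ Metric.ball ((a1, 0) : Pt) ρ1 →
      |(u t).1| < 2 → st t ∈ N → w t ∈ N →
      (∀ i ≤ k1 + 1 + l1 + M, InM g' s b1 i (0, t) ∈ VO ∪ Z1) ∧
      (∀ i ≤ k2, InM g' s b1 (k1 + 1 + l1 + M + i) (0, t) = InM g s b2 i (w t)) ∧
      TT g' s b1 (k1 + 1 + l1 + M + k2) l2 (0, t) =
        cmp lP mP lQ mQ s.uS S (TT g s b1 k1 l1) (TT g s b2 k2 l2) b2 n ν φ1 φ2 t ∧
      (∀ i ≤ l2, g'^[i] (g' (InM g' s b1 (k1 + 1 + l1 + M + k2) (0, t))) ∈ VO) ∧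
      g'^[l2] (g' (InM g' s b1 (k1 + 1 + l1 + M + k2) (0, t))) =
        s.κ Sy.P (cmp lP mP lQ mQ s.uS S (TT g s b1 k1 l1) (TT g s b2 k2 l2) b2 n ν φ1 φ2 t) := by
    intro t c1 c2 c3 c4 c5
    obtain ⟨⟨⟨m1, m2, m3, m4, m5⟩, m6, m7, m8⟩, m9⟩ := hNsub c5
    obtain ⟨⟨⟨m1', m2', -⟩, -⟩, -⟩ := hNsub c4
    have e1 : u t = PlM g s l1 (ψ1 (L1 (TT g s b1 k1 l1 (0, t)))) := (hψ1 _ c2).symm
    have ew : mid lP mP lQ mQ s.uS S n ν (u t) = ((w t).1, b2 + (w t).2) := by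
      simp only [hw]
      ext <;> simp
    obtain ⟨f1, f2, -⟩ := hpass n ν (u t) c3 m1' m2' (by
      show |(mid lP mP lQ mQ s.uS S n ν (u t)).2| < 2
      rw [ew]
      exact m5)
    have f2' : g^[M] (s.κ Sy.P (u t)) = s.κ Sy.Q ((w t).1, b2 + (w t).2) := by
      rw [← ew]
      exact f2
    have e2 : PlM g s l2 (ψ2 (L2 (TT g s b2 k2 l2 (w t)))) =
        cmp lP mP lQ mQ s.uS S (TT g s b1 k1 l1) (TT g s b2 k2 l2) b2 n ν φ1 φ2 t := by
      rw [hψ2 _ m8]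
      rfl
    have := composed_mid hN hZ1 hZ2 hd p1 p2 hA1 hA2 c1 e1 f1 f2' m9
    rw [e2] at this
    exact this
  refine ⟨g', hgU, hoff, b1, (cmp lP mP lQ mQ s.uS S (TT g s b1 k1 l1) (TT g s b2 k2 l2) b2 n ν φ1 φ2 0).1,
    k1 + 1 + l1 + M + k2, l2, ?_⟩
  obtain ⟨z1, z2, z3, z4, z5⟩ := hev.self_of_nhds
  obtain ⟨y1, y2, y3, y4, y5⟩ := hcomp 0 z1 z2 z3 z4 z5
  have hw0B : w 0 ∈ B2 := (hNsub z5).2
  have hInZ2 : InM g s b2 k2 (w 0) ∈ Z2 := by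
    have hm := p2.pathB _ hw0B k2 le_rfl
    exact j09_mem hN hZ2 (hm.elim (fun h => j09_VO_dom h) fun h => j09_Z_dom hZ2 h) (p2.subD (p2.inD _ hw0B))
  have hk2 : InM g' s b1 (k1 + 1 + l1 + M + k2) 0 = InM g s b2 k2 (w 0) := y2 k2 le_rfl
  refine
    { openZ := ht1.openZ.union ht2.openZ
      subZ := union_subset hZ1 hZ2
      b_pos := ht1.b_pos
      b_lt := ht1.b_lt
      a_lt := ?_
      path1 := ?_
      memZ := ?_
      dist := ?_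
      path2 := y4
      fin := ?_
      ord := ?_ }
  · have h := (hNsub k04).1.1.2.2.2.1
    have e : (cmp lP mP lQ mQ s.uS S (TT g s b1 k1 l1) (TT g s b2 k2 l2) b2 n ν φ1 φ2 0 - ((a2, 0) : Pt)).1 =
      (cmp lP mP lQ mQ s.uS S (TT g s b1 k1 l1) (TT g s b2 k2 l2) b2 n ν φ1 φ2 0).1 - a2 := rfl
    rw [e] at h
    have h3 := abs_sub_abs_le_abs_sub
      (cmp lP mP lQ mQ s.uS S (TT g s b1 k1 l1) (TT g s b2 k2 l2) b2 n ν φ1 φ2 0).1 a2
    linarith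
  · intro i hi
    rcases le_or_gt i (k1 + 1 + l1 + M) with h | h
    · exact (y1 i h).elim (fun h => Or.inl h) fun h => Or.inr (Or.inl h)
    · obtain ⟨j, rfl⟩ := Nat.exists_eq_add_of_lt h
      have e : InM g' s b1 (k1 + 1 + l1 + M + j + 1) 0 = InM g s b2 (j + 1) (w 0) := y2 (j + 1) (by omega)
      rw [e]
      exact (p2.pathB _ hw0B (j + 1) (by omega)).elim (fun h => Or.inl h) fun h => Or.inr (Or.inr h)
  · rw [hk2]
    exact Or.inr hInZ2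
  · intro i hi
    rw [hk2]
    rcases le_or_gt i (k1 + 1 + l1 + M) with h | h
    · intro he
      have hm : InM g' s b1 i (0, 0) ∈ VO ∪ Z1 := y1 i h
      have he' : InM g' s b1 i (0, 0) = InM g s b2 k2 (w 0) := he
      rw [he'] at hm
      exact hm.elim (fun h => j09_VO_Z hZ2 h hInZ2) fun h => (Set.disjoint_left.1 hd) h hInZ2
    · obtain ⟨j, rfl⟩ := Nat.exists_eq_add_of_lt h
      have e : InM g' s b1 (k1 + 1 + l1 + M + j + 1) 0 = InM g s b2 (j + 1) (w 0) := y2 (j + 1) (by omega)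
      rw [e]
      intro he
      refine p2.notD _ hw0B (j + 1) (by omega) ?_
      rw [he]
      exact p2.inD _ hw0B
  · have e : cmp lP mP lQ mQ s.uS S (TT g s b1 k1 l1) (TT g s b2 k2 l2) b2 n ν φ1 φ2 0 =
        ((cmp lP mP lQ mQ s.uS S (TT g s b1 k1 l1) (TT g s b2 k2 l2) b2 n ν φ1 φ2 0).1, 0) :=
      Prod.ext rfl k05
    rw [← e]
    exact y5
  · have habs2 : (fun t : ℝ => t ^ (m + 2)) =O[𝓝 0] fun t : ℝ => |t| ^ (m + 2) := by
      refine IsBigO.of_bound 1 (Eventually.of_forall fun t => ?_)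
      rw [one_mul, norm_pow, norm_pow, Real.norm_eq_abs, Real.norm_eq_abs, abs_abs]
    refine (k06.trans habs2).congr' ?_ EventuallyEq.rfl
    filter_upwards [hev] with t ht
    rw [(hcomp t ht.1 ht.2.1 ht.2.2.1 ht.2.2.2.1 ht.2.2.2.2).2.2.1]

end Pool.Agent.Lib.H37N
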