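import Pool.Agent.Lib.H37P.J01
import Pool.Agent.Lib.H37P.J10

/-!
# H37N J11: Stage I
-/

open Set Filter Topology Asymptotics
open scoped ContDiff

namespace Pool.Agent.Lib.H37N

theorem EqOff.trans_union {Z1 Z2 : Set Pt} {g g1 g2 : Pt → Pt} (h1 : EqOff Z1 g g1)
    (h2 : EqOff Z2 g1 g2) : EqOff (Z1 ∪ Z2) g g2 := fun z hz hn => by
  rw [h2 z hz fun h => hn (Or.inr h), h1 z hz fun h => hn (Or.inl h)]

theorem EqOff.eqVV {Z : Set Pt} {g g' : Pt → Pt} (h : EqOff Z g g') (hZ : Z ⊆ interior FF) :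
    ∀ z ∈ VV Sy.P ∪ VV Sy.Q, g' z = g z := by
  intro z hz
  refine h z (Or.inl hz) fun hz2 => ?_
  have h2 := interior_subset (hZ hz2)
  obtain ⟨⟨h3, h4⟩, -⟩ := h2
  rcases hz with ⟨⟨h5, h6⟩, -⟩ | ⟨⟨h5, h6⟩, -⟩
  · norm_num [xc, u0, al, pw, del] at h3 h4 h5 h6
    linarith
  · norm_num [xc, u0, al, pw, del] at h3 h4 h5 h6
    linarith

theorem stageI {R m : ℕ} (hm : 1 ≤ m) {U : Set (Pt → Pt)} (hU : PertOpen R U)
    (hUN : ∀ g ∈ U, Near g) {g : Pt → Pt} (hg : g ∈ U) {s : Fr} (hs : IsFr g s)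
    {Z1 Z2 : Set Pt} (hd : Disjoint Z1 Z2) {b1 a1 b2 a2 : ℝ} {k1 l1 k2 l2 : ℕ}
    (ht1 : TD g s Z1 m b1 a1 k1 l1) (ht2 : TD g s Z2 m b2 a2 k2 l2) :
    ∃ g' ∈ U, EqOff (Z1 ∪ Z2) g g' ∧ ∃ (b a : ℝ) (k l : ℕ),
      TD g' s (Z1 ∪ Z2) (m + 1) b a k l := by
  have hF1 : Z1 ⊆ FF := ht1.subZ.trans interior_subset
  have hF2 : Z2 ⊆ FF := ht2.subZ.trans interior_subset
  -- make the first datum nondegenerate
  obtain ⟨g1, hg1, he1, ht11, κ1, hκ1, hk1⟩ := nondeg hm hU hUN hg hs ht1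
  have hs1 : IsFr g1 s := isFr_congr (hUN g hg) hs (he1.eqVV ht1.subZ)
  have ht21 : TD g1 s Z2 m b2 a2 k2 l2 := td_congr (hUN g hg) hs ht2 he1 hF1 hd.symm
  -- make the second datum nondegenerate
  obtain ⟨g2, hg2, he2, ht22, κ2, hκ2, hk2⟩ := nondeg hm hU hUN hg1 hs1 ht21
  have hs2 : IsFr g2 s := isFr_congr (hUN g1 hg1) hs1 (he2.eqVV ht2.subZ)
  have ht12 : TD g2 s Z1 m b1 a1 k1 l1 := td_congr (hUN g1 hg1) hs1 ht11 he2 hF2 hd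
  have hT := tt_congr (hUN g1 hg1) hs1 ht11 he2 hF2 hd
  have hcont : Tendsto (fun t : ℝ => ((0, t) : Pt)) (𝓝 0) (𝓝 0) := by
    have h : Continuous fun t : ℝ => ((0, t) : Pt) := by fun_prop
    exact h.tendsto' 0 0 rfl
  have hk12 : (fun t : ℝ => (TT g2 s b1 k1 l1 (0, t)).2 - κ1 * t ^ (m + 1)) =O[𝓝 0]
      fun t => |t| ^ (m + 2) := by
    refine hk1.congr' ?_ EventuallyEq.rfl
    filter_upwards [hcont.eventually hT] with t ht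
    rw [ht]
  obtain ⟨g3, hg3, he3, hTD⟩ := stageI_nondeg hm hU hUN hg2 hs2 hd ht12 ht22 hκ1 hκ2 hk12 hk2
  refine ⟨g3, hg3, ?_, hTD⟩
  have h12 : EqOff (Z1 ∪ Z2) g g2 := he1.trans_union he2
  intro z hz hn
  rw [he3 z hz hn, h12 z hz hn]

end Pool.Agent.Lib.H37N
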