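import Pool.Agent.Lib.H37N.C50
import Pool.Agent.Lib.H37P.J11
import Pool.Agent.Lib.H37P.F04

/-!
# H37N L00: the local theorem
-/

open Set Filter Topology Asymptotics
open scoped ContDiff

namespace Pool.Agent.Lib.H37N

/-- every nonempty set of maps close to the model which is open for perturbations of some fixed finite order of
smoothness contains a map with a periodic spot -/
theorem local_spot {R : ℕ} {U : Set (Pt → Pt)} (hU : PertOpen R U) (hN : ∀ g ∈ U, Near g)
    (hne : U.Nonempty) : ∃ g ∈ U, LocalSpot g := by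
  obtain ⟨g0, hg0⟩ := hne
  obtain ⟨g1, hg1, F, hF⟩ := sectionB hU hN hg0
  obtain ⟨g2, hg2, -, hF2, b, a, k, l, ht⟩ := exists_TD hU hN (F := F)
    (fun g hg hFg Z1 Z2 hd m hm h1 h2 => by
      obtain ⟨b1, a1, k1, l1, ht1⟩ := h1
      obtain ⟨b2, a2, k2, l2, ht2⟩ := h2
      exact stageI hm hU hN hg hFg hd ht1 ht2) (R + 1) (by omega) hg1 hF
  exact spot_of_order le_rfl hU hN hg2 hF2 ht

end Pool.Agent.Lib.H37N
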