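import Pool.Agent.Lib.H37P.KDefs

/-!
# H37N, section S: the perturbations of Stage II and the parameters (definitions)
-/

open Set Filter Topology Asymptotics
open scoped ContDiff

namespace Pool.Agent.Lib.H37N

noncomputable section

/-- the parameter vector of the pass with `n, m` turns -/
def epsv (g : Pt → Pt) (s : Fr) (B0 : ℝ) (n m : ℕ) : E6 :=
  ![e1 s n, e2 g s m, e4 s n m, (EE g s n m)⁻¹, xi0 s m, BB g s n m - B0]

/-- chart coordinates at `P` of the point with the coordinates `V = (X,U)` -/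
def Yc (g : Pt → Pt) (s : Fr) (f : PF) (b : ℝ) (n m : ℕ) (V : Pt) : Pt :=
  (V.1, yF s f b (EE g s n m) (s.mu Sy.P ^ n) (e1 s n) V.1 V.2)

/-- parameters of the perturbation: `(ξ⁰, 1/μ_P^n, ε1, 1/E, q/E)` -/
abbrev PS (e : ℕ) := ℝ × ℝ × ℝ × ℝ × QQ (e + 3) e

/-- the shear at the place of the block `j` -/
def phS (e : ℕ) (s : Fr) (f : PF) (Nn : Pt → ℝ) (a b hs c0 τ ρ : ℝ) (j : ℕ) (p : PS e)
    (X : ℝ) : ℝ :=
  -Nn (p.1, X) + p.2.1 * (s.uS + f.Th (p.2.2.1 * X)) +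
    p.2.2.2.1 * (b - c0 + ρ * qt e τ 0 j ((X - a) / (ρ * hs) - dj e (j + 1))) +
    ρ * qpoly e p.2.2.2.2 j ((X - a) / (ρ * hs) - dj e (j + 1))

end

end Pool.Agent.Lib.H37N
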