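import Pool.Agent.Lib.H37P.P02
import Pool.Agent.Lib.H37P.P03
import Pool.Agent.Lib.H37P.P04
import Pool.Agent.Lib.H37P.P06
import Pool.Agent.Lib.H37P.ZDefs
import Pool.Agent.Lib.H37N.T10a

/-!
# H37N F01 (M): flat arcs

The curve `t ↦ TT (0,t)` near `t = 0` is a graph over the `X`-axis: `(TT (0,t)).1 = a + α t + ..`, `α ≠ 0` (`tt_deriv`), so with the local
inverse `θ` of `t ↦ (TT (0,t)).1` near `a` the function `κ(X) = (TT (0, θ X)).2` is smooth near `a` and `O(|X-a|^(m+1))`.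
`Gh (X,y) = (X, y - κ(X))`, `Gh v - v = O(‖v - (a,0)‖^(m+1))`, `m + 1 ≥ R + 2`. `Place.flat` at `v0 = (a,0)`, `ε` from `PertOpen` at `g`:
`g' = ψ ∘ g ∈ U`; `TT g' v = Gh (TT g v)` for `v` near `0` (`Place.transition`), so `(TT g' (0,t)).2 = 0` near `0`. `TD` for `g'`: the
paths are the same (`Place.iter_in`, `Place.iter_D`; `ψ (g z) = g z` because `Gh (a,0) = (a,0)`).
-/

open Set Filter Topology Asymptotics
open scoped ContDiff

namespace Pool.Agent.Lib.H37N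

theorem f01_core {T : Pt → Pt} {O : Set Pt} (hO : IsOpen O) (h0 : (0 : Pt) ∈ O)
    (hT : ContDiffOn ℝ ∞ T O) {a : ℝ} (hT0 : T 0 = (a, 0)) (hα : (fderiv ℝ T 0 (0, 1)).1 ≠ 0)
    {m : ℕ} (hord : (fun t : ℝ => (T (0, t)).2) =O[𝓝 0] fun t => |t| ^ (m + 1)) :
    ∃ (Gh : Pt → Pt) (O1 : Set Pt), IsOpen O1 ∧ ((a, 0) : Pt) ∈ O1 ∧ ContDiffOn ℝ ∞ Gh O1 ∧
      ((fun v => Gh v - v) =O[𝓝 ((a, 0) : Pt)] fun v => ‖v - (a, 0)‖ ^ (m + 1)) ∧
      Gh (a, 0) = (a, 0) ∧ ∀ᶠ t : ℝ in 𝓝 0, (Gh (T (0, t))).2 = 0 := by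
  have hT0' : T (0, 0) = (a, 0) := hT0
  have hcont : Continuous (fun t : ℝ => ((0 : ℝ), t)) := by fun_prop
  have hmem : ∀ᶠ t : ℝ in 𝓝 0, ((0 : ℝ), t) ∈ O :=
    hcont.continuousAt.eventually_mem (hO.mem_nhds h0)
  have hφ : ∀ᶠ t : ℝ in 𝓝 0, ContDiffAt ℝ ∞ (fun t : ℝ => (T (0, t)).1) t := by
    filter_upwards [hmem] with t ht
    exact (hT.contDiffAt (hO.mem_nhds ht)).fst.comp t (contDiffAt_const.prodMk contDiffAt_id)
  have hTd : HasFDerivAt T (fderiv ℝ T 0) ((0 : ℝ), (0 : ℝ)) :=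
    ((hT.contDiffAt (hO.mem_nhds h0)).differentiableAt (by simp)).hasFDerivAt
  have hld : HasDerivAt (fun t : ℝ => ((0 : ℝ), t)) ((0 : ℝ), (1 : ℝ)) 0 :=
    (hasDerivAt_const 0 (0 : ℝ)).prodMk (hasDerivAt_id 0)
  have hTd2 : HasDerivAt (fun t : ℝ => T (0, t)) (fderiv ℝ T 0 (0, 1)) 0 :=
    hTd.comp_hasDerivAt (0 : ℝ) hld
  have hφd : HasDerivAt (fun t : ℝ => (T (0, t)).1) (fderiv ℝ T 0 (0, 1)).1 0 := by
    have h := (ContinuousLinearMap.fst ℝ ℝ ℝ).hasFDerivAt.comp_hasDerivAt (0 : ℝ) hTd2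
    exact h
  have hb : Function.Bijective (fderiv ℝ (fun t : ℝ => (T (0, t)).1) 0) := by
    have h1 : ∀ v : ℝ, fderiv ℝ (fun t : ℝ => (T (0, t)).1) 0 v =
        v * (fderiv ℝ T 0 (0, 1)).1 := by
      intro v
      rw [hφd.hasFDerivAt.fderiv]
      simp
    constructor
    · intro v w hvw
      rw [h1, h1] at hvw
      exact mul_right_cancel₀ hα hvw
    · intro w
      refine ⟨w / (fderiv ℝ T 0 (0, 1)).1, ?_⟩
      rw [h1]
      field_simp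
  obtain ⟨θ, hθ, hθ0, hθ1, -⟩ := inverse_fun hφ hb
  simp only [hT0'] at hθ0
  refine ⟨fun v => (v.1, v.2 - (T (0, θ v.1)).2), {v | ((0 : ℝ), θ v.1) ∈ O}, ?_, ?_, ?_, ?_, ?_, ?_⟩
  · have hc : Continuous (fun v : Pt => ((0 : ℝ), θ v.1)) :=
      continuous_const.prodMk (hθ.continuous.comp continuous_fst)
    exact hO.preimage hc
  · change ((0 : ℝ), θ a) ∈ O
    rw [hθ0]
    exact h0
  · have hc : ContDiff ℝ ∞ (fun v : Pt => ((0 : ℝ), θ v.1)) :=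
      contDiff_const.prodMk (hθ.comp contDiff_fst)
    have h2 : ContDiffOn ℝ ∞ (fun v : Pt => (T (0, θ v.1)).2) {v | ((0 : ℝ), θ v.1) ∈ O} :=
      (hT.comp hc.contDiffOn (fun v hv => hv)).snd
    exact contDiff_fst.contDiffOn.prodMk (contDiff_snd.contDiffOn.sub h2)
  · have ht : Tendsto (fun v : Pt => θ v.1) (𝓝 ((a, 0) : Pt)) (𝓝 0) := by
      have h := (hθ.continuous.comp continuous_fst).tendsto ((a, 0) : Pt)
      simp only [Function.comp_apply, hθ0] at h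
      exact h
    have h1 : (fun v : Pt => (T (0, θ v.1)).2) =O[𝓝 ((a, 0) : Pt)] fun v => |θ v.1| ^ (m + 1) :=
      hord.comp_tendsto ht
    have h2 : (fun v : Pt => θ v.1) =O[𝓝 ((a, 0) : Pt)] fun v => v.1 - a := by
      have h3 : (fun X : ℝ => θ X - θ a) =O[𝓝 a] fun X => X - a :=
        ((hθ.differentiable (by simp)) a).isBigO_sub
      have h4 : Tendsto (fun v : Pt => v.1) (𝓝 ((a, 0) : Pt)) (𝓝 a) :=
        continuous_fst.tendsto _
      have h5 := h3.comp_tendsto h4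
      simpa [Function.comp_def, hθ0] using h5
    have h6 : (fun v : Pt => v.1 - a) =O[𝓝 ((a, 0) : Pt)] fun v => ‖v - (a, 0)‖ := by
      refine IsBigO.of_bound 1 (Eventually.of_forall fun v => ?_)
      rw [one_mul, norm_norm]
      exact norm_fst_le (v - (a, 0))
    have h7 : (fun v : Pt => |θ v.1| ^ (m + 1)) =O[𝓝 ((a, 0) : Pt)]
        fun v => ‖v - (a, 0)‖ ^ (m + 1) := by
      refine IsBigO.pow ?_ _
      exact (h2.trans h6).norm_left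
    have h8 := h1.trans h7
    refine IsBigO.trans ?_ h8
    refine IsBigO.of_bound 1 (Eventually.of_forall fun v => ?_)
    rw [one_mul, Prod.norm_def]
    simp
  · simp only [hθ0, hT0']
    simp
  · filter_upwards [hθ1] with t ht
    change (T (0, t)).2 - (T (0, θ (T (0, t)).1)).2 = 0
    rw [ht, sub_self]

theorem flat_arc {R m : ℕ} (hm : R + 1 ≤ m) {U : Set (Pt → Pt)} (hU : PertOpen R U)
    (hUN : ∀ g ∈ U, Near g) {g : Pt → Pt} (hg : g ∈ U) {s : Fr} (hs : IsFr g s) {Z : Set Pt}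
    {b a : ℝ} {k l : ℕ} (ht : TD g s Z m b a k l) :
    ∃ g' ∈ U, EqOff Z g g' ∧ TD g' s Z m b a k l ∧
      ∀ᶠ t : ℝ in 𝓝 0, (TT g' s b k l (0, t)).2 = 0 := by
  have hN := hUN g hg
  obtain ⟨⟨O, hO, hO0, hTs, -⟩, hT0⟩ := tt_regular hN hs ht
  obtain ⟨-, hd2, hd3⟩ := tt_deriv hN hs (by omega) ht
  have hα : (fderiv ℝ (TT g s b k l) 0 (0, 1)).1 ≠ 0 := by
    intro h
    rw [h, zero_mul] at hd2
    linarith
  obtain ⟨Gh, O1, hO1, ha1, hGs, hGO, hGa, hG0⟩ := f01_core hO hO0 hTs hT0 hα ht.ord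
  obtain ⟨r, D, B, Li, hp⟩ := exists_place hN hs ht
  obtain ⟨ε, hε, hU'⟩ := hU g hg
  have hcen : ((a, 0) : Pt) ∈ Metric.ball ((a, 0) : Pt) r := Metric.mem_ball_self hp.r_pos
  have hGO' : (fun v => Gh v - v) =O[𝓝 ((a, 0) : Pt)] fun v => ‖v - (a, 0)‖ ^ (R + 2) := by
    refine hGO.trans ?_
    refine IsBigO.of_bound 1 ?_
    have h1 : ∀ᶠ v in 𝓝 ((a, 0) : Pt), v ∈ Metric.ball ((a, 0) : Pt) 1 :=
      Metric.ball_mem_nhds _ one_pos
    filter_upwards [h1] with v hv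
    have hv' : ‖v - (a, 0)‖ ≤ 1 := by
      rw [Metric.mem_ball, dist_eq_norm] at hv
      exact hv.le
    rw [one_mul, norm_pow, norm_pow, norm_norm]
    exact pow_le_pow_of_le_one (norm_nonneg _) hv' (by omega)
  obtain ⟨ψ, hψS, hψA, hψG, -⟩ := hp.flat hcen hO1 ha1 hGs hGO' hε (O := univ) univ_mem
  have h0B : (0 : Pt) ∈ B := mem_of_mem_nhds hp.nhB
  -- the point `w0` is fixed
  set w0 : Pt := g (InM g s b k 0) with hw0
  have hw0D : w0 ∈ D := hp.inD 0 h0B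
  have hPl0 : PlM g s l w0 = (a, 0) := hT0
  have hLi0 : Li (a, 0) = w0 := by rw [← hPl0]; exact hp.Li_Pl w0 hw0D
  have hψw : ψ w0 = w0 := by
    have h1 : PlM g s l (ψ (Li (a, 0))) = Gh (a, 0) := hψG.self_of_nhds
    rw [hLi0, hGa] at h1
    have h2 : Li (PlM g s l (ψ w0)) = ψ w0 := hp.Li_Pl _ (hψA.2 w0 hw0D)
    rw [← h2, h1, hLi0]
  have hin := hp.iter_in hN hψA h0B
  have hk0 : (ψ ∘ g) (InM (ψ ∘ g) s b k 0) = w0 := by
    rw [hin k le_rfl, Function.comp_apply, ← hw0, hψw]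
  have hD := hp.iter_D hN ht.subZ hψA hw0D
  have hev : ∀ᶠ t : ℝ in 𝓝 0, (TT (ψ ∘ g) s b k l (0, t)).2 = 0 := by
    have hcont : Continuous (fun t : ℝ => ((0 : ℝ), t)) := by fun_prop
    have h1 : ∀ᶠ t : ℝ in 𝓝 0, ((0 : ℝ), t) ∈ B :=
      hcont.continuousAt.eventually_mem hp.nhB
    have h2 : Tendsto (fun t : ℝ => TT g s b k l (0, t)) (𝓝 0) (𝓝 ((a, 0) : Pt)) := by
      have h3 : ContinuousAt (TT g s b k l) ((0 : ℝ), (0 : ℝ)) :=
        (hTs.contDiffAt (hO.mem_nhds hO0)).continuousAt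
      have h4 : Tendsto (fun t : ℝ => TT g s b k l (0, t)) (𝓝 0)
          (𝓝 (TT g s b k l ((0 : ℝ), (0 : ℝ)))) :=
        h3.tendsto.comp (hcont.tendsto 0)
      have h5 : TT g s b k l ((0 : ℝ), (0 : ℝ)) = (a, 0) := hT0
      rwa [h5] at h4
    filter_upwards [h1, h2.eventually hψG, hG0] with t ht1 ht2 ht3
    rw [(hp.transition hN ht.subZ hψA ht1).1, ht2, ht3]
  refine ⟨ψ ∘ g, hU' ψ hψS, hp.eqOff hN ht.subZ hψA, ?_, hev⟩
  refine ⟨ht.openZ, ht.subZ, ht.b_pos, ht.b_lt, ht.a_lt, ?_, ?_, ?_, ?_, ?_, ?_⟩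
  · intro i hi
    rw [hin i hi]
    exact ht.path1 i hi
  · rw [hin k le_rfl]
    exact ht.memZ
  · intro i hi
    rw [hin i hi.le, hin k le_rfl]
    exact ht.dist i hi
  · intro i hi
    rw [hk0, hD i hi]
    exact ht.path2 i hi
  · rw [hk0, hD l le_rfl]
    exact ht.fin
  · refine IsBigO.of_bound 0 ?_
    filter_upwards [hev] with t ht1
    rw [ht1]
    simp

end Pool.Agent.Lib.H37N
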