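import Pool.Agent.Lib.H37P.PDefs
import Pool.Agent.Lib.H37N.I0b

/-!
# H37N P07 (S): the pass (from `pass_path`, I0b, and `SData`)

First the linear part at `P`: for `|X| ≤ 1`, `|μ_P^n y| < 2`: `g^i (κP (X,y)) = κP (λ_P^i X, μ_P^i y)`, `i ≤ n` (induction with
`LinChart.rel`; `|μ_P^(i+1) y| ≤ |μ_P^n y| < 2` for `i < n`), all in `κP '' Bx ⊆ VO`. Second: for `(σ,τ)` near `0` the path of
`κP (σ, uS + τ)` up to `kS` is in `VO` (continuity), `g^kS (κP (σ,uS+τ)) ∈ κQ '' Bx` (open), so it is `κQ (SS (σ,τ))`, with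
`|SS.1| < 1`, `SS.2` small. Third: the linear part at `Q`, `i ≤ m`, because `|μ_Q^m SS.2| < 2`. Also `SS` is smooth near `0`.
-/

open Set Filter Topology Asymptotics
open scoped ContDiff

namespace Pool.Agent.Lib.H37N

theorem pass_raw {g : Pt → Pt} {s : Fr} (hN : Near g) (hs : IsFr g s) :
    ∃ r > 0, ContDiffOn ℝ ∞ (SS g s) (Metric.ball 0 r) ∧ SS g s 0 = (s.sS, 0) ∧
      ∀ (n m : ℕ) (X y : ℝ), |X| ≤ 1 → |s.lam Sy.P ^ n * X| < r → |s.mu Sy.P ^ n * y - s.uS| < r →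
        |s.mu Sy.Q ^ m * (SS g s (s.lam Sy.P ^ n * X, s.mu Sy.P ^ n * y - s.uS)).2| < 2 →
        g^[n + s.kS + m] (s.κ Sy.P (X, y)) =
          s.κ Sy.Q (s.lam Sy.Q ^ m * (SS g s (s.lam Sy.P ^ n * X, s.mu Sy.P ^ n * y - s.uS)).1,
            s.mu Sy.Q ^ m * (SS g s (s.lam Sy.P ^ n * X, s.mu Sy.P ^ n * y - s.uS)).2) ∧
        ∀ i ≤ n + s.kS + m, g^[i] (s.κ Sy.P (X, y)) ∈ VO := by
  obtain ⟨r1, hr1, h1⟩ := pass_path hs
  obtain ⟨r2, hr2, h2⟩ := Metric.eventually_nhds_iff_ball.1 hs.sdata.smooth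
  refine ⟨min r1 r2, lt_min hr1 hr2, ?_, hs.sdata.S0, ?_⟩
  · intro v hv
    exact (h2 v (Metric.ball_subset_ball (min_le_right _ _) hv)).contDiffWithinAt
  · intro n m X y hX hlX hmy hS
    obtain ⟨h3, h4, -⟩ := h1 n m (X, y) (lt_of_le_of_lt hX (by norm_num))
      (lt_of_lt_of_le hlX (min_le_left _ _)) (lt_of_lt_of_le hmy (min_le_left _ _)) hS
    exact ⟨h4, h3⟩


end Pool.Agent.Lib.H37N
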