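import Pool.Agent.Lib.H37N.CDefs

/-!
# H37N: the pass from the chart at `P` to the chart at `Q` (definitions)
-/

open Set Filter Topology Asymptotics
open scoped ContDiff

namespace Pool.Agent.Lib.H37N

noncomputable section

/-- `d_S`, the derivative of the second coordinate of the connection along the unstable axis -/
def dS (g : Pt → Pt) (s : Fr) : ℝ := (fderiv ℝ (SS g s) 0 (0, 1)).2

/-- the functions `Θ, W, Y¹, Y²` of the pass -/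
structure PF where
  Th : ℝ → ℝ
  Y1 : ℝ → ℝ
  W : Pt → ℝ
  Y2 : Pt → ℝ

/-- the functions of `f` belong to `g, s`: `S_2(σ,Θ(σ)+t) = d_S t W(σ,t)`,
`S_1(σ,Θ(σ)+t) = s_S + σ Y¹(σ) + t Y²(σ,t)` for `|σ|, |t| < r` -/
structure IsPF (g : Pt → Pt) (s : Fr) (f : PF) (r : ℝ) : Prop where
  r_pos : 0 < r
  smTh : ContDiff ℝ ∞ f.Th
  smY1 : ContDiff ℝ ∞ f.Y1
  smW : ContDiff ℝ ∞ f.W
  smY2 : ContDiff ℝ ∞ f.Y2
  Th0 : f.Th 0 = 0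
  W0 : f.W (0, 0) = 1
  Y10 : f.Y1 0 = jac (SS g s) 0 / dS g s
  snd : ∀ σ t : ℝ, |σ| < r → |t| < r → (SS g s (σ, f.Th σ + t)).2 = dS g s * t * f.W (σ, t)
  fst : ∀ σ t : ℝ, |σ| < r → |t| < r →
    (SS g s (σ, f.Th σ + t)).1 = s.sS + σ * f.Y1 σ + t * f.Y2 (σ, t)

/-- the large factor `E = d_S μ_P^n μ_Q^m` -/
def EE (g : Pt → Pt) (s : Fr) (n m : ℕ) : ℝ := dS g s * s.mu Sy.P ^ n * s.mu Sy.Q ^ m
/-- `ε1 = λ_P^n` -/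
def e1 (s : Fr) (n : ℕ) : ℝ := s.lam Sy.P ^ n
/-- `ε2 = μ_Q^(-m) / d_S` -/
def e2 (g : Pt → Pt) (s : Fr) (m : ℕ) : ℝ := 1 / (dS g s * s.mu Sy.Q ^ m)
/-- `ε4 = μ_P^n λ_Q^m` -/
def e4 (s : Fr) (n m : ℕ) : ℝ := s.mu Sy.P ^ n * s.lam Sy.Q ^ m
/-- `ξ⁰ = λ_Q^m s_S` -/
def xi0 (s : Fr) (m : ℕ) : ℝ := s.lam Sy.Q ^ m * s.sS
/-- `B = d_S (λ_P μ_P)^n (λ_Q μ_Q)^m` -/
def BB (g : Pt → Pt) (s : Fr) (n m : ℕ) : ℝ := dS g s * (s.lam Sy.P * s.mu Sy.P) ^ n * (s.lam Sy.Q * s.mu Sy.Q) ^ m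

/-- the unstable coordinate at the entrance of `P` -/
def yF (s : Fr) (f : PF) (b E mn ε1 X U : ℝ) : ℝ := (U + b) / E + (s.uS + f.Th (ε1 * X)) / mn

/-- the unstable coordinate at the exit of `Q`, minus `b` -/
def etaF (f : PF) (b ε1 ε2 X U : ℝ) : ℝ := (U + b) * f.W (ε1 * X, ε2 * (U + b)) - b

/-- the rescaled stable coordinate at the exit of `Q` -/
def XiF (f : PF) (b ε1 ε2 ε4 Bv X U : ℝ) : ℝ :=
  Bv * X * f.Y1 (ε1 * X) + ε4 * (U + b) * f.Y2 (ε1 * X, ε2 * (U + b))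

end

end Pool.Agent.Lib.H37N
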