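import Pool.Agent.Lib.H37P.Z24
import Pool.Agent.Lib.H37P.Z25

/-!
# H37N Z26 (M): one block with the perturbation of Stage II

`V = (X,U)` near the base point of the block `j`. `block` (S24) with `(ξ,η)`, `ξ = ξ⁰ + E⁻¹ Ξ`. `TT (ξ,η) = (bX(ε,V), Nn(ξ⁰,bX) + E⁻¹ bU(ε,V))` by
`Flat.fst/snd` (`ζ = E⁻¹ Ξ`). If `ψ` acts at this point as the shear `phS_j` with the parameters
`p = (ξ⁰, 1/μ_P^n, ε1, 1/E, q/E)`, the new point has the coordinates `X' = bX`,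
`y' = E⁻¹(bU + b + Qj(X')) + (uS + Th(ε1 X'))/μ_P^n = yF(X',U')`, `U' = bU + Qj(X')`, i.e. `Yc (stp j V)`: use
`E⁻¹ (b + Qj e a hs c0 τ ρ q j X) = E⁻¹ (b - c0 + ρ qt e τ 0 j w) + ρ qpoly e (E⁻¹ • q) j w`.
The hypotheses `hx, hB, hy` say that everything is in the domains.
-/

open Set Filter Topology Asymptotics
open scoped ContDiff

namespace Pool.Agent.Lib.H37N

theorem block_step {g : Pt → Pt} {s : Fr} {Z : Set Pt} {b a : ℝ} {k l : ℕ} {r : ℝ}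
    {D B : Set Pt} {Li : Pt → Pt} (hN : Near g) (hs : IsFr g s) (hZ : Z ⊆ interior FF)
    (hp : Place g s Z b a k l r D B Li) {f : PF} {rf : ℝ} (hf : IsPF g s f rf)
    {A Nn : Pt → ℝ} {Mh : ℝ × Pt → ℝ} {rF : ℝ} (hF : Flat g s b a k l A Nn Mh rF)
    (e : ℕ) {hs' c0 τ ρ B0 : ℝ} (hρ : ρ ≠ 0) (hhs : hs' ≠ 0) :
    ∃ δ > 0, ∀ (n m : ℕ), ‖epsv g s B0 n m‖ < δ → ∀ (q : QQ (e + 3) e) (j : ℕ) (V : Pt) (ψ : Pt → Pt),
      Adm D ψ → |V.1| ≤ 1 → |V.2 + b| ≤ 1 →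
      ((epsv g s B0 n m 4 + epsv g s B0 n m 3 *
          XiF f b (e1 s n) (e2 g s m) (e4 s n m) (BB g s n m) V.1 V.2,
          etaF f b (e1 s n) (e2 g s m) V.1 V.2) : Pt) ∈ B ∩ Metric.ball 0 rF →
      |(EE g s n m)⁻¹ * XiF f b (e1 s n) (e2 g s m) (e4 s n m) (BB g s n m) V.1 V.2| < rF →
      PlM g s l (ψ (Li (TT g s b k l (epsv g s B0 n m 4 + epsv g s B0 n m 3 *
          XiF f b (e1 s n) (e2 g s m) (e4 s n m) (BB g s n m) V.1 V.2,
          etaF f b (e1 s n) (e2 g s m) V.1 V.2)))) =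
        ((bX f a b B0 A (epsv g s B0 n m, V)),
          Nn (xi0 s m, bX f a b B0 A (epsv g s B0 n m, V)) +
            (EE g s n m)⁻¹ * bU f b B0 Mh (epsv g s B0 n m, V) +
            phS e s f Nn a b hs' c0 τ ρ j (xi0 s m, (s.mu Sy.P ^ n)⁻¹, e1 s n, (EE g s n m)⁻¹,
              (EE g s n m)⁻¹ • q) (bX f a b B0 A (epsv g s B0 n m, V))) →
      (ψ ∘ g)^[n + s.kS + m + (k + 1 + l)] (s.κ Sy.P (Yc g s f b n m V)) =
        s.κ Sy.P (Yc g s f b n m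
          (stp f a b B0 A Mh (Qj e a hs' c0 τ ρ q) (epsv g s B0 n m) j V)) ∧
      ∀ i ≤ n + s.kS + m + (k + 1 + l),
        (ψ ∘ g)^[i] (s.κ Sy.P (Yc g s f b n m V)) ∈ VO ∪ Z := by
  obtain ⟨δ, hδ, hblk⟩ := block hN hs hZ hp hf
  refine ⟨δ, hδ, ?_⟩
  intro n m hnm q j V ψ hψ hV1 hV2 hmem _ hPl
  have he0 : epsv g s B0 n m 0 = e1 s n := rfl
  have he1 : epsv g s B0 n m 1 = e2 g s m := rfl
  have he3 : epsv g s B0 n m 3 = (EE g s n m)⁻¹ := rfl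
  have he4 : epsv g s B0 n m 4 = xi0 s m := rfl
  have h0 : |e1 s n| < δ := by
    rw [← he0, ← Real.norm_eq_abs]
    exact lt_of_le_of_lt (norm_le_pi_norm _ 0) hnm
  have h1 : |e2 g s m| < δ := by
    rw [← he1, ← Real.norm_eq_abs]
    exact lt_of_le_of_lt (norm_le_pi_norm _ 1) hnm
  rw [he3, he4] at hmem hPl
  obtain ⟨hA, hB⟩ := hblk ψ hψ n m V.1 V.2 h0 h1 hV1 hV2 hmem.1
  refine ⟨?_, hB⟩
  have hVV : ((V.1, V.2) : Pt) = V := rfl
  rw [hVV, hPl] at hA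
  rw [hA]
  congr 1
  unfold Yc stp
  refine Prod.ext rfl ?_
  simp only [yF, phS, Qj, qt]
  have hq0 : ∀ w : ℝ, qpoly e 0 j w = 0 := by
    intro w
    unfold qpoly
    refine Finset.sum_eq_zero fun i _ => ?_
    have : qx (0 : QQ (e + 3) e) j i = 0 := by
      unfold qx
      split <;> simp
    rw [this, zero_mul]
  have hqs : ∀ (c w : ℝ), qpoly e (c • q) j w = c * qpoly e q j w := by
    intro c w
    unfold qpoly
    rw [Finset.mul_sum]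
    refine Finset.sum_congr rfl fun i _ => ?_
    have : qx (c • q) j i = c * qx q j i := by
      unfold qx
      split <;> simp
    rw [this]
    ring
  rw [hq0, hqs]
  simp only [div_eq_mul_inv]
  ring

end Pool.Agent.Lib.H37N
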